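import Pool.Agent.R271.PJ.Stm

set_option autoImplicit false

open Filter Set Topology

namespace Pool.Agent.R271.PJ

namespace BdAux

lemma DD_pos {q : ℝ} (hq : 0 < q) (hq1 : q ≤ 2 / 5) (s : ℝ) : 0 < DD q s := by
  unfold DD
  have h := Real.sin_sq_add_cos_sq s
  have h1 := sq_nonneg (Real.sin s)
  have h2 := sq_nonneg (Real.cos s)
  have h3 : Real.cos s ^ 2 + q * Real.sin s ^ 2 =
      q * (Real.sin s ^ 2 + Real.cos s ^ 2) + (1 - q) * Real.cos s ^ 2 := by ring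
  rw [h3, h]
  have h4 : 0 ≤ (1 - q) * Real.cos s ^ 2 := mul_nonneg (by linarith) h2
  linarith

lemma NN_lo {q α : ℝ} (hq : 0 < q) (hα : 21 / 10 ≤ α) : 9 ≤ NN q α := by
  unfold NN
  nlinarith

lemma NN_hi {q α : ℝ} (hq : 0 < q) (hq1 : q ≤ 2 / 5) (hα1 : α ≤ 5 / 2) :
    NN q α ≤ 96 / 10 := by
  unfold NN
  nlinarith

lemma WW_nonneg {θ : ℝ} (h0 : 0 < θ) (h1 : θ ≤ Real.pi / 4) : 0 ≤ WW θ := by
  unfold WW
  have hc : 0 ≤ Real.cos (2 * θ) := Real.cos_nonneg_of_mem_Icc ⟨by linarith [Real.pi_pos], by linarith⟩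
  have hs : 0 ≤ Real.sin (2 * θ) := Real.sin_nonneg_of_nonneg_of_le_pi (by linarith)
    (by linarith [Real.pi_pos])
  positivity

lemma RR_mid {q : ℝ} (hq : 0 < q) (α θ : ℝ) : RR q α θ (Real.pi / 2) = α := by
  unfold RR DD
  rw [Real.cos_pi_div_two, Real.sin_pi_div_two]
  field_simp
  ring

lemma RR_zero (q α θ : ℝ) : RR q α θ 0 = NN q α := by
  unfold RR DD
  rw [Real.cos_zero, Real.sin_zero]
  simp

lemma RR_le {q α θ s : ℝ} (hq : 0 < q) (hq1 : q ≤ 2 / 5) (hα : 21 / 10 ≤ α) (hα1 : α ≤ 5 / 2)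
    (h0 : 0 < θ) (h1 : θ ≤ Real.pi / 4) (hs0 : 0 ≤ s) (hs1 : s ≤ Real.pi / 2) :
    RR q α θ s ≤ NN q α := by
  unfold RR
  rw [div_le_iff₀ (DD_pos hq hq1 s)]
  unfold DD
  have hW := WW_nonneg h0 h1
  have hN := NN_lo hq hα
  have hs : 0 ≤ Real.sin s := Real.sin_nonneg_of_nonneg_of_le_pi hs0
    (by linarith [Real.pi_pos])
  have hc : 0 ≤ Real.cos s := Real.cos_nonneg_of_mem_Icc ⟨by linarith [Real.pi_pos], hs1⟩
  have e1 : 0 ≤ WW θ * (Real.sin s * Real.cos s) := by positivity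
  have e2 : q * α * Real.sin s ^ 2 ≤ NN q α * (q * Real.sin s ^ 2) := by
    have e3 : 0 ≤ q * Real.sin s ^ 2 := by positivity
    have e4 : α ≤ NN q α := by linarith
    nlinarith
  linarith

end BdAux

open BdAux in
theorem bdP : BdP := by
  intro q α s δ hq hq1 hα hα1 hS hδ hδ1 hs0 hs1
  have hpi := Real.pi_pos
  have hode : ∀ θ ∈ Icc δ (Real.pi / 4), HasDerivAt s (RR q α θ (s θ)) θ := fun θ hθ =>
    hS.ode θ (by linarith [hθ.1]) (by linarith [hθ.2])
  have hcont : ∀ a, δ ≤ a → ContinuousOn s (Icc a (Real.pi / 4)) := fun a ha θ hθ =>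
    (hode θ ⟨ha.trans hθ.1, hθ.2⟩).continuousAt.continuousWithinAt
  -- the lower bound
  have hlow : ∀ θ ∈ Icc δ (Real.pi / 4), 0 ≤ s θ := by
    intro θ hθ
    refine image_le_of_deriv_right_lt_deriv_boundary' (f := fun _ => (0 : ℝ))
      (f' := fun _ => (0 : ℝ)) (a := δ) (b := Real.pi / 4) (B := s)
      (B' := fun θ => RR q α θ (s θ)) continuousOn_const
      (fun x _ => hasDerivWithinAt_const x (Ici x) (0 : ℝ)) hs0 (hcont δ le_rfl)
      (fun x hx => (hode x ⟨hx.1, hx.2.le⟩).hasDerivWithinAt) ?_ hθ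
    intro x hx h0
    change 0 = s x at h0
    change 0 < RR q α x (s x)
    rw [← h0, RR_zero]
    linarith [NN_lo hq hα]
  -- the angle is at most `π / 2`
  have hup : ∀ θ ∈ Icc δ (Real.pi / 4), s θ ≤ Real.pi / 2 := by
    intro θ hθ
    by_contra hcon
    push Not at hcon
    have hθ1 : θ < Real.pi / 4 := by
      rcases lt_or_eq_of_le hθ.2 with h | h
      · exact h
      · rw [h, hS.mid] at hcon
        exact absurd hcon (lt_irrefl _)
    have hge : ∀ x ∈ Icc θ (Real.pi / 4), Real.pi / 2 ≤ s x := by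
      intro x hx
      refine image_le_of_deriv_right_lt_deriv_boundary' (f := fun _ => Real.pi / 2)
        (f' := fun _ => (0 : ℝ)) (a := θ) (b := Real.pi / 4) (B := s)
        (B' := fun θ => RR q α θ (s θ)) continuousOn_const
        (fun x _ => hasDerivWithinAt_const x (Ici x) (Real.pi / 2)) hcon.le (hcont θ hθ.1)
        (fun x hx => (hode x ⟨hθ.1.trans hx.1, hx.2.le⟩).hasDerivWithinAt) ?_ hx
      intro x hx h0
      change Real.pi / 2 = s x at h0
      change 0 < RR q α x (s x)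
      rw [← h0, RR_mid hq]
      linarith
    have hd := hode (Real.pi / 4) ⟨hδ1.le, le_rfl⟩
    rw [hS.mid, RR_mid hq] at hd
    have h1 := (hasDerivAt_iff_tendsto_slope.1 hd).eventually
      (lt_mem_nhds (show (0 : ℝ) < α by linarith))
    have h2 : ∀ᶠ x in 𝓝[<] (Real.pi / 4), 0 < slope s (Real.pi / 4) x :=
      h1.filter_mono (nhdsWithin_mono _ fun x hx => ne_of_lt hx)
    have h3 : ∀ᶠ x in 𝓝[<] (Real.pi / 4), x ∈ Ioo θ (Real.pi / 4) := Ioo_mem_nhdsLT hθ1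
    obtain ⟨x, hx1, hx2⟩ := (h2.and h3).exists
    have h4 := hge x ⟨hx2.1.le, hx2.2.le⟩
    rw [slope_def_field, hS.mid] at hx1
    have h5 : (s x - Real.pi / 2) / (x - Real.pi / 4) ≤ 0 :=
      div_nonpos_of_nonneg_of_nonpos (by linarith) (by linarith [hx2.2])
    linarith
  intro θ hθ0 hθ1
  refine ⟨hlow θ ⟨hθ0, hθ1⟩, ?_⟩
  have hB : ∀ x, HasDerivAt (fun x : ℝ => s δ + 10 * (x - δ)) 10 x := by
    intro x
    have := (((hasDerivAt_id x).sub_const δ).const_mul 10).const_add (s δ)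
    simpa using this
  have h6 : s θ ≤ s δ + 10 * (θ - δ) := by
    refine image_le_of_deriv_right_lt_deriv_boundary (f := s) (f' := fun θ => RR q α θ (s θ))
      (a := δ) (b := Real.pi / 4) (hcont δ le_rfl)
      (fun x hx => (hode x ⟨hx.1, hx.2.le⟩).hasDerivWithinAt)
      (B := fun x : ℝ => s δ + 10 * (x - δ)) (B' := fun _ => 10) (by simp) hB ?_
      ⟨hθ0, hθ1⟩
    intro x hx _
    change RR q α x (s x) < 10
    have hx' : x ∈ Icc δ (Real.pi / 4) := ⟨hx.1, hx.2.le⟩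
    have h7 := RR_le hq hq1 hα hα1 (lt_of_lt_of_le hδ hx.1) hx.2.le (hlow x hx') (hup x hx')
    have h8 := NN_hi hq hq1 hα1
    linarith
  linarith

end Pool.Agent.R271.PJ
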