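import Pool.Agent.R271.PJ.Stm

/-!
# Project PJ, piece O1: the Cauchy problem for the angle equation
-/

set_option autoImplicit false

open Set Filter Topology

namespace Pool.Agent.R271.PJ

namespace CauchyAux

lemma DD_ge {q : ℝ} (hq1 : q ≤ 2 / 5) (s : ℝ) : q ≤ DD q s := by
  unfold DD
  nlinarith [Real.sin_sq_add_cos_sq s, sq_nonneg (Real.cos s)]

lemma DD_le {q : ℝ} (hq1 : q ≤ 2 / 5) (s : ℝ) : DD q s ≤ 1 := by
  unfold DD
  nlinarith [Real.sin_sq_add_cos_sq s, sq_nonneg (Real.sin s)]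

/-- numerator -/
noncomputable def num (q α w s : ℝ) : ℝ :=
  NN q α * Real.cos s ^ 2 - w * (Real.sin s * Real.cos s) + q * α * Real.sin s ^ 2

lemma RR_eq (q α θ s : ℝ) : RR q α θ s = num q α (WW θ) s / DD q s := rfl

lemma cos_sub_le (a b : ℝ) : |Real.cos a - Real.cos b| ≤ |a - b| := by
  have h := Real.lipschitzWith_cos.dist_le_mul a b
  simpa [Real.dist_eq] using h

lemma sin_sub_le (a b : ℝ) : |Real.sin a - Real.sin b| ≤ |a - b| := by
  have h := Real.lipschitzWith_sin.dist_le_mul a b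
  simpa [Real.dist_eq] using h

lemma cos_sq_sub_le (a b : ℝ) : |Real.cos a ^ 2 - Real.cos b ^ 2| ≤ 2 * |a - b| := by
  have h1 : Real.cos a ^ 2 - Real.cos b ^ 2 = (Real.cos a + Real.cos b) * (Real.cos a - Real.cos b) := by
    ring
  rw [h1, abs_mul]
  have h2 : |Real.cos a + Real.cos b| ≤ 2 := by
    have := abs_add_le (Real.cos a) (Real.cos b)
    have := Real.abs_cos_le_one a
    have := Real.abs_cos_le_one b
    linarith
  exact mul_le_mul h2 (cos_sub_le a b) (abs_nonneg _) (by norm_num)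

lemma sc_sub_le (a b : ℝ) :
    |Real.sin a * Real.cos a - Real.sin b * Real.cos b| ≤ 2 * |a - b| := by
  have h1 : Real.sin a * Real.cos a - Real.sin b * Real.cos b
      = Real.sin a * (Real.cos a - Real.cos b) + Real.cos b * (Real.sin a - Real.sin b) := by ring
  rw [h1]
  refine (abs_add_le _ _).trans ?_
  rw [abs_mul, abs_mul]
  have h2 : |Real.sin a| * |Real.cos a - Real.cos b| ≤ 1 * |a - b| :=
    mul_le_mul (Real.abs_sin_le_one a) (cos_sub_le a b) (abs_nonneg _) (by norm_num)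
  have h3 : |Real.cos b| * |Real.sin a - Real.sin b| ≤ 1 * |a - b| :=
    mul_le_mul (Real.abs_cos_le_one b) (sin_sub_le a b) (abs_nonneg _) (by norm_num)
  linarith

lemma num_abs {q α w W s : ℝ} (hq : 0 < q) (hq1 : q ≤ 2 / 5) (h2 : 2 ≤ α) (h3 : α ≤ 3)
    (hw : |w| ≤ W) : |num q α w s| ≤ 11 + W := by
  unfold num NN
  have hsc := Real.sin_sq_add_cos_sq s
  have h4 : |w * (Real.sin s * Real.cos s)| ≤ W := by
    rw [abs_mul, abs_mul]
    have h5 : |Real.sin s| * |Real.cos s| ≤ 1 * 1 :=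
      mul_le_mul (Real.abs_sin_le_one s) (Real.abs_cos_le_one s) (abs_nonneg _) (by norm_num)
    have := abs_nonneg w
    have h6 : 0 ≤ |Real.sin s| * |Real.cos s| := by positivity
    nlinarith
  have hqa : 0 ≤ (α - 1) * q := by
    apply mul_nonneg <;> linarith
  have hqb : (α - 1) * q ≤ 4 / 5 := by nlinarith
  have hqc : 0 ≤ q * α := by positivity
  have hqd : q * α ≤ 6 / 5 := by nlinarith
  have h7 : 0 ≤ (9 + (α - 1) * q) * Real.cos s ^ 2 := by positivity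
  have h8 : 0 ≤ q * α * Real.sin s ^ 2 := by positivity
  have h9 : (9 + (α - 1) * q) * Real.cos s ^ 2 ≤ 10 * Real.cos s ^ 2 := by
    gcongr
    linarith
  have h10 : q * α * Real.sin s ^ 2 ≤ 10 * Real.sin s ^ 2 := by
    gcongr
    linarith
  rw [abs_le] at h4 ⊢
  constructor
  · linarith [h4.2]
  · linarith [h4.1]

lemma num_sub {q α w W a b : ℝ} (hq : 0 < q) (hq1 : q ≤ 2 / 5) (h2 : 2 ≤ α) (h3 : α ≤ 3)
    (hw : |w| ≤ W) : |num q α w a - num q α w b| ≤ (20 + 2 * W) * |a - b| := by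
  have h4 : num q α w a - num q α w b = (9 - q) * (Real.cos a ^ 2 - Real.cos b ^ 2)
      - w * (Real.sin a * Real.cos a - Real.sin b * Real.cos b) := by
    unfold num NN
    have h5 : Real.sin a ^ 2 = 1 - Real.cos a ^ 2 := Real.sin_sq a
    have h6 : Real.sin b ^ 2 = 1 - Real.cos b ^ 2 := Real.sin_sq b
    rw [h5, h6]
    ring
  rw [h4]
  refine (abs_sub _ _).trans ?_
  rw [abs_mul, abs_mul]
  have h7 : |9 - q| * |Real.cos a ^ 2 - Real.cos b ^ 2| ≤ 10 * (2 * |a - b|) := by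
    refine mul_le_mul ?_ (cos_sq_sub_le a b) (abs_nonneg _) (by norm_num)
    rw [abs_le]
    constructor <;> linarith
  have h8 : |w| * |Real.sin a * Real.cos a - Real.sin b * Real.cos b| ≤ W * (2 * |a - b|) :=
    mul_le_mul hw (sc_sub_le a b) (abs_nonneg _) ((abs_nonneg w).trans hw)
  linarith

lemma DD_sub {q a b : ℝ} (hq : 0 < q) (hq1 : q ≤ 2 / 5) : |DD q a - DD q b| ≤ 2 * |a - b| := by
  have h4 : DD q a - DD q b = (1 - q) * (Real.cos a ^ 2 - Real.cos b ^ 2) := by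
    unfold DD
    have h5 : Real.sin a ^ 2 = 1 - Real.cos a ^ 2 := Real.sin_sq a
    have h6 : Real.sin b ^ 2 = 1 - Real.cos b ^ 2 := Real.sin_sq b
    rw [h5, h6]
    ring
  rw [h4, abs_mul]
  have h7 : |1 - q| ≤ 1 := by
    rw [abs_le]
    constructor <;> linarith
  calc |1 - q| * |Real.cos a ^ 2 - Real.cos b ^ 2| ≤ 1 * (2 * |a - b|) :=
        mul_le_mul h7 (cos_sq_sub_le a b) (abs_nonneg _) (by norm_num)
    _ = 2 * |a - b| := one_mul _

lemma RR_abs {q α θ W s : ℝ} (hq : 0 < q) (hq1 : q ≤ 2 / 5) (h2 : 2 ≤ α) (h3 : α ≤ 3)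
    (hw : |WW θ| ≤ W) : |RR q α θ s| ≤ (11 + W) / q := by
  have hD : 0 < DD q s := hq.trans_le (DD_ge hq1 s)
  rw [RR_eq, abs_div, abs_of_pos hD]
  exact div_le_div₀ ((abs_nonneg _).trans (num_abs hq hq1 h2 h3 hw (s := s)))
    (num_abs hq hq1 h2 h3 hw) hq (DD_ge hq1 s)

lemma RR_lip {q α θ W : ℝ} (hq : 0 < q) (hq1 : q ≤ 2 / 5) (h2 : 2 ≤ α) (h3 : α ≤ 3)
    (hw : |WW θ| ≤ W) (a b : ℝ) :
    |RR q α θ a - RR q α θ b| ≤ (42 + 4 * W) / q ^ 2 * |a - b| := by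
  have hDa : 0 < DD q a := hq.trans_le (DD_ge hq1 a)
  have hDb : 0 < DD q b := hq.trans_le (DD_ge hq1 b)
  have hW : 0 ≤ W := (abs_nonneg _).trans hw
  have h4 : RR q α θ a - RR q α θ b = ((num q α (WW θ) a - num q α (WW θ) b) * DD q b
      - num q α (WW θ) b * (DD q a - DD q b)) / (DD q a * DD q b) := by
    rw [RR_eq, RR_eq]
    field_simp
    ring
  rw [h4, abs_div, abs_of_pos (mul_pos hDa hDb), div_mul_eq_mul_div]
  have h5 : |(num q α (WW θ) a - num q α (WW θ) b) * DD q b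
      - num q α (WW θ) b * (DD q a - DD q b)| ≤ (42 + 4 * W) * |a - b| := by
    refine (abs_sub _ _).trans ?_
    rw [abs_mul, abs_mul, abs_of_pos hDb]
    have h6 : |num q α (WW θ) a - num q α (WW θ) b| * DD q b ≤ ((20 + 2 * W) * |a - b|) * 1 :=
      mul_le_mul (num_sub hq hq1 h2 h3 hw) (DD_le hq1 b) hDb.le (by positivity)
    have h7 : |num q α (WW θ) b| * |DD q a - DD q b| ≤ (11 + W) * (2 * |a - b|) :=
      mul_le_mul (num_abs hq hq1 h2 h3 hw) (DD_sub hq hq1) (abs_nonneg _) (by positivity)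
    linarith
  refine div_le_div₀ (by positivity) h5 (by positivity) ?_
  rw [sq]
  exact mul_le_mul (DD_ge hq1 a) (DD_ge hq1 b) hq.le hDa.le

lemma RR_alpha {q α β θ s : ℝ} (hq : 0 < q) (hq1 : q ≤ 2 / 5) :
    |RR q α θ s - RR q β θ s| ≤ |α - β| := by
  have hD : 0 < DD q s := hq.trans_le (DD_ge hq1 s)
  have h4 : RR q α θ s - RR q β θ s = (α - β) * (q / DD q s) := by
    rw [RR_eq, RR_eq]
    unfold num NN
    have h5 : Real.sin s ^ 2 = 1 - Real.cos s ^ 2 := Real.sin_sq s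
    rw [h5]
    field_simp
    ring
  rw [h4, abs_mul, abs_of_pos (div_pos hq hD)]
  have h6 : q / DD q s ≤ 1 := by
    rw [div_le_one hD]
    exact DD_ge hq1 s
  calc |α - β| * (q / DD q s) ≤ |α - β| * 1 := by gcongr
    _ = |α - β| := mul_one _

lemma sin_ge {c θ : ℝ} (hc0 : 0 ≤ c) (hc : c < Real.pi / 4) (h1 : Real.pi / 4 - c ≤ θ)
    (h2 : θ ≤ Real.pi / 4 + c) : Real.cos (2 * c) ≤ Real.sin (2 * θ) := by
  have h3 : Real.sin (2 * θ) = Real.cos (2 * θ - Real.pi / 2) := (Real.cos_sub_pi_div_two _).symm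
  rw [h3, ← Real.cos_abs (2 * θ - Real.pi / 2)]
  refine Real.cos_le_cos_of_nonneg_of_le_pi (abs_nonneg _) ?_ ?_
  · have := Real.pi_pos
    linarith
  · rw [abs_le]
    constructor <;> linarith

lemma cos2c_pos {c : ℝ} (hc0 : 0 ≤ c) (hc : c < Real.pi / 4) : 0 < Real.cos (2 * c) := by
  have := Real.pi_pos
  exact Real.cos_pos_of_mem_Ioo ⟨by linarith, by linarith⟩

lemma WW_bd {c : ℝ} (hc0 : 0 ≤ c) (hc : c < Real.pi / 4) :
    ∃ W : ℝ, 0 ≤ W ∧ ∀ θ : ℝ, Real.pi / 4 - c ≤ θ → θ ≤ Real.pi / 4 + c → |WW θ| ≤ W := by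
  have hpos := cos2c_pos hc0 hc
  refine ⟨8 * (1 / Real.cos (2 * c)), by positivity, fun θ h1 h2 => ?_⟩
  have h3 := sin_ge hc0 hc h1 h2
  unfold WW
  rw [abs_mul, abs_div, abs_of_pos (hpos.trans_le h3), abs_of_pos (by norm_num : (0 : ℝ) < 8)]
  gcongr
  exact Real.abs_cos_le_one _

lemma WW_cont {c : ℝ} (hc0 : 0 ≤ c) (hc : c < Real.pi / 4) :
    ContinuousOn WW (Icc (Real.pi / 4 - c) (Real.pi / 4 + c)) := by
  have hpos := cos2c_pos hc0 hc
  unfold WW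
  refine continuousOn_const.mul (ContinuousOn.div ?_ ?_ ?_)
  · exact (Real.continuous_cos.comp (continuous_const.mul continuous_id)).continuousOn
  · exact (Real.continuous_sin.comp (continuous_const.mul continuous_id)).continuousOn
  · intro θ hθ
    exact (hpos.trans_le (sin_ge hc0 hc hθ.1 hθ.2)).ne'

lemma locex {q α c : ℝ} (hq : 0 < q) (hq1 : q ≤ 2 / 5) (h2 : 2 ≤ α) (h3 : α ≤ 3)
    (hc0 : 0 < c) (hc : c < Real.pi / 4) :
    ∃ f : ℝ → ℝ, f (Real.pi / 4) = Real.pi / 2 ∧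
      ∀ t ∈ Ioo (Real.pi / 4 - c) (Real.pi / 4 + c), HasDerivAt f (RR q α t (f t)) t := by
  obtain ⟨W, hW0, hW⟩ := WW_bd hc0.le hc
  obtain ⟨M, hM⟩ : ∃ M : NNReal, (M : ℝ) = (11 + W) / q :=
    ⟨⟨(11 + W) / q, by positivity⟩, rfl⟩
  obtain ⟨K, hK⟩ : ∃ K : NNReal, (K : ℝ) = (42 + 4 * W) / q ^ 2 :=
    ⟨⟨(42 + 4 * W) / q ^ 2, by positivity⟩, rfl⟩
  obtain ⟨a, ha⟩ : ∃ a : NNReal, (a : ℝ) = M * c := ⟨⟨M * c, by positivity⟩, rfl⟩
  have hmem : Real.pi / 4 ∈ Icc (Real.pi / 4 - c) (Real.pi / 4 + c) := ⟨by linarith, by linarith⟩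
  have hPL : IsPicardLindelof (fun t x => RR q α t x)
      (⟨Real.pi / 4, hmem⟩ : Icc (Real.pi / 4 - c) (Real.pi / 4 + c)) (Real.pi / 2) a 0 M K := by
    refine ⟨?_, ?_, ?_, ?_⟩
    · intro t ht
      refine LipschitzOnWith.of_dist_le_mul fun x _ y _ => ?_
      rw [Real.dist_eq, Real.dist_eq, hK]
      exact RR_lip hq hq1 h2 h3 (hW t ht.1 ht.2) x y
    · intro x _
      show ContinuousOn (fun t => RR q α t x) _
      unfold RR
      exact ((continuousOn_const.sub ((WW_cont hc0.le hc).mul continuousOn_const)).add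
        continuousOn_const).div_const _
    · intro t ht x _
      rw [Real.norm_eq_abs, hM]
      exact RR_abs hq hq1 h2 h3 (hW t ht.1 ht.2)
    · show (M : ℝ) * max (Real.pi / 4 + c - Real.pi / 4) (Real.pi / 4 - (Real.pi / 4 - c)) ≤ a - (0 : NNReal)
      rw [ha]
      have e1 : Real.pi / 4 + c - Real.pi / 4 = c := by ring
      have e2 : Real.pi / 4 - (Real.pi / 4 - c) = c := by ring
      rw [e1, e2, max_self]
      simp
  obtain ⟨f, hf1, hf2⟩ := hPL.exists_eq_forall_mem_Icc_hasDerivWithinAt₀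
  exact ⟨f, hf1, fun t ht => (hf2 t (Ioo_subset_Icc_self ht)).hasDerivAt (Icc_mem_nhds ht.1 ht.2)⟩

lemma uniq {q α c : ℝ} (hq : 0 < q) (hq1 : q ≤ 2 / 5) (h2 : 2 ≤ α) (h3 : α ≤ 3)
    (hc0 : 0 < c) (hc : c < Real.pi / 4) {f g : ℝ → ℝ}
    (hf : ∀ t ∈ Ioo (Real.pi / 4 - c) (Real.pi / 4 + c), HasDerivAt f (RR q α t (f t)) t)
    (hg : ∀ t ∈ Ioo (Real.pi / 4 - c) (Real.pi / 4 + c), HasDerivAt g (RR q α t (g t)) t)
    (h : f (Real.pi / 4) = g (Real.pi / 4)) :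
    EqOn f g (Ioo (Real.pi / 4 - c) (Real.pi / 4 + c)) := by
  obtain ⟨W, hW0, hW⟩ := WW_bd hc0.le hc
  obtain ⟨K, hK⟩ : ∃ K : NNReal, (K : ℝ) = (42 + 4 * W) / q ^ 2 :=
    ⟨⟨(42 + 4 * W) / q ^ 2, by positivity⟩, rfl⟩
  refine ODE_solution_unique_of_mem_Ioo (v := fun t x => RR q α t x) (s := fun _ => univ) (K := K)
    (t₀ := Real.pi / 4) ?_ ⟨by linarith, by linarith⟩ (fun t ht => ⟨hf t ht, mem_univ _⟩)
    (fun t ht => ⟨hg t ht, mem_univ _⟩) h
  intro t ht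
  refine LipschitzOnWith.of_dist_le_mul fun x _ y _ => ?_
  rw [Real.dist_eq, Real.dist_eq, hK]
  exact RR_lip hq hq1 h2 h3 (hW t ht.1.le ht.2.le) x y

/-- radius of an interval containing `θ` -/
noncomputable def rad (θ : ℝ) : ℝ := (|θ - Real.pi / 4| + Real.pi / 4) / 2

lemma rad_pos (θ : ℝ) : 0 < rad θ := by
  unfold rad
  have := Real.pi_pos
  positivity

lemma rad_lt {θ : ℝ} (h0 : 0 < θ) (h1 : θ < Real.pi / 2) : rad θ < Real.pi / 4 := by
  have h : |θ - Real.pi / 4| < Real.pi / 4 := by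
    rw [abs_lt]
    constructor <;> linarith
  unfold rad
  linarith

lemma rad_mem {θ : ℝ} (h0 : 0 < θ) (h1 : θ < Real.pi / 2) :
    θ ∈ Ioo (Real.pi / 4 - rad θ) (Real.pi / 4 + rad θ) := by
  have h : |θ - Real.pi / 4| < Real.pi / 4 := by
    rw [abs_lt]
    constructor <;> linarith
  have h2 : |θ - Real.pi / 4| < rad θ := by
    unfold rad
    linarith
  rw [abs_lt] at h2
  exact ⟨by linarith [h2.1], by linarith [h2.2]⟩

lemma globex {q α : ℝ} (hq : 0 < q) (hq1 : q ≤ 2 / 5) (h2 : 2 ≤ α) (h3 : α ≤ 3) :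
    ∃ S : ℝ → ℝ, S (Real.pi / 4) = Real.pi / 2 ∧
      ∀ θ : ℝ, 0 < θ → θ < Real.pi / 2 → HasDerivAt S (RR q α θ (S θ)) θ := by
  have hex : ∀ c : ℝ, ∃ f : ℝ → ℝ, 0 < c → c < Real.pi / 4 → (f (Real.pi / 4) = Real.pi / 2 ∧
      ∀ t ∈ Ioo (Real.pi / 4 - c) (Real.pi / 4 + c), HasDerivAt f (RR q α t (f t)) t) := by
    intro c
    by_cases h : 0 < c ∧ c < Real.pi / 4
    · obtain ⟨f, hf⟩ := locex hq hq1 h2 h3 h.1 h.2
      exact ⟨f, fun _ _ => hf⟩
    · exact ⟨fun _ => 0, fun h' h'' => absurd ⟨h', h''⟩ h⟩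
  choose F hF using hex
  have hpi := Real.pi_pos
  refine ⟨fun θ => F (rad θ) θ, (hF _ (rad_pos _) (rad_lt (by linarith) (by linarith))).1, ?_⟩
  intro θ₀ h0 h1
  have hC0 := rad_pos θ₀
  have hC1 := rad_lt h0 h1
  have hCm := rad_mem h0 h1
  have hloc : ∀ θ ∈ Ioo (Real.pi / 4 - rad θ₀) (Real.pi / 4 + rad θ₀), F (rad θ) θ = F (rad θ₀) θ := by
    intro θ hθ
    have hθ0 : 0 < θ := by linarith [hθ.1]
    have hθ1 : θ < Real.pi / 2 := by linarith [hθ.2]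
    have hr0 := rad_pos θ
    have hr1 := rad_lt hθ0 hθ1
    have hrm := rad_mem hθ0 hθ1
    have hm0 : 0 < min (rad θ) (rad θ₀) := lt_min hr0 hC0
    have hm1 : min (rad θ) (rad θ₀) < Real.pi / 4 := (min_le_left _ _).trans_lt hr1
    refine uniq hq hq1 h2 h3 hm0 hm1 (fun t ht => ?_) (fun t ht => ?_) ?_ ?_
    · refine (hF (rad θ) hr0 hr1).2 t ⟨?_, ?_⟩
      · have := min_le_left (rad θ) (rad θ₀)
        linarith [ht.1]
      · have := min_le_left (rad θ) (rad θ₀)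
        linarith [ht.2]
    · refine (hF (rad θ₀) hC0 hC1).2 t ⟨?_, ?_⟩
      · have := min_le_right (rad θ) (rad θ₀)
        linarith [ht.1]
      · have := min_le_right (rad θ) (rad θ₀)
        linarith [ht.2]
    · rw [(hF (rad θ) hr0 hr1).1, (hF (rad θ₀) hC0 hC1).1]
    · rcases min_choice (rad θ) (rad θ₀) with h | h
      · rw [h]; exact hrm
      · rw [h]; exact hθ
  have hev : (fun θ => F (rad θ) θ) =ᶠ[𝓝 θ₀] F (rad θ₀) := by
    filter_upwards [Ioo_mem_nhds hCm.1 hCm.2] with θ hθ using hloc θ hθ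
  exact ((hF (rad θ₀) hC0 hC1).2 θ₀ hCm).congr_of_eventuallyEq hev

lemma RR_symm (q α θ x : ℝ) : RR q α (Real.pi / 2 - θ) x = RR q α θ (Real.pi - x) := by
  have h1 : WW (Real.pi / 2 - θ) = - WW θ := by
    unfold WW
    have e : 2 * (Real.pi / 2 - θ) = Real.pi - 2 * θ := by ring
    rw [e, Real.cos_pi_sub, Real.sin_pi_sub]
    ring
  unfold RR DD
  rw [h1, Real.cos_pi_sub, Real.sin_pi_sub]
  congr 1
  · ring
  · ring

lemma ex_sol {q α : ℝ} (hq : 0 < q) (hq1 : q ≤ 2 / 5) (h2 : 2 ≤ α) (h3 : α ≤ 3) :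
    ∃ S : ℝ → ℝ, Sol q α S := by
  obtain ⟨S, hS1, hS2⟩ := globex hq hq1 h2 h3
  have hpi := Real.pi_pos
  refine ⟨S, hS2, hS1, ?_⟩
  have ht : ∀ θ : ℝ, 0 < θ → θ < Real.pi / 2 →
      HasDerivAt (fun θ => Real.pi - S (Real.pi / 2 - θ)) (RR q α θ (Real.pi - S (Real.pi / 2 - θ))) θ := by
    intro θ h0 h1
    have h4 := hS2 (Real.pi / 2 - θ) (by linarith) (by linarith)
    have h5 := (h4.comp_const_sub (Real.pi / 2) θ).const_sub Real.pi
    rw [neg_neg, RR_symm] at h5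
    exact h5
  intro θ h0 h1
  have hC0 := rad_pos θ
  have hC1 := rad_lt h0 h1
  have hCm := rad_mem h0 h1
  have h6 : EqOn (fun θ => Real.pi - S (Real.pi / 2 - θ)) S
      (Ioo (Real.pi / 4 - rad θ) (Real.pi / 4 + rad θ)) := by
    refine uniq hq hq1 h2 h3 hC0 hC1 (fun t ht' => ht t ?_ ?_) (fun t ht' => hS2 t ?_ ?_) ?_
    · linarith [ht'.1]
    · linarith [ht'.2]
    · linarith [ht'.1]
    · linarith [ht'.2]
    · show Real.pi - S (Real.pi / 2 - Real.pi / 4) = S (Real.pi / 4)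
      have e : Real.pi / 2 - Real.pi / 4 = Real.pi / 4 := by ring
      rw [e, hS1]
      ring
  have h7 : Real.pi - S (Real.pi / 2 - θ) = S θ := h6 hCm
  linarith

lemma lip_alpha {q : ℝ} (hq : 0 < q) (hq1 : q ≤ 2 / 5) {θ : ℝ} (h0 : Real.pi / 4 ≤ θ)
    (h1 : θ < Real.pi / 2) : ∃ C : ℝ, 0 ≤ C ∧ ∀ (α β : ℝ) (f g : ℝ → ℝ), 2 ≤ α → α ≤ 3 →
      Sol q α f → Sol q β g → |f θ - g θ| ≤ C * |α - β| := by
  have hpi := Real.pi_pos
  have hθ0 : 0 < θ := by linarith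
  obtain ⟨W, hW0, hW⟩ := WW_bd (rad_pos θ).le (rad_lt hθ0 h1)
  have hrm := rad_mem hθ0 h1
  obtain ⟨K, hK⟩ : ∃ K : NNReal, (K : ℝ) = (42 + 4 * W) / q ^ 2 :=
    ⟨⟨(42 + 4 * W) / q ^ 2, by positivity⟩, rfl⟩
  have hKpos : (0 : ℝ) < K := by rw [hK]; positivity
  refine ⟨1 / K * (Real.exp (K * (θ - Real.pi / 4)) - 1), ?_, ?_⟩
  · have : 1 ≤ Real.exp (K * (θ - Real.pi / 4)) := by
      rw [← Real.exp_zero]
      apply Real.exp_le_exp.mpr
      apply mul_nonneg hKpos.le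
      linarith
    have h4 : 0 ≤ Real.exp (K * (θ - Real.pi / 4)) - 1 := by linarith
    positivity
  · intro α β f g h2 h3 hf hg
    have hrange : ∀ t ∈ Icc (Real.pi / 4) θ, 0 < t ∧ t < Real.pi / 2 := fun t ht =>
      ⟨by linarith [ht.1], by linarith [ht.2]⟩
    have key := dist_le_of_approx_trajectories_ODE_of_mem (v := fun t x => RR q α t x)
      (s := fun _ => univ) (K := K) (f := f) (g := g) (f' := fun t => RR q α t (f t))
      (g' := fun t => RR q β t (g t)) (a := Real.pi / 4) (b := θ) (εf := 0) (εg := |α - β|) (δ := 0)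
      ?_ ?_ ?_ ?_ (fun _ _ => mem_univ _) ?_ ?_ ?_ (fun _ _ => mem_univ _) ?_ θ ⟨h0, le_rfl⟩
    · rw [Real.dist_eq, gronwallBound_of_K_ne_0 hKpos.ne'] at key
      refine key.trans (le_of_eq ?_)
      ring
    · intro t ht
      refine LipschitzOnWith.of_dist_le_mul fun x _ y _ => ?_
      rw [Real.dist_eq, Real.dist_eq, hK]
      refine RR_lip hq hq1 h2 h3 (hW t ?_ ?_) x y
      · have := rad_pos θ
        linarith [ht.1]
      · linarith [ht.2, hrm.2]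
    · intro t ht
      obtain ⟨h5, h6⟩ := hrange t ht
      exact (hf.ode t h5 h6).continuousAt.continuousWithinAt
    · intro t ht
      obtain ⟨h5, h6⟩ := hrange t ⟨ht.1, ht.2.le⟩
      exact (hf.ode t h5 h6).hasDerivWithinAt
    · intro t _
      rw [dist_self]
    · intro t ht
      obtain ⟨h5, h6⟩ := hrange t ht
      exact (hg.ode t h5 h6).continuousAt.continuousWithinAt
    · intro t ht
      obtain ⟨h5, h6⟩ := hrange t ⟨ht.1, ht.2.le⟩
      exact (hg.ode t h5 h6).hasDerivWithinAt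
    · intro t _
      rw [Real.dist_eq, abs_sub_comm α β]
      exact RR_alpha hq hq1
    · rw [hf.mid, hg.mid, dist_self]

end CauchyAux

open CauchyAux in
theorem cauchyP : CauchyP := by
  intro q hq hq1
  have hex : ∀ α : ℝ, ∃ S : ℝ → ℝ, 2 ≤ α → α ≤ 3 → Sol q α S := by
    intro α
    by_cases h : 2 ≤ α ∧ α ≤ 3
    · obtain ⟨S, hS⟩ := ex_sol hq hq1 h.1 h.2
      exact ⟨S, fun _ _ => hS⟩
    · exact ⟨fun _ => 0, fun h' h'' => absurd ⟨h', h''⟩ h⟩
  choose S hS using hex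
  refine ⟨S, hS, ?_⟩
  have hbig : ∀ θ : ℝ, Real.pi / 4 ≤ θ → θ < Real.pi / 2 →
      ContinuousOn (fun α => S α θ) (Set.Icc 2 3) := by
    intro θ h0 h1
    obtain ⟨C, hC0, hC⟩ := lip_alpha hq hq1 h0 h1
    have hlip : LipschitzOnWith ⟨C, hC0⟩ (fun α => S α θ) (Set.Icc 2 3) := by
      refine LipschitzOnWith.of_dist_le_mul fun α hα β hβ => ?_
      rw [Real.dist_eq, Real.dist_eq]
      exact hC α β (S α) (S β) hα.1 hα.2 (hS α hα.1 hα.2) (hS β hβ.1 hβ.2)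
    exact hlip.continuousOn
  intro θ h0 h1
  rcases le_or_gt (Real.pi / 4) θ with h | h
  · exact hbig θ h h1
  · have h2 := hbig (Real.pi / 2 - θ) (by linarith) (by linarith)
    refine (continuousOn_const (c := Real.pi)).sub h2 |>.congr ?_
    intro α hα
    have h3 := (hS α hα.1 hα.2).symm θ h0 h1
    show S α θ = Real.pi - S α (Real.pi / 2 - θ)
    rw [h3]
    ring

end Pool.Agent.R271.PJ
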