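import Pool.Agent.R271.PJ.Stm

/-! PJ O2c: elementary inequalities between the barriers (helper656). -/

set_option autoImplicit false

namespace Pool.Agent.R271.PJ

namespace CmpAux

lemma poly_ineq (A B : ℝ) (hB : 0 < B) (hAB : B < A) :
    (A + B) * (A ^ 4 - B ^ 4) ≤ 8 / 5 * (A ^ 5 - B ^ 5) := by
  have h1 : 8 / 5 * (A ^ 5 - B ^ 5) - (A + B) * (A ^ 4 - B ^ 4) =
      (A - B) * ((A - B) ^ 2 * (3 * A ^ 2 + 4 * A * B + 3 * B ^ 2)) / 5 := by ring
  have hA : 0 < A := hB.trans hAB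
  have h2 : 0 ≤ (A - B) * ((A - B) ^ 2 * (3 * A ^ 2 + 4 * A * B + 3 * B ^ 2)) / 5 := by
    have : 0 < A - B := by linarith
    positivity
  linarith

lemma pow_lt (A B : ℝ) (hB : 0 < B) (hAB : B < A) (n : ℕ) (hn : n ≠ 0) : 0 < A ^ n - B ^ n := by
  have := pow_lt_pow_left₀ hAB hB.le hn
  linarith

lemma frac_le (A B k : ℝ) (hB : 0 < B) (hAB : B < A) (hk : 8 / 5 ≤ 2 * k) :
    (B ^ 2 * A ^ 2) * (A + B) / (A ^ 5 - B ^ 5) ≤
      k * (2 * (B ^ 2) * (A ^ 2) / (A ^ 4 - B ^ 4)) := by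
  have h5 := pow_lt A B hB hAB 5 (by norm_num)
  have h4 := pow_lt A B hB hAB 4 (by norm_num)
  have hA : 0 < A := hB.trans hAB
  have hp := poly_ineq A B hB hAB
  rw [← mul_div_assoc, div_le_div_iff₀ h5 h4]
  have h6 : (A + B) * (A ^ 4 - B ^ 4) ≤ 2 * k * (A ^ 5 - B ^ 5) :=
    hp.trans (mul_le_mul_of_nonneg_right hk h5.le)
  have h7 : 0 < B ^ 2 * A ^ 2 := by positivity
  calc B ^ 2 * A ^ 2 * (A + B) * (A ^ 4 - B ^ 4)
      = (B ^ 2 * A ^ 2) * ((A + B) * (A ^ 4 - B ^ 4)) := by ring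
    _ ≤ (B ^ 2 * A ^ 2) * (2 * k * (A ^ 5 - B ^ 5)) := mul_le_mul_of_nonneg_left h6 h7.le
    _ = k * (2 * B ^ 2 * A ^ 2) * (A ^ 5 - B ^ 5) := by ring

end CmpAux

theorem cmpP : CmpP := by
  intro θ h0 h1
  have hpi := Real.pi_pos
  have ht : 0 < Real.sin θ := Real.sin_pos_of_pos_of_lt_pi h0 (by linarith)
  have hc : 0 < Real.cos θ := Real.cos_pos_of_mem_Ioo ⟨by linarith, by linarith⟩
  have htc : Real.sin θ < Real.cos θ := by
    rw [← Real.cos_pi_div_two_sub]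
    exact Real.cos_lt_cos_of_nonneg_of_le_pi_div_two h0.le (by linarith) (by linarith)
  set A := √(Real.cos θ) with hA
  set B := √(Real.sin θ) with hB
  have hB0 : 0 < B := Real.sqrt_pos.2 ht
  have hAB : B < A := Real.sqrt_lt_sqrt ht.le htc
  have hA0 : 0 < A := hB0.trans hAB
  have hc2 : Real.cos θ = A ^ 2 := (Real.sq_sqrt hc.le).symm
  have ht2 : Real.sin θ = B ^ 2 := (Real.sq_sqrt ht.le).symm
  have h5 := CmpAux.pow_lt A B hB0 hAB 5 (by norm_num)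
  have hsb : sb θ = Real.arctan ((B ^ 2 * A ^ 2) * (A + B) / (A ^ 5 - B ^ 5)) := by
    unfold sb
    rw [← hA, ← hB, hc2, ht2]
    congr 2
    ring
  have htan : Real.tan (2 * θ) = 2 * (B ^ 2) * (A ^ 2) / (A ^ 4 - B ^ 4) := by
    rw [Real.tan_eq_sin_div_cos, Real.sin_two_mul, Real.cos_two_mul']
    rw [hc2, ht2]
    congr 1
    ring
  refine ⟨?_, ?_, ?_⟩
  · rw [hsb]
    exact Real.arctan_nonneg.2 (by positivity)
  · have h2 : Real.arctan (Real.tan (2 * θ)) = 2 * θ :=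
      Real.arctan_tan (by linarith) (by linarith)
    rw [← h2, hsb, htan]
    apply Real.arctan_strictMono.monotone
    have := CmpAux.frac_le A B 1 hB0 hAB (by norm_num)
    rwa [one_mul] at this
  · rw [hsb, htan]
    apply Real.arctan_strictMono.monotone
    exact CmpAux.frac_le A B (20 / 21) hB0 hAB (by norm_num)

end Pool.Agent.R271.PJ
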