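import Pool.Agent.R271.PJ.Stm

set_option autoImplicit false

open MeasureTheory Filter Topology

namespace Pool.Agent.R271.PJ

namespace ContAux

theorem cont_XX : Continuous XX := by
  unfold XX
  refine continuous_finsetSum _ fun i _ => ?_
  split_ifs
  · exact ((EuclideanSpace.proj i : E 10 →L[ℝ] ℝ).continuous).pow 2
  · exact continuous_const

theorem cont_YY : Continuous YY := by
  unfold YY
  refine continuous_finsetSum _ fun i _ => ?_
  split_ifs
  · exact continuous_const
  · exact ((EuclideanSpace.proj i : E 10 →L[ℝ] ℝ).continuous).pow 2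

theorem XX_nonneg (z : E 10) : 0 ≤ XX z := by
  unfold XX
  exact Finset.sum_nonneg fun i _ => by split_ifs <;> positivity

theorem YY_nonneg (z : E 10) : 0 ≤ YY z := by
  unfold YY
  exact Finset.sum_nonneg fun i _ => by split_ifs <;> positivity

theorem cont_rho : Continuous rho := by unfold rho; exact cont_XX.sqrt

theorem cont_sig : Continuous sig := by unfold sig; exact cont_YY.sqrt

theorem rho_nonneg (z : E 10) : 0 ≤ rho z := Real.sqrt_nonneg _

theorem sig_nonneg (z : E 10) : 0 ≤ sig z := Real.sqrt_nonneg _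

theorem rho_sq (z : E 10) : rho z ^ 2 = XX z := Real.sq_sqrt (XX_nonneg z)

theorem sig_sq (z : E 10) : sig z ^ 2 = YY z := Real.sq_sqrt (YY_nonneg z)

theorem abs_le_rho {k : Fin 10} (hk : (k : ℕ) < 5) (z : E 10) : |z k| ≤ rho z := by
  apply Real.abs_le_sqrt
  unfold XX
  have h := Finset.single_le_sum (f := fun i : Fin 10 => if (i : ℕ) < 5 then z i ^ 2 else 0)
    (fun i _ => by split_ifs <;> positivity) (Finset.mem_univ k)
  simp only [hk, if_true] at h
  exact h

theorem abs_le_sig {k : Fin 10} (hk : ¬ (k : ℕ) < 5) (z : E 10) : |z k| ≤ sig z := by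
  apply Real.abs_le_sqrt
  unfold YY
  have h := Finset.single_le_sum (f := fun i : Fin 10 => if (i : ℕ) < 5 then 0 else z i ^ 2)
    (fun i _ => by split_ifs <;> positivity) (Finset.mem_univ k)
  simp only [hk, if_false] at h
  exact h

theorem ne_of_zero {z : E 10} (h1 : rho z = 0) (h2 : sig z = 0) : z = 0 := by
  ext k
  by_cases hk : (k : ℕ) < 5
  · have := abs_le_rho hk z
    rw [h1] at this
    exact abs_nonpos_iff.1 this
  · have := abs_le_sig hk z
    rw [h2] at this
    exact abs_nonpos_iff.1 this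

theorem th_mem (z : E 10) : th z ∈ Set.Icc 0 (Real.pi / 2) := by
  unfold th
  exact ⟨Complex.arg_nonneg_iff.2 (sig_nonneg z),
    Complex.arg_le_pi_div_two_iff.2 (Or.inl (rho_nonneg z))⟩

theorem th_cont {z : E 10} (hz : z ≠ 0) : ContinuousAt th z := by
  have h1 : Continuous (fun z : E 10 => (⟨rho z, sig z⟩ : ℂ)) := by
    have e : (fun z : E 10 => (⟨rho z, sig z⟩ : ℂ)) =
        fun z => ((rho z : ℂ) + (sig z : ℂ) * Complex.I) := by
      funext z
      exact Complex.mk_eq_add_mul_I _ _
    rw [e]
    exact (Complex.continuous_ofReal.comp cont_rho).add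
      ((Complex.continuous_ofReal.comp cont_sig).mul continuous_const)
  have h2 : (⟨rho z, sig z⟩ : ℂ) ∈ Complex.slitPlane := by
    rw [Complex.mem_slitPlane_iff]
    by_cases h3 : rho z = 0
    · right
      intro h4
      exact hz (ne_of_zero h3 h4)
    · left
      exact lt_of_le_of_ne (rho_nonneg z) (Ne.symm h3)
  exact ContinuousAt.comp (f := fun z : E 10 => (⟨rho z, sig z⟩ : ℂ)) (g := Complex.arg)
    (Complex.continuousAt_arg h2) h1.continuousAt

theorem th_one {z : E 10} (hz : z ≠ 0) (h : rho z = 0) : th z = Real.pi / 2 := by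
  unfold th
  rw [Complex.arg_eq_pi_div_two_iff]
  exact ⟨h, lt_of_le_of_ne (sig_nonneg z) (fun h2 => hz (ne_of_zero h h2.symm))⟩

theorem th_zero {z : E 10} (h : sig z = 0) : th z = 0 := by
  unfold th
  rw [Complex.arg_eq_zero_iff]
  exact ⟨rho_nonneg z, h⟩

/-- powers of the norm times bounded functions -/
theorem L1 {β C : ℝ} (hβ : 0 < β) {f : E 10 → ℝ} (hf : ∀ z, z ≠ 0 → ContinuousAt f z)
    (hb : ∀ z, |f z| ≤ C) : Continuous (fun z => ‖z‖ ^ β * f z) := by
  have hn : Continuous (fun z : E 10 => ‖z‖ ^ β) :=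
    continuous_norm.rpow_const (fun _ => Or.inr hβ.le)
  rw [continuous_iff_continuousAt]
  intro z
  by_cases hz : z = 0
  · subst hz
    show Tendsto (fun z : E 10 => ‖z‖ ^ β * f z) (𝓝 0) (𝓝 (‖(0 : E 10)‖ ^ β * f 0))
    have e : ‖(0 : E 10)‖ ^ β * f 0 = 0 := by
      rw [norm_zero, Real.zero_rpow hβ.ne', zero_mul]
    rw [e]
    have h1 : Tendsto (fun z : E 10 => ‖z‖ ^ β * C) (𝓝 0) (𝓝 0) := by
      have h2 := (hn.tendsto 0).mul_const C
      rwa [norm_zero, Real.zero_rpow hβ.ne', zero_mul] at h2
    refine squeeze_zero_norm (fun z => ?_) h1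
    rw [norm_mul, Real.norm_eq_abs, Real.norm_eq_abs, abs_of_nonneg (by positivity)]
    exact mul_le_mul_of_nonneg_left (hb z) (by positivity)
  · exact hn.continuousAt.mul (hf z hz)

/-- quotients which may degenerate -/
theorem L2 {c r v : E 10 → ℝ} {z : E 10} (hc : ContinuousAt c z) (hr : Continuous r)
    (hv : Continuous v) (hvr : ∀ z, |v z| ≤ r z) (h0 : r z = 0 → c z = 0) :
    ContinuousAt (fun z => c z * (v z / r z)) z := by
  by_cases h : r z = 0
  · show Tendsto (fun z => c z * (v z / r z)) (𝓝 z) (𝓝 (c z * (v z / r z)))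
    have e : c z * (v z / r z) = 0 := by rw [h0 h, zero_mul]
    rw [e]
    have h1 : Tendsto (fun z => |c z|) (𝓝 z) (𝓝 0) := by
      have h4 : Tendsto (fun z => |c z|) (𝓝 z) (𝓝 |c z|) := hc.abs
      have e2 : |c z| = 0 := by rw [h0 h, abs_zero]
      rwa [e2] at h4
    refine squeeze_zero_norm (fun y => ?_) h1
    rw [norm_mul, Real.norm_eq_abs, Real.norm_eq_abs, abs_div]
    have h2 : |v y| / |r y| ≤ 1 := by
      have h3 : |v y| ≤ |r y| := (hvr y).trans (le_abs_self _)
      exact div_le_one_of_le₀ h3 (abs_nonneg _)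
    exact mul_le_of_le_one_right (abs_nonneg _) h2
  · exact hc.mul (hv.continuousAt.div hr.continuousAt h)

theorem L2b {c r v : ℝ} (hvr : |v| ≤ r) (hc : |c| ≤ 1) : |c * (v / r)| ≤ 1 := by
  rw [abs_mul, abs_div]
  have h3 : |v| ≤ |r| := hvr.trans (le_abs_self _)
  have h2 : |v| / |r| ≤ 1 := div_le_one_of_le₀ h3 (abs_nonneg _)
  exact mul_le_one₀ hc (by positivity) h2

end ContAux

open ContAux in
theorem contP : ContP := by
  intro q α s G hq0 hq hα1 hα2 hP
  have hpi : (0 : ℝ) ≤ Real.pi / 2 := by positivity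
  -- continuity of compositions with th
  have hcomp : ∀ F : ℝ → ℝ, ContinuousOn F (Set.Icc 0 (Real.pi / 2)) → ∀ z : E 10, z ≠ 0 →
      ContinuousAt (fun z => F (th z)) z := by
    intro F hF z hz
    have h1 : Continuous (Set.IccExtend hpi ((Set.Icc 0 (Real.pi / 2)).restrict F)) :=
      (continuousOn_iff_continuous_restrict.1 hF).Icc_extend'
    have h2 : (fun z => F (th z)) =
        fun z => Set.IccExtend hpi ((Set.Icc 0 (Real.pi / 2)).restrict F) (th z) := by
      funext z
      rw [Set.IccExtend_of_mem hpi _ (th_mem z)]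
      rfl
    rw [h2]
    exact h1.continuousAt.comp (th_cont hz)
  obtain ⟨C, hC⟩ := isCompact_Icc.exists_bound_of_continuousOn hP.contG
  have hG0 : ∀ z, 0 < G (th z) := fun z => hP.posG _ (th_mem z)
  have hGC : ∀ z, |G (th z)| ≤ C := fun z => hC _ (th_mem z)
  have hGcont : ∀ z : E 10, z ≠ 0 → ContinuousAt (fun z => G (th z)) z := hcomp G hP.contG
  have hscont : ∀ z : E 10, z ≠ 0 → ContinuousAt (fun z => s (th z)) z := hcomp s hP.conts
  -- the direction field
  have heec : ∀ k : Fin 10, ∀ z : E 10, z ≠ 0 → ContinuousAt (ee s k) z := by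
    intro k z hz
    have hk0 : Continuous (fun z : E 10 => z k) := (EuclideanSpace.proj k : E 10 →L[ℝ] ℝ).continuous
    by_cases hk : (k : ℕ) < 5
    · have e : ee s k = fun z => Real.cos (s (th z) - th z) * (z k / rho z) := by
        funext z
        unfold ee
        rw [if_pos hk]
      rw [e]
      refine L2 (Real.continuous_cos.continuousAt.comp ((hscont z hz).sub (th_cont hz))) cont_rho
        hk0 (abs_le_rho hk) (fun h => ?_)
      show Real.cos (s (th z) - th z) = 0
      rw [th_one hz h, hP.s1]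
      have : Real.pi - Real.pi / 2 = Real.pi / 2 := by ring
      rw [this, Real.cos_pi_div_two]
    · have e : ee s k = fun z => -Real.sin (s (th z) - th z) * (z k / sig z) := by
        funext z
        unfold ee
        rw [if_neg hk]
      rw [e]
      refine L2 (Real.continuous_sin.continuousAt.comp ((hscont z hz).sub (th_cont hz))).neg
        cont_sig hk0 (abs_le_sig hk) (fun h => ?_)
      show -Real.sin (s (th z) - th z) = 0
      rw [th_zero h, hP.s0, sub_zero, Real.sin_zero, neg_zero]
  have heeb : ∀ (k : Fin 10) (z : E 10), |ee s k z| ≤ 1 := by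
    intro k z
    unfold ee
    split_ifs with hk
    · exact L2b (abs_le_rho hk z) (Real.abs_cos_le_one _)
    · exact L2b (abs_le_sig hk z) (by rw [abs_neg]; exact Real.abs_sin_le_one _)
  refine ⟨?_, ?_, ?_, ?_⟩
  · -- u
    refine L1 (C := C / α) (by linarith) (f := fun z => G (th z) * Real.cos (s (th z)) / α)
      (fun z hz => ?_) (fun z => ?_)
    · exact ((hGcont z hz).mul (Real.continuous_cos.continuousAt.comp (hscont z hz))).div_const α
    · rw [abs_div, abs_of_pos (show 0 < α by linarith), abs_mul]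
      have h1 : |G (th z)| * |Real.cos (s (th z))| ≤ C * 1 :=
        mul_le_mul (hGC z) (Real.abs_cos_le_one _) (abs_nonneg _)
          ((abs_nonneg _).trans (hGC z))
      rw [mul_one] at h1
      have h2 : 0 < α := by linarith
      gcongr
  · intro k
    have h1 := L1 (C := C) (β := α - 1) (by linarith) (f := fun z => G (th z) * ee s k z)
      (fun z hz => (hGcont z hz).mul (heec k z hz)) (fun z => by
        rw [abs_mul]
        have := mul_le_mul (hGC z) (heeb k z) (abs_nonneg _) ((abs_nonneg _).trans (hGC z))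
        rwa [mul_one] at this)
    refine h1.congr fun z => ?_
    unfold Du
    ring
  · intro k
    have h1 := L1 (C := C ^ q) (β := (α - 1) * q) (mul_pos (by linarith) hq0)
      (f := fun z => (G (th z)) ^ q * ee s k z)
      (fun z hz => ((hGcont z hz).rpow_const (Or.inr hq0.le)).mul (heec k z hz)) (fun z => by
        rw [abs_mul, abs_of_nonneg (Real.rpow_nonneg (hG0 z).le q)]
        have h2 : G (th z) ^ q ≤ C ^ q :=
          Real.rpow_le_rpow (hG0 z).le ((le_abs_self _).trans (hGC z)) hq0.le
        have := mul_le_mul h2 (heeb k z) (abs_nonneg _)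
          ((Real.rpow_nonneg (hG0 z).le q).trans h2)
        rwa [mul_one] at this)
    refine h1.congr fun z => ?_
    unfold Au
    ring
  · intro z hz
    set δ := s (th z) - th z with hδ
    have h1 : ∑ k, (ee s k z) ^ 2 = Real.cos δ ^ 2 * (XX z / rho z ^ 2) +
        Real.sin δ ^ 2 * (YY z / sig z ^ 2) := by
      unfold XX YY
      rw [Finset.sum_div, Finset.sum_div, Finset.mul_sum, Finset.mul_sum,
        ← Finset.sum_add_distrib]
      refine Finset.sum_congr rfl fun k _ => ?_
      unfold ee
      split_ifs with hk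
      · rw [mul_pow, div_pow]
        ring
      · rw [mul_pow, div_pow]
        ring
    have h2 : Real.cos δ ^ 2 * (XX z / rho z ^ 2) = Real.cos δ ^ 2 := by
      by_cases h : rho z = 0
      · have : Real.cos δ = 0 := by
          rw [hδ, th_one hz h, hP.s1]
          have : Real.pi - Real.pi / 2 = Real.pi / 2 := by ring
          rw [this, Real.cos_pi_div_two]
        rw [this]
        ring
      · rw [← rho_sq, div_self (pow_ne_zero 2 h), mul_one]
    have h3 : Real.sin δ ^ 2 * (YY z / sig z ^ 2) = Real.sin δ ^ 2 := by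
      by_cases h : sig z = 0
      · have : Real.sin δ = 0 := by
          rw [hδ, th_zero h, hP.s0, sub_zero, Real.sin_zero]
        rw [this]
        ring
      · rw [← sig_sq, div_self (pow_ne_zero 2 h), mul_one]
    rw [h1, h2, h3]
    exact Real.cos_sq_add_sin_sq δ

end Pool.Agent.R271.PJ
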