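import Pool.Agent.R271.PJ.Stm

set_option autoImplicit false

open MeasureTheory

namespace Pool.Agent.R271.PJ

namespace CutAux

/-- the linear identification -/
noncomputable def eL (d : ℕ) : (Fin d → ℝ) ≃L[ℝ] E d := (EuclideanSpace.equiv (Fin d) ℝ).symm

theorem eL_apply {d : ℕ} (y : Fin d → ℝ) (i : Fin d) : (eL d y) i = y i := rfl

theorem eL_single {d : ℕ} (k : Fin d) : eL d (Pi.single k 1) = unit k := by
  ext i
  rw [eL_apply]
  simp [unit, Pi.single_apply]

theorem integral_eL {d : ℕ} (G : E d → ℝ) : ∫ x, G x = ∫ y : Fin d → ℝ, G (eL d y) := by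
  have h := (EuclideanSpace.volume_preserving_symm_measurableEquiv_toLp (Fin d)).symm
  have h2 := h.integral_comp' (g := G)
  rw [← h2]
  rfl

theorem abs_le_norm (y : Fin 10 → ℝ) (i : Fin 10) : |y i| ≤ ‖eL 10 y‖ :=
  PiLp.norm_apply_le (eL 10 y) i

/-- the divergence theorem for test functions vanishing near the two subspaces -/
theorem lemA (F : Fin 10 → E 10 → ℝ) (F' : Fin 10 → E 10 → (E 10 →L[ℝ] ℝ)) (K : E 10 → ℝ)
    (hc : ∀ k, Continuous (F k)) (hK : Continuous K)
    (hd : ∀ z : E 10, 0 < XX z → 0 < YY z →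
      (∀ k, HasFDerivAt (F k) (F' k z) z) ∧ ∑ k, F' k z (unit k) = K z)
    (φ : E 10 → ℝ) (hφ : ContDiff ℝ (⊤ : ℕ∞) φ) (hs : HasCompactSupport φ)
    (hz0 : ∀ z, ¬ (0 < XX z ∧ 0 < YY z) → φ =ᶠ[nhds z] fun _ => 0) :
    ∫ x, ((∑ k, F k x * fderiv ℝ φ x (unit k)) + K x * φ x) = 0 := by
  classical
  obtain ⟨R, hR0, hR⟩ : ∃ R : ℝ, 0 < R ∧ tsupport φ ⊆ Metric.ball 0 R :=
    hs.isCompact.isBounded.subset_ball_lt 0 0
  have hz : ∀ x : E 10, R ≤ ‖x‖ → x ∉ tsupport φ := by
    intro x hx hmem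
    have := hR hmem
    rw [mem_ball_zero_iff] at this
    exact absurd hx (not_le.mpr this)
  have hφ0 : ∀ x : E 10, R ≤ ‖x‖ → φ x = 0 := fun x hx =>
    image_eq_zero_of_notMem_tsupport (hz x hx)
  have hdφ0 : ∀ x : E 10, R ≤ ‖x‖ → fderiv ℝ φ x = 0 := by
    intro x hx
    by_contra hne
    exact hz x hx (support_fderiv_subset ℝ hne)
  have hφd : ∀ x, HasFDerivAt φ (fderiv ℝ φ x) x := fun x =>
    ((hφ.differentiable (by simp)) x).hasFDerivAt
  have hdc : Continuous (fderiv ℝ φ) := hφ.continuous_fderiv (by simp)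
  have hnorm := abs_le_norm
  rw [integral_eL]
  set a : Fin 10 → ℝ := fun _ => -R with ha
  set b : Fin 10 → ℝ := fun _ => R with hb
  have hle : a ≤ b := fun _ => by simp only [ha, hb]; linarith
  have hout : ∀ y : Fin 10 → ℝ, y ∉ Set.Icc a b →
      (∑ k, F k (eL 10 y) * fderiv ℝ φ (eL 10 y) (unit k)) + K (eL 10 y) * φ (eL 10 y) = 0 := by
    intro y hy
    have : R ≤ ‖eL 10 y‖ := by
      by_contra hcon
      apply hy
      push Not at hcon
      constructor
      · intro i
        have := hnorm y i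
        have h2 := neg_abs_le (y i)
        simp only [ha]; linarith
      · intro i
        have := hnorm y i
        have h2 := le_abs_self (y i)
        simp only [hb]; linarith
    simp [hdφ0 _ this, hφ0 _ this]
  rw [← setIntegral_eq_integral_of_forall_compl_eq_zero hout]
  set D : Fin 10 → E 10 → (E 10 →L[ℝ] ℝ) := fun k z =>
    if 0 < XX z ∧ 0 < YY z then (φ z) • F' k z + (F k z) • fderiv ℝ φ z else 0 with hD0
  have hDd : ∀ k z, HasFDerivAt (fun z => φ z * F k z) (D k z) z := by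
    intro k z
    by_cases hg : 0 < XX z ∧ 0 < YY z
    · have h1 := (hφd z).mul ((hd z hg.1 hg.2).1 k)
      rw [hD0]
      simp only [hg, if_true, and_self]
      exact h1
    · have h1 : (fun z => φ z * F k z) =ᶠ[nhds z] fun _ => (0 : ℝ) := by
        filter_upwards [hz0 z hg] with w hw
        rw [hw, zero_mul]
      rw [hD0]
      simp only [hg, if_false]
      exact (hasFDerivAt_const (0 : ℝ) z).congr_of_eventuallyEq h1
  have hDs : ∀ z, ∑ k, D k z (unit k) =
      (∑ k, F k z * fderiv ℝ φ z (unit k)) + K z * φ z := by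
    intro z
    by_cases hg : 0 < XX z ∧ 0 < YY z
    · rw [hD0]
      simp only [hg, if_true, and_self]
      rw [← (hd z hg.1 hg.2).2, Finset.sum_mul, ← Finset.sum_add_distrib]
      refine Finset.sum_congr rfl fun k _ => ?_
      simp only [ContinuousLinearMap.add_apply, ContinuousLinearMap.smul_apply, smul_eq_mul]
      ring
    · have h1 : φ z = 0 := (hz0 z hg).self_of_nhds
      have h2 : fderiv ℝ φ z = 0 := by
        rw [(hz0 z hg).fderiv_eq]
        simp
      rw [hD0]
      simp only [hg, if_false]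
      simp [h1, h2]
  have hkey := integral_divergence_of_hasFDerivAt_off_countable' a b hle
    (fun k y => φ (eL 10 y) * F k (eL 10 y))
    (fun k y => (D k (eL 10 y)).comp (eL 10 : (Fin 10 → ℝ) →L[ℝ] E 10))
    ∅ Set.countable_empty
    (fun k => ((hφ.continuous.comp (eL 10).continuous).mul
      ((hc k).comp (eL 10).continuous)).continuousOn)
    (by
      intro y _ k
      exact (hDd k (eL 10 y)).comp y (eL 10).hasFDerivAt)
  have hD : ∀ y : Fin 10 → ℝ,
      (∑ k, ((D k (eL 10 y)).comp (eL 10 : (Fin 10 → ℝ) →L[ℝ] E 10)) (Pi.single k 1)) =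
      (∑ k, F k (eL 10 y) * fderiv ℝ φ (eL 10 y) (unit k)) + K (eL 10 y) * φ (eL 10 y) := by
    intro y
    rw [← hDs]
    refine Finset.sum_congr rfl fun k _ => ?_
    rw [← eL_single]
    rfl
  have hcont : Continuous (fun y : Fin 10 → ℝ =>
      (∑ k, F k (eL 10 y) * fderiv ℝ φ (eL 10 y) (unit k)) + K (eL 10 y) * φ (eL 10 y)) := by
    refine Continuous.add (continuous_finsetSum _ (fun k _ => ?_)) ?_
    · exact ((hc k).comp (eL 10).continuous).mul
        ((hdc.comp (eL 10).continuous).clm_apply continuous_const)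
    · exact (hK.comp (eL 10).continuous).mul (hφ.continuous.comp (eL 10).continuous)
  have hkey2 := hkey (by
    simp only [hD]
    exact hcont.continuousOn.integrableOn_compact isCompact_Icc)
  simp only [hD] at hkey2
  rw [hkey2]
  apply Finset.sum_eq_zero
  intro i _
  have e1 : ∀ (x : Fin 9 → ℝ) (c : ℝ), |c| = R →
      φ (eL 10 (i.insertNth c x)) * F i (eL 10 (i.insertNth c x)) = 0 := by
    intro x c hcR
    have h1 := hnorm (i.insertNth c x) i
    rw [Fin.insertNth_apply_same, hcR] at h1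
    rw [hφ0 _ h1, zero_mul]
  have e2 : ∀ x : Fin 9 → ℝ,
      φ (eL 10 (i.insertNth (b i) x)) * F i (eL 10 (i.insertNth (b i) x)) = 0 :=
    fun x => e1 x (b i) (by simp only [hb]; exact abs_of_pos hR0)
  have e3 : ∀ x : Fin 9 → ℝ,
      φ (eL 10 (i.insertNth (a i) x)) * F i (eL 10 (i.insertNth (a i) x)) = 0 :=
    fun x => e1 x (a i) (by simp only [ha, abs_neg]; exact abs_of_pos hR0)
  simp only [e2, e3, integral_zero, sub_zero]

/-! ### the cut-off -/

/-- a bump function -/
theorem exists_bump : ∃ b : ℝ → ℝ, ContDiff ℝ (⊤ : ℕ∞) b ∧ (∀ t, |t| ≤ 1 → b t = 1) ∧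
    (∀ t, 2 ≤ |t| → b t = 0) ∧ (∀ t, 0 ≤ b t) ∧ (∀ t, b t ≤ 1) ∧
    ∃ C : NNReal, LipschitzWith C b := by
  let f : ContDiffBump (0 : ℝ) := ⟨1, 2, by norm_num, by norm_num⟩
  refine ⟨f, f.contDiff, ?_, ?_, fun t => f.nonneg, fun t => f.le_one, ?_⟩
  · intro t ht
    apply f.one_of_mem_closedBall
    rw [mem_closedBall_zero_iff]
    exact ht
  · intro t ht
    apply f.zero_of_le_dist
    rw [dist_zero_right]
    exact ht
  · exact ContDiff.lipschitzWith_of_hasCompactSupport f.hasCompactSupport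
      (f.contDiff (n := 1)) (by norm_num)

theorem prod_lip {a b c d : ℝ} (ha : 0 ≤ a) (ha1 : a ≤ 1) (hd : 0 ≤ d) (hd1 : d ≤ 1) :
    |a * b - c * d| ≤ |b - d| + |a - c| := by
  have e : a * b - c * d = a * (b - d) + d * (a - c) := by ring
  rw [e]
  refine (abs_add_le _ _).trans ?_
  rw [abs_mul, abs_mul, abs_of_nonneg ha, abs_of_nonneg hd]
  exact add_le_add (mul_le_of_le_one_left (abs_nonneg _) ha1)
    (mul_le_of_le_one_left (abs_nonneg _) hd1)

/-- the cut-off function -/
noncomputable def eta (b : ℝ → ℝ) (ε : ℝ) (z : E 10) : ℝ :=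
  (1 - b (z 0 / ε) * b (z 1 / ε)) * (1 - b (z 5 / ε) * b (z 6 / ε))

theorem eta_smooth {b : ℝ → ℝ} (hb : ContDiff ℝ (⊤ : ℕ∞) b) (ε : ℝ) :
    ContDiff ℝ (⊤ : ℕ∞) (eta b ε) := by
  have h : ∀ i : Fin 10, ContDiff ℝ (⊤ : ℕ∞) (fun z : E 10 => b (z i / ε)) := by
    intro i
    have h1 : ContDiff ℝ (⊤ : ℕ∞) (fun z : E 10 => z i) :=
      (EuclideanSpace.proj i : E 10 →L[ℝ] ℝ).contDiff
    exact hb.comp (h1.div_const ε)
  exact (contDiff_const.sub ((h 0).mul (h 1))).mul (contDiff_const.sub ((h 5).mul (h 6)))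

theorem eta_lip {b : ℝ → ℝ} {C : NNReal} (hC : LipschitzWith C b) (h0 : ∀ t, 0 ≤ b t)
    (h1 : ∀ t, b t ≤ 1) {ε : ℝ} (hε : 0 < ε) (z w : E 10) :
    |eta b ε z - eta b ε w| ≤ 4 * (C * (‖z - w‖ / ε)) := by
  have hp : ∀ i : Fin 10, |b (z i / ε) - b (w i / ε)| ≤ C * (‖z - w‖ / ε) := by
    intro i
    have h2 := hC.dist_le_mul (z i / ε) (w i / ε)
    rw [Real.dist_eq, Real.dist_eq, ← sub_div, abs_div, abs_of_pos hε] at h2
    refine h2.trans (mul_le_mul_of_nonneg_left ?_ C.2)
    refine div_le_div_of_nonneg_right ?_ hε.le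
    exact PiLp.norm_apply_le (z - w) i
  have hq : ∀ i j : Fin 10, |b (z i / ε) * b (z j / ε) - b (w i / ε) * b (w j / ε)| ≤
      2 * (C * (‖z - w‖ / ε)) := by
    intro i j
    have := prod_lip (h0 (z i / ε)) (h1 (z i / ε)) (h0 (w j / ε)) (h1 (w j / ε))
      (b := b (z j / ε)) (c := b (w i / ε))
    linarith [hp i, hp j]
  have hm0 : ∀ (z : E 10) (i j : Fin 10), 0 ≤ 1 - b (z i / ε) * b (z j / ε) := by
    intro z i j
    have := mul_le_one₀ (h1 (z i / ε)) (h0 (z j / ε)) (h1 (z j / ε))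
    linarith
  have hm1 : ∀ (z : E 10) (i j : Fin 10), 1 - b (z i / ε) * b (z j / ε) ≤ 1 := by
    intro z i j
    have := mul_nonneg (h0 (z i / ε)) (h0 (z j / ε))
    linarith
  unfold eta
  refine (prod_lip (hm0 z 0 1) (hm1 z 0 1) (hm0 w 5 6) (hm1 w 5 6)).trans ?_
  have e1 : (1 - b (z 5 / ε) * b (z 6 / ε)) - (1 - b (w 5 / ε) * b (w 6 / ε)) =
      -(b (z 5 / ε) * b (z 6 / ε) - b (w 5 / ε) * b (w 6 / ε)) := by ring
  have e2 : (1 - b (z 0 / ε) * b (z 1 / ε)) - (1 - b (w 0 / ε) * b (w 1 / ε)) =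
      -(b (z 0 / ε) * b (z 1 / ε) - b (w 0 / ε) * b (w 1 / ε)) := by ring
  rw [e1, e2, abs_neg, abs_neg]
  linarith [hq 5 6, hq 0 1]

theorem eta_fderiv {b : ℝ → ℝ} {C : NNReal} (hC : LipschitzWith C b) (h0 : ∀ t, 0 ≤ b t)
    (h1 : ∀ t, b t ≤ 1) {ε : ℝ} (hε : 0 < ε) (z : E 10) (k : Fin 10) :
    |fderiv ℝ (eta b ε) z (unit k)| ≤ 4 * C / ε := by
  have hl : LipschitzWith (Real.toNNReal (4 * C / ε)) (eta b ε) := by
    refine LipschitzWith.of_dist_le_mul fun x y => ?_
    rw [Real.dist_eq, dist_eq_norm, Real.coe_toNNReal _ (by positivity)]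
    refine (eta_lip hC h0 h1 hε x y).trans (le_of_eq ?_)
    ring
  have h2 := norm_fderiv_le_of_lipschitz ℝ (x₀ := z) hl
  rw [Real.coe_toNNReal _ (by positivity)] at h2
  have h3 := (fderiv ℝ (eta b ε) z).le_opNorm (unit k)
  have h4 : ‖(unit k : E 10)‖ = 1 := by
    unfold unit
    simp
  rw [h4, mul_one, Real.norm_eq_abs] at h3
  exact h3.trans h2

theorem eta_zero {b : ℝ → ℝ} (hb1 : ∀ t, |t| ≤ 1 → b t = 1) {ε : ℝ} (hε : 0 < ε) (z : E 10)
    (hz : ¬ (0 < XX z ∧ 0 < YY z)) : eta b ε =ᶠ[nhds z] fun _ => 0 := by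
  have hnb : ∀ i : Fin 10, z i = 0 → ∀ᶠ w : E 10 in nhds z, b (w i / ε) = 1 := by
    intro i hi
    have hc : Continuous (fun w : E 10 => |w i / ε|) := by fun_prop
    have h1 : ∀ᶠ w : E 10 in nhds z, |w i / ε| < 1 := by
      refine hc.continuousAt.eventually_lt continuousAt_const ?_
      rw [hi]
      simp
    filter_upwards [h1] with w hw
    exact hb1 _ hw.le
  have hX : ∀ i : Fin 10, (i : ℕ) < 5 → z i ^ 2 ≤ XX z := by
    intro i hi
    unfold XX
    have := Finset.single_le_sum (f := fun i : Fin 10 => if (i : ℕ) < 5 then z i ^ 2 else 0)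
      (fun j _ => by
        split_ifs
        · exact sq_nonneg _
        · exact le_rfl) (Finset.mem_univ i)
    simpa [hi] using this
  have hY : ∀ i : Fin 10, ¬ (i : ℕ) < 5 → z i ^ 2 ≤ YY z := by
    intro i hi
    unfold YY
    have := Finset.single_le_sum (f := fun i : Fin 10 => if (i : ℕ) < 5 then 0 else z i ^ 2)
      (fun j _ => by
        split_ifs
        · exact le_rfl
        · exact sq_nonneg _) (Finset.mem_univ i)
    simpa [hi] using this
  have hsq : ∀ x : ℝ, x ^ 2 ≤ 0 → x = 0 := fun x hx => by nlinarith [sq_nonneg x, pow_eq_zero_iff (two_ne_zero) (a := x) |>.1 (le_antisymm hx (sq_nonneg x))]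
  rcases not_and_or.1 hz with h | h
  · have hX0 : XX z ≤ 0 := not_lt.1 h
    filter_upwards [hnb 0 (hsq _ ((hX 0 (by decide)).trans hX0)),
      hnb 1 (hsq _ ((hX 1 (by decide)).trans hX0))] with w h1 h2
    unfold eta
    rw [h1, h2]
    ring
  · have hY0 : YY z ≤ 0 := not_lt.1 h
    filter_upwards [hnb 5 (hsq _ ((hY 5 (by decide)).trans hY0)),
      hnb 6 (hsq _ ((hY 6 (by decide)).trans hY0))] with w h1 h2
    unfold eta
    rw [h1, h2]
    ring

theorem eta_one {b : ℝ → ℝ} (hb0 : ∀ t, 2 ≤ |t| → b t = 0) {ε : ℝ} (hε : 0 < ε) (z : E 10)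
    (hz1 : ¬ (|z 0| ≤ 2 * ε ∧ |z 1| ≤ 2 * ε)) (hz2 : ¬ (|z 5| ≤ 2 * ε ∧ |z 6| ≤ 2 * ε)) :
    eta b ε =ᶠ[nhds z] fun _ => 1 := by
  have hnb : ∀ i : Fin 10, 2 * ε < |z i| → ∀ᶠ w : E 10 in nhds z, b (w i / ε) = 0 := by
    intro i hi
    have hc : Continuous (fun w : E 10 => |w i / ε|) := by fun_prop
    have h1 : ∀ᶠ w : E 10 in nhds z, 2 < |w i / ε| := by
      refine continuousAt_const.eventually_lt hc.continuousAt ?_
      rw [abs_div, abs_of_pos hε, lt_div_iff₀ hε]
      exact hi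
    filter_upwards [h1] with w hw
    exact hb0 _ hw.le
  have hp : ∀ i j : Fin 10, ¬ (|z i| ≤ 2 * ε ∧ |z j| ≤ 2 * ε) →
      ∀ᶠ w : E 10 in nhds z, b (w i / ε) * b (w j / ε) = 0 := by
    intro i j h
    rcases not_and_or.1 h with h | h
    · filter_upwards [hnb i (not_le.1 h)] with w hw
      rw [hw, zero_mul]
    · filter_upwards [hnb j (not_le.1 h)] with w hw
      rw [hw, mul_zero]
  filter_upwards [hp 0 1 hz1, hp 5 6 hz2] with w h1 h2
  unfold eta
  rw [h1, h2]
  ring

/-- boxes -/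
def wd (i j : Fin 10) (ε R : ℝ) (k : Fin 10) : ℝ := if k = i ∨ k = j then 2 * ε else R

theorem box_vol (i j : Fin 10) (hij : (i = 0 ∧ j = 1) ∨ (i = 5 ∧ j = 6)) {ε R : ℝ} (hε : 0 < ε)
    (hR : 0 < R) :
    volume.real (Set.Icc (fun k => -wd i j ε R k) (wd i j ε R)) =
      (4 * ε) ^ 2 * (2 * R) ^ 8 := by
  have hw : ∀ k, 0 < wd i j ε R k := by
    intro k
    unfold wd
    split_ifs <;> positivity
  have hle : (fun k => -wd i j ε R k) ≤ wd i j ε R := fun k => by
    have := hw k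
    show -wd i j ε R k ≤ wd i j ε R k
    linarith
  rw [Measure.real, Real.volume_Icc_pi_toReal hle]
  rcases hij with ⟨rfl, rfl⟩ | ⟨rfl, rfl⟩
  · simp only [wd, Fin.prod_univ_succ, Fin.prod_univ_zero]
    norm_num [Fin.ext_iff]
    ring
  · simp only [wd, Fin.prod_univ_succ, Fin.prod_univ_zero]
    norm_num [Fin.ext_iff]
    ring

end CutAux

open CutAux in
theorem cutP : CutP := by
  intro F F' K hc hK hd φ hφ hs
  obtain ⟨b, hbs, hb1, hb0, hbn, hbl, C, hC⟩ := exists_bump
  obtain ⟨R, hR0, hR⟩ : ∃ R : ℝ, 0 < R ∧ tsupport φ ⊆ Metric.ball 0 R :=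
    hs.isCompact.isBounded.subset_ball_lt 0 0
  set g : E 10 → ℝ := fun x => (∑ k, F k x * fderiv ℝ φ x (unit k)) + K x * φ x with hg
  have hdc : Continuous (fderiv ℝ φ) := hφ.continuous_fderiv (by simp)
  have hnt : ∀ x, x ∉ tsupport φ → φ x = 0 ∧ fderiv ℝ φ x = 0 := by
    intro x hx
    refine ⟨image_eq_zero_of_notMem_tsupport hx, ?_⟩
    by_contra hne
    exact hx (support_fderiv_subset ℝ hne)
  have hgc : Continuous g := by
    refine Continuous.add (continuous_finsetSum _ (fun k _ => ?_)) (hK.mul hφ.continuous)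
    exact (hc k).mul (hdc.clm_apply continuous_const)
  have hgs : HasCompactSupport g := by
    refine HasCompactSupport.of_support_subset_isCompact hs.isCompact ?_
    intro x hx
    by_contra hcon
    apply hx
    rw [hg]
    simp [(hnt x hcon).1, (hnt x hcon).2]
  obtain ⟨M1, hM1⟩ := hgc.bounded_above_of_compact_support hgs
  have hM10 : 0 ≤ M1 := (norm_nonneg _).trans (hM1 0)
  have hpc : Continuous (fun x => ∑ k, |φ x * F k x|) :=
    continuous_finsetSum _ fun k _ => (hφ.continuous.mul (hc k)).abs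
  have hps : HasCompactSupport (fun x => ∑ k, |φ x * F k x|) := by
    refine HasCompactSupport.of_support_subset_isCompact hs.isCompact ?_
    intro x hx
    by_contra hcon
    apply hx
    simp [(hnt x hcon).1]
  obtain ⟨M2, hM2⟩ := hpc.bounded_above_of_compact_support hps
  have hM20 : 0 ≤ M2 := (norm_nonneg _).trans (hM2 0)
  show ∫ x, g x = 0
  have hgi : Integrable g := hgc.integrable_of_hasCompactSupport hgs
  have hbound : ∀ ε : ℝ, 0 < ε → ε ≤ 1 →
      |∫ x, g x| ≤ ((M1 + M2 * (4 * C)) * (2 * (16 * (2 * R) ^ 8))) * ε := by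
    intro ε hε hε1
    have hes := eta_smooth hbs ε
    have hed : ∀ x, HasFDerivAt (eta b ε) (fderiv ℝ (eta b ε) x) x := fun x =>
      ((hes.differentiable (by simp)) x).hasFDerivAt
    have hφd : ∀ x, HasFDerivAt φ (fderiv ℝ φ x) x := fun x =>
      ((hφ.differentiable (by simp)) x).hasFDerivAt
    have hA := lemA F F' K hc hK hd (fun x => φ x * eta b ε x) (hφ.mul hes) hs.mul_right (by
      intro z hz
      filter_upwards [eta_zero hb1 hε z hz] with w hw
      rw [hw, mul_zero])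
    have hpt : ∀ x, (∑ k, F k x * fderiv ℝ (fun x => φ x * eta b ε x) x (unit k)) +
        K x * (φ x * eta b ε x) =
        eta b ε x * g x + ∑ k, φ x * F k x * fderiv ℝ (eta b ε) x (unit k) := by
      intro x
      have hm : HasFDerivAt (fun x => φ x * eta b ε x)
          (φ x • fderiv ℝ (eta b ε) x + eta b ε x • fderiv ℝ φ x) x := (hφd x).mul (hed x)
      rw [hm.fderiv, hg]
      simp only [ContinuousLinearMap.add_apply, ContinuousLinearMap.smul_apply, smul_eq_mul]
      rw [mul_add, Finset.mul_sum, add_right_comm, ← Finset.sum_add_distrib]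
      congr 1
      · refine Finset.sum_congr rfl fun k _ => ?_
        ring
      · ring
    simp only [hpt] at hA
    set q : E 10 → ℝ := fun x => (1 - eta b ε x) * g x -
      ∑ k, φ x * F k x * fderiv ℝ (eta b ε) x (unit k) with hq
    have hhi : Integrable (fun x => eta b ε x * g x +
        ∑ k, φ x * F k x * fderiv ℝ (eta b ε) x (unit k)) := by
      refine Continuous.integrable_of_hasCompactSupport ?_ ?_
      · refine (hes.continuous.mul hgc).add (continuous_finsetSum _ fun k _ => ?_)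
        exact (hφ.continuous.mul (hc k)).mul
          ((hes.continuous_fderiv (by simp)).clm_apply continuous_const)
      · refine HasCompactSupport.of_support_subset_isCompact hs.isCompact ?_
        intro x hx
        by_contra hcon
        apply hx
        simp [hg, (hnt x hcon).1, (hnt x hcon).2]
    have hqg : ∫ x, g x = ∫ x, q x := by
      have e1 : ∀ x, q x = g x - (eta b ε x * g x +
          ∑ k, φ x * F k x * fderiv ℝ (eta b ε) x (unit k)) := fun x => by
        rw [hq]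
        simp only
        ring
      simp only [e1]
      rw [integral_sub hgi hhi, hA, sub_zero]
    rw [hqg, integral_eL]
    set SA : Set (Fin 10 → ℝ) := Set.Icc (fun k => -wd 0 1 ε R k) (wd 0 1 ε R) with hSA
    set SB : Set (Fin 10 → ℝ) := Set.Icc (fun k => -wd 5 6 ε R k) (wd 5 6 ε R) with hSB
    have hmem : ∀ (i j : Fin 10) (y : Fin 10 → ℝ), (∀ k, |y k| ≤ R) →
        (|y i| ≤ 2 * ε ∧ |y j| ≤ 2 * ε) →
        y ∈ Set.Icc (fun k => -wd i j ε R k) (wd i j ε R) := by
      intro i j y hy hij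
      have h1 : ∀ k, |y k| ≤ wd i j ε R k := by
        intro k
        unfold wd
        split_ifs with h
        · rcases h with rfl | rfl
          · exact hij.1
          · exact hij.2
        · exact hy k
      exact ⟨fun k => (abs_le.1 (h1 k)).1, fun k => (abs_le.1 (h1 k)).2⟩
    have hout : ∀ y : Fin 10 → ℝ, y ∉ SA ∪ SB → q (eL 10 y) = 0 := by
      intro y hy
      by_cases hin : eL 10 y ∈ tsupport φ
      · have h1 : ∀ k, |y k| ≤ R := fun k =>
          (abs_le_norm y k).trans (mem_ball_zero_iff.1 (hR hin)).le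
        have h2 := eta_one hb0 hε (eL 10 y)
          (fun h => hy (Or.inl (hmem 0 1 y h1 h))) (fun h => hy (Or.inr (hmem 5 6 y h1 h)))
        have h3 : eta b ε (eL 10 y) = 1 := h2.self_of_nhds
        have h4 : fderiv ℝ (eta b ε) (eL 10 y) = 0 := by
          rw [h2.fderiv_eq]
          simp
        rw [hq]
        simp [h3, h4]
      · rw [hq]
        simp [hg, (hnt _ hin).1, (hnt _ hin).2]
    rw [← setIntegral_eq_integral_of_forall_compl_eq_zero hout]
    have hqb : ∀ x, ‖q x‖ ≤ (M1 + M2 * (4 * C)) / ε := by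
      intro x
      have h1 : |1 - eta b ε x| ≤ 1 := by
        have ha := mul_le_one₀ (hbl (x 0 / ε)) (hbn (x 1 / ε)) (hbl (x 1 / ε))
        have hb' := mul_le_one₀ (hbl (x 5 / ε)) (hbn (x 6 / ε)) (hbl (x 6 / ε))
        have hc' := mul_nonneg (hbn (x 0 / ε)) (hbn (x 1 / ε))
        have hd' := mul_nonneg (hbn (x 5 / ε)) (hbn (x 6 / ε))
        unfold eta
        rw [abs_le]
        constructor <;> nlinarith
      have h2 : |∑ k, φ x * F k x * fderiv ℝ (eta b ε) x (unit k)| ≤ M2 * (4 * C / ε) := by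
        refine (Finset.abs_sum_le_sum_abs _ _).trans ?_
        calc ∑ k, |φ x * F k x * fderiv ℝ (eta b ε) x (unit k)|
            ≤ ∑ k, |φ x * F k x| * (4 * C / ε) := by
              refine Finset.sum_le_sum fun k _ => ?_
              rw [abs_mul]
              exact mul_le_mul_of_nonneg_left (eta_fderiv hC hbn hbl hε x k) (abs_nonneg _)
          _ = (∑ k, |φ x * F k x|) * (4 * C / ε) := by rw [Finset.sum_mul]
          _ ≤ M2 * (4 * C / ε) := by
              refine mul_le_mul_of_nonneg_right ?_ (by positivity)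
              exact (le_abs_self _).trans (hM2 x)
      have h3 : |(1 - eta b ε x) * g x| ≤ M1 := by
        rw [abs_mul]
        calc |1 - eta b ε x| * |g x| ≤ 1 * M1 :=
              mul_le_mul h1 (hM1 x) (abs_nonneg _) zero_le_one
          _ = M1 := one_mul _
      have h4 : M1 ≤ M1 / ε := by
        rw [le_div_iff₀ hε]
        nlinarith
      rw [hq, Real.norm_eq_abs]
      refine (abs_sub _ _).trans ?_
      calc |(1 - eta b ε x) * g x| + |∑ k, φ x * F k x * fderiv ℝ (eta b ε) x (unit k)|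
          ≤ M1 / ε + M2 * (4 * C / ε) := add_le_add (h3.trans h4) h2
        _ = (M1 + M2 * (4 * C)) / ε := by ring
    have hSAv : volume.real SA = (4 * ε) ^ 2 * (2 * R) ^ 8 := box_vol 0 1 (Or.inl ⟨rfl, rfl⟩) hε hR0
    have hSBv : volume.real SB = (4 * ε) ^ 2 * (2 * R) ^ 8 := box_vol 5 6 (Or.inr ⟨rfl, rfl⟩) hε hR0
    have hSAt : volume SA < ⊤ := isCompact_Icc.measure_lt_top
    have hSBt : volume SB < ⊤ := isCompact_Icc.measure_lt_top
    have h5 := norm_setIntegral_le_of_norm_le_const (μ := volume) (s := SA ∪ SB)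
      (f := fun y => q (eL 10 y)) (measure_union_lt_top hSAt hSBt) (fun y _ => hqb (eL 10 y))
    have h6 : volume.real (SA ∪ SB) ≤ 2 * ((4 * ε) ^ 2 * (2 * R) ^ 8) := by
      refine (measureReal_union_le SA SB).trans ?_
      rw [hSAv, hSBv]
      linarith
    refine h5.trans ?_
    calc (M1 + M2 * (4 * C)) / ε * volume.real (SA ∪ SB)
        ≤ (M1 + M2 * (4 * C)) / ε * (2 * ((4 * ε) ^ 2 * (2 * R) ^ 8)) :=
          mul_le_mul_of_nonneg_left h6 (by positivity)
      _ = ((M1 + M2 * (4 * C)) * (2 * (16 * (2 * R) ^ 8))) * ε := by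
          field_simp
          ring
  set Dc : ℝ := (M1 + M2 * (4 * C)) * (2 * (16 * (2 * R) ^ 8)) with hDc
  have hDc0 : 0 ≤ Dc := by positivity
  by_contra hne
  have hpos : 0 < |∫ x, g x| := abs_pos.2 hne
  set I : ℝ := |∫ x, g x| with hI
  have h1 := hbound (min 1 (I / (2 * (Dc + 1)))) (lt_min one_pos (by positivity)) (min_le_left _ _)
  have h2 : Dc * min 1 (I / (2 * (Dc + 1))) ≤ Dc * (I / (2 * (Dc + 1))) :=
    mul_le_mul_of_nonneg_left (min_le_right _ _) hDc0
  have h3 : Dc * (I / (2 * (Dc + 1))) < I := by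
    rw [← mul_div_assoc, div_lt_iff₀ (by positivity)]
    nlinarith
  linarith

end Pool.Agent.R271.PJ
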