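import Mathlib

set_option autoImplicit false

open MeasureTheory

namespace Pool.Agent.R271.PJ

/-- The Euclidean space of dimension `n`. -/
abbrev E (n : ℕ) : Type := EuclideanSpace ℝ (Fin n)

/-- The `j`-th unit vector. -/
noncomputable def unit {n : ℕ} (j : Fin n) : E n := EuclideanSpace.single j (1 : ℝ)

/-- `u` is p-harmonic on the open set `Ω`: `u` and its distributional gradient `G` are locally
in `L^p`, and the weak form of `div (|G|^(p-2) G) = 0` holds. -/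
def IsPHarm (p : ℝ) {n : ℕ} (Ω : Set (E n)) (u : E n → ℝ) : Prop :=
  ∃ G : E n → E n,
    (∀ K : Set (E n), K ⊆ Ω → IsCompact K →
      MemLp u (ENNReal.ofReal p) (volume.restrict K) ∧
      MemLp G (ENNReal.ofReal p) (volume.restrict K)) ∧
    (∀ φ : E n → ℝ, ContDiff ℝ (⊤ : ℕ∞) φ → HasCompactSupport φ → tsupport φ ⊆ Ω →
      ∀ j : Fin n, ∫ x in Ω, u x * fderiv ℝ φ x (unit j) = -∫ x in Ω, G x j * φ x) ∧
    (∀ φ : E n → ℝ, ContDiff ℝ (⊤ : ℕ∞) φ → HasCompactSupport φ → tsupport φ ⊆ Ω →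
      ∫ x in Ω, ∑ j : Fin n, ‖G x‖ ^ (p - 2) * G x j * fderiv ℝ φ x (unit j) = 0)

/-- `u` has a representative in the local class `C^σ = C^(k,a)`, where `σ = k + a`, `0 < a ≤ 1`:
it is `k` times continuously differentiable on `Ω` and its `k`-th derivative is Hoelder continuous
of exponent `a` on compact subsets of `Ω`. -/
def InC (σ : ℝ) {n : ℕ} (Ω : Set (E n)) (u : E n → ℝ) : Prop :=
  ∃ (k : ℕ) (a : ℝ), 0 < a ∧ a ≤ 1 ∧ σ = k + a ∧
    ∃ v : E n → ℝ, (∀ᵐ x ∂(volume.restrict Ω), v x = u x) ∧ ContDiffOn ℝ k v Ω ∧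
      ∀ K : Set (E n), K ⊆ Ω → IsCompact K → ∃ C : ℝ, ∀ x ∈ K, ∀ y ∈ K,
        ‖iteratedFDerivWithin ℝ k v Ω x - iteratedFDerivWithin ℝ k v Ω y‖ ≤ C * ‖x - y‖ ^ a

/-- The degree of regularity of p-harmonic functions in dimension `n`, in `[0, ∞]`. -/
noncomputable def degReg (n : ℕ) (p : ℝ) : ENNReal :=
  sSup {t : ENNReal | ∃ σ : ℝ, 0 < σ ∧ t = ENNReal.ofReal σ ∧
    ∀ (Ω : Set (E n)), IsOpen Ω → ∀ u : E n → ℝ, IsPHarm p Ω u → InC σ Ω u}

end Pool.Agent.R271.PJ
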