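import Pool.Agent.R271.PJ.Stm

set_option autoImplicit false

open MeasureTheory

namespace Pool.Agent.R271.PJ

namespace DivUAux

/-- derivative of `XX / 2` -/
noncomputable def dX (z : E 10) : E 10 →L[ℝ] ℝ :=
  ∑ i : Fin 10, (if (i : ℕ) < 5 then z i else 0) • (EuclideanSpace.proj i : E 10 →L[ℝ] ℝ)

/-- derivative of `YY / 2` -/
noncomputable def dY (z : E 10) : E 10 →L[ℝ] ℝ :=
  ∑ i : Fin 10, (if (i : ℕ) < 5 then 0 else z i) • (EuclideanSpace.proj i : E 10 →L[ℝ] ℝ)

lemma proj_unit (i k : Fin 10) : (EuclideanSpace.proj i : E 10 →L[ℝ] ℝ) (unit k) =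
    if i = k then 1 else 0 := by
  change (EuclideanSpace.single k (1 : ℝ) : E 10) i = _
  simp

lemma dX_unit (z : E 10) (k : Fin 10) : dX z (unit k) = if (k : ℕ) < 5 then z k else 0 := by
  have h : dX z (unit k) = ∑ i : Fin 10, (if (i : ℕ) < 5 then z i else 0) *
      (EuclideanSpace.proj i : E 10 →L[ℝ] ℝ) (unit k) := by
    rw [dX, _root_.sum_apply]
    rfl
  rw [h, Finset.sum_eq_single k]
  · rw [proj_unit, if_pos rfl, mul_one]
  · intro b _ hb
    rw [proj_unit, if_neg hb, mul_zero]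
  · intro h
    exact absurd (Finset.mem_univ k) h

lemma dY_unit (z : E 10) (k : Fin 10) : dY z (unit k) = if (k : ℕ) < 5 then 0 else z k := by
  have h : dY z (unit k) = ∑ i : Fin 10, (if (i : ℕ) < 5 then 0 else z i) *
      (EuclideanSpace.proj i : E 10 →L[ℝ] ℝ) (unit k) := by
    rw [dY, _root_.sum_apply]
    rfl
  rw [h, Finset.sum_eq_single k]
  · rw [proj_unit, if_pos rfl, mul_one]
  · intro b _ hb
    rw [proj_unit, if_neg hb, mul_zero]
  · intro h
    exact absurd (Finset.mem_univ k) h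

/-- `f` has at `z` the derivative `a dX + b dY` -/
def HD (f : E 10 → ℝ) (a b : ℝ) (z : E 10) : Prop := HasFDerivAt f (a • dX z + b • dY z) z

lemma HD.mul {f g : E 10 → ℝ} {a b a' b' : ℝ} {z : E 10} (h : HD f a b z) (h' : HD g a' b' z) :
    HD (fun y => f y * g y) (a * g z + f z * a') (b * g z + f z * b') z := by
  unfold HD at *
  refine (HasFDerivAt.mul h h').congr_fderiv ?_
  module

lemma HD.comp {f : E 10 → ℝ} {a b : ℝ} {z : E 10} {φ : ℝ → ℝ} {φ' : ℝ} (h : HD f a b z)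
    (hφ : HasDerivAt φ φ' (f z)) : HD (fun y => φ (f y)) (φ' * a) (φ' * b) z := by
  unfold HD at *
  refine (hφ.comp_hasFDerivAt z h).congr_fderiv ?_
  module

lemma HD.sub {f g : E 10 → ℝ} {a b a' b' : ℝ} {z : E 10} (h : HD f a b z) (h' : HD g a' b' z) :
    HD (fun y => f y - g y) (a - a') (b - b') z := by
  unfold HD at *
  refine (HasFDerivAt.sub h h').congr_fderiv ?_
  module

lemma HD.congr {f g : E 10 → ℝ} {a b a' b' : ℝ} {z : E 10} (h : HD f a b z)
    (hfg : ∀ᶠ y in nhds z, g y = f y) (ha : a' = a) (hb : b' = b) : HD g a' b' z := by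
  unfold HD at *
  rw [ha, hb]
  exact HasFDerivAt.congr_of_eventuallyEq h hfg

lemma hd_XX (z : E 10) : HD XX 2 0 z := by
  unfold HD
  have h : HasFDerivAt XX (∑ i : Fin 10, (if (i : ℕ) < 5 then 2 * z i else 0) •
      (EuclideanSpace.proj i : E 10 →L[ℝ] ℝ)) z := by
    unfold XX
    refine HasFDerivAt.fun_sum fun i _ => ?_
    split_ifs
    · have h1 : HasFDerivAt (fun y : E 10 => y i) (EuclideanSpace.proj i : E 10 →L[ℝ] ℝ) z :=
        (EuclideanSpace.proj i : E 10 →L[ℝ] ℝ).hasFDerivAt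
      refine (h1.pow 2).congr_fderiv ?_
      simp
    · rw [zero_smul]
      exact hasFDerivAt_const _ _
  refine h.congr_fderiv ?_
  rw [zero_smul, add_zero, dX, Finset.smul_sum]
  refine Finset.sum_congr rfl fun i _ => ?_
  split_ifs
  · rw [smul_smul]
  · simp

lemma hd_YY (z : E 10) : HD YY 0 2 z := by
  unfold HD
  have h : HasFDerivAt YY (∑ i : Fin 10, (if (i : ℕ) < 5 then 0 else 2 * z i) •
      (EuclideanSpace.proj i : E 10 →L[ℝ] ℝ)) z := by
    unfold YY
    refine HasFDerivAt.fun_sum fun i _ => ?_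
    split_ifs
    · rw [zero_smul]
      exact hasFDerivAt_const _ _
    · have h1 : HasFDerivAt (fun y : E 10 => y i) (EuclideanSpace.proj i : E 10 →L[ℝ] ℝ) z :=
        (EuclideanSpace.proj i : E 10 →L[ℝ] ℝ).hasFDerivAt
      refine (h1.pow 2).congr_fderiv ?_
      simp
  refine h.congr_fderiv ?_
  rw [zero_smul, zero_add, dY, Finset.smul_sum]
  refine Finset.sum_congr rfl fun i _ => ?_
  split_ifs
  · simp
  · rw [smul_smul]

lemma norm_eq (z : E 10) : ‖z‖ = √(XX z + YY z) := by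
  rw [EuclideanSpace.norm_eq]
  congr 1
  unfold XX YY
  rw [← Finset.sum_add_distrib]
  refine Finset.sum_congr rfl fun i _ => ?_
  rw [Real.norm_eq_abs, sq_abs]
  split_ifs <;> simp

lemma cont_XX : Continuous XX := by
  unfold XX
  refine continuous_finsetSum _ fun i _ => ?_
  split_ifs <;> fun_prop

lemma cont_YY : Continuous YY := by
  unfold YY
  refine continuous_finsetSum _ fun i _ => ?_
  split_ifs <;> fun_prop

lemma XX_nonneg (z : E 10) : 0 ≤ XX z := by
  unfold XX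
  refine Finset.sum_nonneg fun i _ => ?_
  split_ifs <;> positivity

lemma YY_nonneg (z : E 10) : 0 ≤ YY z := by
  unfold YY
  refine Finset.sum_nonneg fun i _ => ?_
  split_ifs <;> positivity

lemma hd_rho {z : E 10} (hX : 0 < XX z) : HD rho (1 / rho z) 0 z := by
  have h := (hd_XX z).comp (Real.hasDerivAt_sqrt hX.ne')
  have hr : 0 < rho z := Real.sqrt_pos.2 hX
  refine h.congr (Filter.Eventually.of_forall fun y => rfl) ?_ ?_
  · unfold rho at *
    field_simp
  · simp

lemma hd_sig {z : E 10} (hY : 0 < YY z) : HD sig 0 (1 / sig z) z := by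
  have h := (hd_YY z).comp (Real.hasDerivAt_sqrt hY.ne')
  have hr : 0 < sig z := Real.sqrt_pos.2 hY
  refine h.congr (Filter.Eventually.of_forall fun y => rfl) ?_ ?_
  · simp
  · unfold sig at *
    field_simp

lemma HD.add {f g : E 10 → ℝ} {a b a' b' : ℝ} {z : E 10} (h : HD f a b z) (h' : HD g a' b' z) :
    HD (fun y => f y + g y) (a + a') (b + b') z := by
  unfold HD at *
  refine (HasFDerivAt.add h h').congr_fderiv ?_
  module

lemma hd_norm {z : E 10} (hX : 0 < XX z) : HD (fun y => ‖y‖) (1 / ‖z‖) (1 / ‖z‖) z := by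
  have hpos : 0 < XX z + YY z := add_pos_of_pos_of_nonneg hX (YY_nonneg z)
  have h := ((hd_XX z).add (hd_YY z)).comp (Real.hasDerivAt_sqrt hpos.ne')
  have hn := norm_eq z
  have hr : 0 < √(XX z + YY z) := Real.sqrt_pos.2 hpos
  refine h.congr (Filter.Eventually.of_forall fun y => norm_eq y) ?_ ?_
  · rw [hn]
    field_simp
    ring
  · rw [hn]
    field_simp
    ring

lemma tan_th {z : E 10} : Real.tan (th z) = sig z / rho z := by
  unfold th
  rw [Complex.tan_arg]

lemma th_eq {z : E 10} (hX : 0 < XX z) : th z = Real.arctan (sig z / rho z) := by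
  have hr : 0 < rho z := Real.sqrt_pos.2 hX
  have h1 : |th z| < Real.pi / 2 := by
    unfold th
    rw [Complex.abs_arg_lt_pi_div_two_iff]
    exact Or.inl hr
  rw [← tan_th]
  rw [abs_lt] at h1
  exact (Real.arctan_tan h1.1 h1.2).symm

lemma th_mem {z : E 10} (hX : 0 < XX z) (hY : 0 < YY z) : 0 < th z ∧ th z < Real.pi / 2 := by
  have hr : 0 < rho z := Real.sqrt_pos.2 hX
  have hs : 0 < sig z := Real.sqrt_pos.2 hY
  rw [th_eq hX]
  exact ⟨Real.arctan_pos.2 (div_pos hs hr), Real.arctan_lt_pi_div_two _⟩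

lemma norm_sq (z : E 10) : ‖z‖ ^ 2 = rho z ^ 2 + sig z ^ 2 := by
  rw [norm_eq, Real.sq_sqrt (add_nonneg (XX_nonneg z) (YY_nonneg z)), rho, sig,
    Real.sq_sqrt (XX_nonneg z), Real.sq_sqrt (YY_nonneg z)]

lemma cnorm (z : E 10) : ‖(⟨rho z, sig z⟩ : ℂ)‖ = ‖z‖ := by
  rw [Complex.norm_def, Complex.normSq_apply, norm_eq]
  congr 1
  change rho z * rho z + sig z * sig z = _
  rw [rho, sig, Real.mul_self_sqrt (XX_nonneg z), Real.mul_self_sqrt (YY_nonneg z)]

lemma cos_th {z : E 10} (hX : 0 < XX z) : rho z = ‖z‖ * Real.cos (th z) := by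
  have hr : 0 < rho z := Real.sqrt_pos.2 hX
  have h1 : (⟨rho z, sig z⟩ : ℂ) ≠ 0 := by
    intro h
    have := congrArg Complex.re h
    exact hr.ne' this
  unfold th
  rw [Complex.cos_arg h1, cnorm]
  have hn : ‖z‖ ≠ 0 := by
    rw [← cnorm]
    exact norm_ne_zero_iff.2 h1
  field_simp

lemma sin_th {z : E 10} (hX : 0 < XX z) : sig z = ‖z‖ * Real.sin (th z) := by
  have hr : 0 < rho z := Real.sqrt_pos.2 hX
  have h1 : (⟨rho z, sig z⟩ : ℂ) ≠ 0 := by
    intro h
    have := congrArg Complex.re h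
    exact hr.ne' this
  unfold th
  rw [Complex.sin_arg, cnorm]
  have hn : ‖z‖ ≠ 0 := by
    rw [← cnorm]
    exact norm_ne_zero_iff.2 h1
  field_simp

lemma hd_th {z : E 10} (hX : 0 < XX z) (hY : 0 < YY z) :
    HD th (-(sig z) / (rho z * ‖z‖ ^ 2)) (rho z / (sig z * ‖z‖ ^ 2)) z := by
  have hr : 0 < rho z := Real.sqrt_pos.2 hX
  have hs : 0 < sig z := Real.sqrt_pos.2 hY
  have hn : 0 < ‖z‖ ^ 2 := by rw [norm_sq]; positivity
  have h1 := (hd_rho hX).comp (hasDerivAt_inv hr.ne')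
  have h2 := ((hd_sig hY).mul h1).comp (Real.hasDerivAt_arctan _)
  have hd : 1 + (sig z * (rho z)⁻¹) ^ 2 = ‖z‖ ^ 2 / rho z ^ 2 := by
    rw [norm_sq]
    field_simp
  refine h2.congr ?_ ?_ ?_
  · have h3 : ∀ᶠ y in nhds z, 0 < XX y := cont_XX.continuousAt.eventually_const_lt hX
    filter_upwards [h3] with y hy
    rw [th_eq hy]
    rfl
  · rw [hd]
    field_simp
    ring
  · rw [hd]
    field_simp
    ring

lemma alg0 {C S c d κ q H s' W : ℝ} (hC : 0 < C) (hS : 0 < S) (h : C ^ 2 + S ^ 2 = 1)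
    (hW : W * (S * C) = 4 * (C ^ 2 - S ^ 2))
    (hs : s' * c + q * H * d = (9 + κ) * c - W * d) :
    4 * (c * C + d * S) / C + κ * (c * C + d * S) * C -
      (q * H * (c * C + d * S) - (d * C - c * S) * (s' - 1)) * S -
      4 * (d * C - c * S) / S - κ * (d * C - c * S) * S -
      (q * H * (d * C - c * S) + (c * C + d * S) * (s' - 1)) * C = 0 := by
  have h1 : (4 * (c * C + d * S) / C + κ * (c * C + d * S) * C -
      (q * H * (c * C + d * S) - (d * C - c * S) * (s' - 1)) * S -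
      4 * (d * C - c * S) / S - κ * (d * C - c * S) * S -
      (q * H * (d * C - c * S) + (c * C + d * S) * (s' - 1)) * C) * (S * C) = 0 := by
    field_simp
    linear_combination S * C * (κ * c - q * H * d - (s' - 1) * c) * h +
      d * hW - S * C * hs
  exact (mul_eq_zero.1 h1).resolve_right (mul_pos hS hC).ne'

/-- `Au k = z k * Pf` for `k < 5` -/
noncomputable def Pf (q α : ℝ) (s G : ℝ → ℝ) (z : E 10) : ℝ :=
  ‖z‖ ^ ((α - 1) * q) * (G (th z)) ^ q * Real.cos (s (th z) - th z) * (rho z)⁻¹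

/-- `Au k = z k * Qf` for `5 ≤ k` -/
noncomputable def Qf (q α : ℝ) (s G : ℝ → ℝ) (z : E 10) : ℝ :=
  ‖z‖ ^ ((α - 1) * q) * (G (th z)) ^ q * (-Real.sin (s (th z) - th z)) * (sig z)⁻¹

lemma Au_P {q α : ℝ} {s G : ℝ → ℝ} {k : Fin 10} (hk : (k : ℕ) < 5) :
    Au q α s G k = fun z => z k * Pf q α s G z := by
  funext z
  unfold Au ee Pf
  rw [if_pos hk]
  ring

lemma Au_Q {q α : ℝ} {s G : ℝ → ℝ} {k : Fin 10} (hk : ¬ (k : ℕ) < 5) :
    Au q α s G k = fun z => z k * Qf q α s G z := by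
  funext z
  unfold Au ee Qf
  rw [if_neg hk]
  ring

lemma hd_mulk {f : E 10 → ℝ} {a b : ℝ} {z : E 10} (h : HD f a b z) (k : Fin 10) :
    HasFDerivAt (fun y : E 10 => y k * f y)
      (z k • (a • dX z + b • dY z) + f z • (EuclideanSpace.proj k : E 10 →L[ℝ] ℝ)) z := by
  have h1 : HasFDerivAt (fun y : E 10 => y k) (EuclideanSpace.proj k : E 10 →L[ℝ] ℝ) z :=
    (EuclideanSpace.proj k : E 10 →L[ℝ] ℝ).hasFDerivAt
  exact h1.mul h

lemma val_P {f : E 10 → ℝ} {a b : ℝ} {z : E 10} {k : Fin 10} (hk : (k : ℕ) < 5) :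
    (z k • (a • dX z + b • dY z) + f z • (EuclideanSpace.proj k : E 10 →L[ℝ] ℝ)) (unit k) =
      f z + a * z k ^ 2 := by
  change z k * (a * dX z (unit k) + b * dY z (unit k)) +
    f z * (EuclideanSpace.proj k : E 10 →L[ℝ] ℝ) (unit k) = _
  rw [dX_unit, dY_unit, proj_unit, if_pos hk, if_pos hk, if_pos rfl]
  ring

lemma val_Q {f : E 10 → ℝ} {a b : ℝ} {z : E 10} {k : Fin 10} (hk : ¬ (k : ℕ) < 5) :
    (z k • (a • dX z + b • dY z) + f z • (EuclideanSpace.proj k : E 10 →L[ℝ] ℝ)) (unit k) =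
      f z + b * z k ^ 2 := by
  change z k * (a * dX z (unit k) + b * dY z (unit k)) +
    f z * (EuclideanSpace.proj k : E 10 →L[ℝ] ℝ) (unit k) = _
  rw [dX_unit, dY_unit, proj_unit, if_neg hk, if_neg hk, if_pos rfl]
  ring

end DivUAux

open DivUAux in
theorem divUP : DivUP := by
  intro q α s G hq hq1 hα hα1 hP
  refine ⟨fun k z => fderiv ℝ (Au q α s G k) z, ?_⟩
  intro z hX hY
  have hr : 0 < rho z := Real.sqrt_pos.2 hX
  have hs : 0 < sig z := Real.sqrt_pos.2 hY
  have hn2 : 0 < ‖z‖ ^ 2 := by rw [norm_sq]; positivity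
  have hn : 0 < ‖z‖ := by
    by_contra h
    have h0 : ‖z‖ = 0 := le_antisymm (not_lt.1 h) (norm_nonneg z)
    rw [h0] at hn2
    norm_num at hn2
  obtain ⟨hT0, hT1⟩ := th_mem hX hY
  have hGpos : 0 < G (th z) := hP.posG _ ⟨hT0.le, hT1.le⟩
  have d1 := hP.ders _ hT0 hT1
  have d2 := hP.derG _ hT0 hT1
  have hN := (hd_norm hX).comp (Real.hasDerivAt_rpow_const (p := (α - 1) * q) (Or.inl hn.ne'))
  have hTh := hd_th hX hY
  have hG := hTh.comp (d2.rpow_const (p := q) (Or.inl hGpos.ne'))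
  have d3 := d1.sub (hasDerivAt_id (th z))
  have hCos := hTh.comp (d3.cos)
  have hSin := hTh.comp (d3.sin.neg)
  have hRi := (hd_rho hX).comp (hasDerivAt_inv hr.ne')
  have hSi := (hd_sig hY).comp (hasDerivAt_inv hs.ne')
  have hPf := ((hN.mul hG).mul hCos).mul hRi
  have hQf := ((hN.mul hG).mul hSin).mul hSi
  have hR1 : ‖z‖ ^ ((α - 1) * q - 1) = ‖z‖ ^ ((α - 1) * q) / ‖z‖ :=
    Real.rpow_sub_one hn.ne' _
  have hG1 : G (th z) ^ (q - 1) = G (th z) ^ q / G (th z) := Real.rpow_sub_one hGpos.ne' _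
  obtain ⟨B, hPf'⟩ : ∃ B, HD (Pf q α s G) (‖z‖ ^ ((α - 1) * q) * G (th z) ^ q *
      ((α - 1) * q * Real.cos (s (th z) - th z) / ‖z‖ ^ 2 -
        (q * HH q α (th z) (s (th z)) * Real.cos (s (th z) - th z) -
          Real.sin (s (th z) - th z) * (RR q α (th z) (s (th z)) - 1)) *
            sig z / (rho z * ‖z‖ ^ 2) - Real.cos (s (th z) - th z) / rho z ^ 2) / rho z) B z := by
    refine ⟨_, hPf.congr (Filter.Eventually.of_forall fun y => rfl) ?_ rfl⟩
    rw [hR1, hG1]
    simp only [Pi.sub_apply, id_eq]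
    field_simp
    ring
  obtain ⟨B', hQf'⟩ : ∃ B', HD (Qf q α s G) B' (-(‖z‖ ^ ((α - 1) * q) * G (th z) ^ q *
      ((α - 1) * q * Real.sin (s (th z) - th z) / ‖z‖ ^ 2 +
        (q * HH q α (th z) (s (th z)) * Real.sin (s (th z) - th z) +
          Real.cos (s (th z) - th z) * (RR q α (th z) (s (th z)) - 1)) *
            rho z / (sig z * ‖z‖ ^ 2) - Real.sin (s (th z) - th z) / sig z ^ 2) / sig z)) z := by
    refine ⟨_, hQf.congr (Filter.Eventually.of_forall fun y => rfl) rfl ?_⟩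
    rw [hR1, hG1]
    simp only [Pi.sub_apply, id_eq, Pi.neg_apply]
    field_simp
    ring
  refine ⟨fun k => ?_, ?_⟩
  · change HasFDerivAt (Au q α s G k) (fderiv ℝ (Au q α s G k) z) z
    by_cases hk : (k : ℕ) < 5
    · rw [Au_P hk]
      exact (hd_mulk hPf' k).differentiableAt.hasFDerivAt
    · rw [Au_Q hk]
      exact (hd_mulk hQf' k).differentiableAt.hasFDerivAt
  generalize hA : ‖z‖ ^ ((α - 1) * q) * G (th z) ^ q *
      ((α - 1) * q * Real.cos (s (th z) - th z) / ‖z‖ ^ 2 -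
        (q * HH q α (th z) (s (th z)) * Real.cos (s (th z) - th z) -
          Real.sin (s (th z) - th z) * (RR q α (th z) (s (th z)) - 1)) *
            sig z / (rho z * ‖z‖ ^ 2) - Real.cos (s (th z) - th z) / rho z ^ 2) / rho z = A at hPf'
  generalize hBB : -(‖z‖ ^ ((α - 1) * q) * G (th z) ^ q *
      ((α - 1) * q * Real.sin (s (th z) - th z) / ‖z‖ ^ 2 +
        (q * HH q α (th z) (s (th z)) * Real.sin (s (th z) - th z) +
          Real.cos (s (th z) - th z) * (RR q α (th z) (s (th z)) - 1)) *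
            rho z / (sig z * ‖z‖ ^ 2) - Real.sin (s (th z) - th z) / sig z ^ 2) / sig z) = D at hQf'
  have hval : ∀ k : Fin 10, fderiv ℝ (Au q α s G k) z (unit k) =
      (if (k : ℕ) < 5 then Pf q α s G z else Qf q α s G z) +
        A * (if (k : ℕ) < 5 then z k ^ 2 else 0) + D * (if (k : ℕ) < 5 then 0 else z k ^ 2) := by
    intro k
    by_cases hk : (k : ℕ) < 5
    · rw [Au_P hk, (hd_mulk hPf' k).fderiv, val_P hk, if_pos hk, if_pos hk, if_pos hk]
      ring
    · rw [Au_Q hk, (hd_mulk hQf' k).fderiv, val_Q hk, if_neg hk, if_neg hk, if_neg hk]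
      ring
  have hcount : ∑ k : Fin 10, (if (k : ℕ) < 5 then Pf q α s G z else Qf q α s G z) =
      5 * Pf q α s G z + 5 * Qf q α s G z := by
    simp [Fin.sum_univ_succ]
    ring
  have hXr : XX z = rho z ^ 2 := (Real.sq_sqrt (XX_nonneg z)).symm
  have hYs : YY z = sig z ^ 2 := (Real.sq_sqrt (YY_nonneg z)).symm
  have hsum : ∑ k, fderiv ℝ (Au q α s G k) z (unit k) =
      5 * Pf q α s G z + 5 * Qf q α s G z + A * rho z ^ 2 + D * sig z ^ 2 := by
    rw [Finset.sum_congr rfl fun k _ => hval k, Finset.sum_add_distrib, Finset.sum_add_distrib,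
      ← Finset.mul_sum, ← Finset.mul_sum, hcount, ← hXr, ← hYs]
    rfl
  change ∑ k, fderiv ℝ (Au q α s G k) z (unit k) = 0
  rw [hsum, ← hA, ← hBB]
  unfold Pf Qf
  have e1 := cos_th hX
  have e2 := sin_th hX
  have hC : 0 < Real.cos (th z) := Real.cos_pos_of_mem_Ioo ⟨by linarith [Real.pi_pos], hT1⟩
  have hS : 0 < Real.sin (th z) := Real.sin_pos_of_pos_of_lt_pi hT0 (by linarith [Real.pi_pos])
  have hCS := Real.cos_sq_add_sin_sq (th z)
  have hcd := Real.cos_sq_add_sin_sq (s (th z))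
  have hW : WW (th z) * (Real.sin (th z) * Real.cos (th z)) =
      4 * (Real.cos (th z) ^ 2 - Real.sin (th z) ^ 2) := by
    unfold WW
    rw [Real.sin_two_mul, Real.cos_two_mul']
    field_simp
    ring
  have hD : 0 < DD q (s (th z)) := by
    unfold DD
    rcases eq_or_ne (Real.cos (s (th z))) 0 with h | h
    · rw [h] at hcd ⊢
      have h5 : Real.sin (s (th z)) ^ 2 = 1 := by linarith
      rw [h5]
      simpa using hq
    · positivity
  have hrel : RR q α (th z) (s (th z)) * Real.cos (s (th z)) +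
      q * HH q α (th z) (s (th z)) * Real.sin (s (th z)) =
      (9 + (α - 1) * q) * Real.cos (s (th z)) - WW (th z) * Real.sin (s (th z)) := by
    unfold RR HH NN
    have hD' := hD.ne'
    unfold DD at hD' ⊢
    field_simp
    ring
  rw [Real.cos_sub, Real.sin_sub]
  have hfin := alg0 hC hS hCS hW hrel
  generalize RR q α (th z) (s (th z)) = s1 at *
  generalize HH q α (th z) (s (th z)) = H at *
  generalize Real.cos (s (th z)) = c at *
  generalize Real.sin (s (th z)) = d at *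
  generalize Real.cos (th z) = C at *
  generalize Real.sin (th z) = S at *
  generalize ‖z‖ ^ ((α - 1) * q) = RRR at *
  generalize G (th z) ^ q = Γ at *
  generalize ‖z‖ = r at *
  rw [e1, e2]
  have hrC : r * C ≠ 0 := (mul_pos hn hC).ne'
  have hfin2 : RRR * Γ / r * (4 * (c * C + d * S) / C + (α - 1) * q * (c * C + d * S) * C -
      (q * H * (c * C + d * S) - (d * C - c * S) * (s1 - 1)) * S -
      4 * (d * C - c * S) / S - (α - 1) * q * (d * C - c * S) * S -
      (q * H * (d * C - c * S) + (c * C + d * S) * (s1 - 1)) * C) = 0 := by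
    rw [hfin, mul_zero]
  rw [← hfin2]
  field_simp
  ring

end Pool.Agent.R271.PJ
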