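import Pool.Agent.R271.PJ.Stm

set_option autoImplicit false

open MeasureTheory

namespace Pool.Agent.R271.PJ

namespace GradAux

noncomputable def dX (z : E 10) : E 10 →L[ℝ] ℝ :=
  ∑ k : Fin 10, (if (k : ℕ) < 5 then z k else 0) • (EuclideanSpace.proj k : E 10 →L[ℝ] ℝ)

noncomputable def dY (z : E 10) : E 10 →L[ℝ] ℝ :=
  ∑ k : Fin 10, (if (k : ℕ) < 5 then 0 else z k) • (EuclideanSpace.proj k : E 10 →L[ℝ] ℝ)

lemma hasCoord (i : Fin 10) (z : E 10) :
    HasFDerivAt (fun w : E 10 => w i ^ 2)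
      ((2 * z i) • (EuclideanSpace.proj i : E 10 →L[ℝ] ℝ)) z := by
  have h1 : HasFDerivAt (fun w : E 10 => w i) (EuclideanSpace.proj i : E 10 →L[ℝ] ℝ) z :=
    (EuclideanSpace.proj i : E 10 →L[ℝ] ℝ).hasFDerivAt
  have h2 := h1.pow 2
  refine h2.congr_fderiv ?_
  simp

lemma hasX (z : E 10) : HasFDerivAt XX ((2 : ℝ) • dX z) z := by
  have h : ∀ i : Fin 10, HasFDerivAt (fun w : E 10 => if (i : ℕ) < 5 then w i ^ 2 else 0)
      ((2 * (if (i : ℕ) < 5 then z i else 0)) • (EuclideanSpace.proj i : E 10 →L[ℝ] ℝ)) z := by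
    intro i
    by_cases hi : (i : ℕ) < 5
    · simp only [hi, if_true]
      exact hasCoord i z
    · simp only [hi, if_false, mul_zero, zero_smul]
      exact hasFDerivAt_const (0 : ℝ) z
  have h3 := HasFDerivAt.fun_sum (u := Finset.univ) (fun i _ => h i)
  have h4 : (2 : ℝ) • dX z = ∑ i : Fin 10,
      (2 * (if (i : ℕ) < 5 then z i else 0)) • (EuclideanSpace.proj i : E 10 →L[ℝ] ℝ) := by
    rw [dX, Finset.smul_sum]
    refine Finset.sum_congr rfl fun i _ => ?_
    rw [smul_smul]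
  rw [h4]
  exact h3

lemma hasY (z : E 10) : HasFDerivAt YY ((2 : ℝ) • dY z) z := by
  have h : ∀ i : Fin 10, HasFDerivAt (fun w : E 10 => if (i : ℕ) < 5 then 0 else w i ^ 2)
      ((2 * (if (i : ℕ) < 5 then 0 else z i)) • (EuclideanSpace.proj i : E 10 →L[ℝ] ℝ)) z := by
    intro i
    by_cases hi : (i : ℕ) < 5
    · simp only [hi, if_true, mul_zero, zero_smul]
      exact hasFDerivAt_const (0 : ℝ) z
    · simp only [hi, if_false]
      exact hasCoord i z
  have h3 := HasFDerivAt.fun_sum (u := Finset.univ) (fun i _ => h i)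
  have h4 : (2 : ℝ) • dY z = ∑ i : Fin 10,
      (2 * (if (i : ℕ) < 5 then 0 else z i)) • (EuclideanSpace.proj i : E 10 →L[ℝ] ℝ) := by
    rw [dY, Finset.smul_sum]
    refine Finset.sum_congr rfl fun i _ => ?_
    rw [smul_smul]
  rw [h4]
  exact h3

lemma norm_eq (w : E 10) : ‖w‖ = √(XX w + YY w) := by
  rw [EuclideanSpace.norm_eq]
  congr 1
  unfold XX YY
  rw [← Finset.sum_add_distrib]
  refine Finset.sum_congr rfl fun i _ => ?_
  by_cases hi : (i : ℕ) < 5
  · simp [hi]
  · simp [hi]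

lemma th_eq (w : E 10) (hx : 0 < XX w) : th w = Real.arctan (sig w / rho w) := by
  have hr : 0 < rho w := Real.sqrt_pos.2 hx
  have h1 : |Complex.arg (⟨rho w, sig w⟩ : ℂ)| < Real.pi / 2 :=
    Complex.abs_arg_lt_pi_div_two_iff.2 (Or.inl hr)
  have h2 := abs_lt.1 h1
  have h3 : Real.tan (Complex.arg (⟨rho w, sig w⟩ : ℂ)) = sig w / rho w := Complex.tan_arg _
  unfold th
  rw [← h3, Real.arctan_tan h2.1 h2.2]

lemma normc (w : E 10) : ‖(⟨rho w, sig w⟩ : ℂ)‖ = ‖w‖ := by
  rw [norm_eq, Complex.norm_def, Complex.normSq_mk]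
  congr 1
  have h1 : 0 ≤ XX w := Finset.sum_nonneg fun i _ => by split_ifs <;> positivity
  have h2 : 0 ≤ YY w := Finset.sum_nonneg fun i _ => by split_ifs <;> positivity
  unfold rho sig
  rw [Real.mul_self_sqrt h1, Real.mul_self_sqrt h2]

lemma th_facts (w : E 10) (hx : 0 < XX w) (hy : 0 < YY w) :
    0 < th w ∧ th w < Real.pi / 2 ∧ Real.cos (th w) = rho w / ‖w‖ ∧
      Real.sin (th w) = sig w / ‖w‖ := by
  have hr : 0 < rho w := Real.sqrt_pos.2 hx
  have hs : 0 < sig w := Real.sqrt_pos.2 hy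
  refine ⟨?_, ?_, ?_, ?_⟩
  · rw [th_eq w hx]
    exact Real.arctan_pos.2 (div_pos hs hr)
  · rw [th_eq w hx]
    exact Real.arctan_lt_pi_div_two _
  · have hne : (⟨rho w, sig w⟩ : ℂ) ≠ 0 := by
      intro h
      have := congrArg Complex.re h
      simp at this
      linarith
    have := Complex.cos_arg hne
    rw [normc] at this
    exact this
  · have := Complex.sin_arg (⟨rho w, sig w⟩ : ℂ)
    rw [normc] at this
    exact this

lemma hasTh (z : E 10) (hx : 0 < XX z) (hy : 0 < YY z) :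
    HasFDerivAt th ((1 / (‖z‖ ^ 2)) • ((rho z / sig z) • dY z - (sig z / rho z) • dX z)) z := by
  have hr : 0 < rho z := Real.sqrt_pos.2 hx
  have hs : 0 < sig z := Real.sqrt_pos.2 hy
  have h1 : HasFDerivAt rho ((1 / (2 * √(XX z))) • ((2 : ℝ) • dX z)) z := (hasX z).sqrt hx.ne'
  have h2 : HasFDerivAt sig ((1 / (2 * √(YY z))) • ((2 : ℝ) • dY z)) z := (hasY z).sqrt hy.ne'
  have h3 : HasFDerivAt (fun w => sig w / rho w)
      ((1 / rho z) • ((1 / (2 * √(YY z))) • ((2 : ℝ) • dY z)) -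
        (sig z / rho z ^ 2) • ((1 / (2 * √(XX z))) • ((2 : ℝ) • dX z))) z := by
    have h0 : HasFDerivAt (fun w => (rho w)⁻¹)
        ((-(rho z ^ 2)⁻¹) • ((1 / (2 * √(XX z))) • ((2 : ℝ) • dX z))) z :=
      HasDerivAt.comp_hasFDerivAt z (hasDerivAt_inv hr.ne') h1
    have h4 := h2.fun_mul h0
    have h5 : (fun w => sig w / rho w) = fun w => sig w * (rho w)⁻¹ := by
      funext w
      rw [div_eq_mul_inv]
    rw [h5]
    refine h4.congr_fderiv ?_
    ext v
    simp only [ContinuousLinearMap.smul_apply, ContinuousLinearMap.sub_apply,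
      ContinuousLinearMap.add_apply, smul_eq_mul]
    ring
  have h5 := h3.arctan
  have h6 : th =ᶠ[nhds z] fun w => Real.arctan (sig w / rho w) := by
    have hc : ContinuousAt XX z := (hasX z).continuousAt
    filter_upwards [hc.eventually (lt_mem_nhds hx)] with w hw
    exact th_eq w hw
  have h7 := h5.congr_of_eventuallyEq h6
  refine h7.congr_fderiv ?_
  have hn : ‖z‖ ^ 2 = rho z ^ 2 + sig z ^ 2 := by
    rw [norm_eq, Real.sq_sqrt (by linarith)]
    unfold rho sig
    rw [Real.sq_sqrt hx.le, Real.sq_sqrt hy.le]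
  ext v
  simp only [ContinuousLinearMap.smul_apply, ContinuousLinearMap.sub_apply, smul_eq_mul]
  rw [hn]
  change 1 / (1 + (sig z / rho z) ^ 2) * (1 / rho z * (1 / (2 * sig z) * (2 * dY z v)) -
    sig z / rho z ^ 2 * (1 / (2 * rho z) * (2 * dX z v))) = _
  have hpos : rho z ^ 2 + sig z ^ 2 ≠ 0 := by positivity
  have hpos2 : 1 + (sig z / rho z) ^ 2 = (rho z ^ 2 + sig z ^ 2) / rho z ^ 2 := by
    field_simp
  rw [hpos2]
  field_simp

end GradAux

open GradAux in
/-- Q2. -/
theorem gradP : GradP := by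
  intro q α s G hq hq' hα hα' hP z hx hy
  have hr : 0 < rho z := Real.sqrt_pos.2 hx
  have hs : 0 < sig z := Real.sqrt_pos.2 hy
  obtain ⟨ht0, ht1, hcos, hsin⟩ := th_facts z hx hy
  have hz : 0 < ‖z‖ := by
    rw [norm_eq]
    exact Real.sqrt_pos.2 (by linarith)
  have hα0 : 0 < α := by linarith
  set θ := th z with hθ
  set S := s θ with hS
  have hD : 0 < DD q S := by
    unfold DD
    have h1 := Real.sin_sq_add_cos_sq S
    by_cases h2 : Real.sin S = 0
    · rw [h2] at h1 ⊢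
      nlinarith
    · have := sq_pos_of_ne_zero h2 |> mul_pos hq
      positivity
  have h1 : HasDerivAt (fun t => G t * Real.cos (s t) / α) (-(G θ * Real.sin S)) θ := by
    have h2 := (hP.derG θ ht0 ht1).mul ((hP.ders θ ht0 ht1).cos)
    have h3 := h2.div_const α
    refine h3.congr_deriv ?_
    rw [← hS]
    have h4 : HH q α θ S * Real.cos S - RR q α θ S * Real.sin S = -(α * Real.sin S) := by
      unfold HH RR
      have hD' : DD q S ≠ 0 := hD.ne'
      field_simp
      unfold DD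
      ring
    field_simp
    linear_combination (G θ) * h4
  have h2 : HasFDerivAt (fun w => G (th w) * Real.cos (s (th w)) / α)
      ((-(G θ * Real.sin S)) •
        ((1 / (‖z‖ ^ 2)) • ((rho z / sig z) • dY z - (sig z / rho z) • dX z))) z :=
    HasDerivAt.comp_hasFDerivAt (h₂ := fun t => G t * Real.cos (s t) / α) z h1 (hasTh z hx hy)
  have h3 : HasFDerivAt (fun w : E 10 => ‖w‖ ^ α)
      ((α * ‖z‖ ^ (α - 2)) • (dX z + dY z)) z := by
    have h4 : (fun w : E 10 => ‖w‖ ^ α) = fun w => (XX w + YY w) ^ (α / 2) := by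
      funext w
      have h5 : 0 ≤ XX w := Finset.sum_nonneg fun i _ => by split_ifs <;> positivity
      have h6 : 0 ≤ YY w := Finset.sum_nonneg fun i _ => by split_ifs <;> positivity
      rw [norm_eq, Real.sqrt_eq_rpow, ← Real.rpow_mul (by linarith)]
      congr 1
      ring
    rw [h4]
    have h5 := ((hasX z).fun_add (hasY z)).rpow_const (p := α / 2) (Or.inl (by positivity))
    refine h5.congr_fderiv ?_
    have h6 : (XX z + YY z) ^ (α / 2 - 1) = ‖z‖ ^ (α - 2) := by
      rw [norm_eq, Real.sqrt_eq_rpow, ← Real.rpow_mul (by linarith)]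
      congr 1
      ring
    ext v
    simp only [ContinuousLinearMap.smul_apply, ContinuousLinearMap.add_apply, smul_eq_mul]
    rw [h6]
    ring
  have h4 := h3.mul h2
  refine h4.congr_fderiv ?_
  have h5 : (∑ k, Du α s G k z • (EuclideanSpace.proj k : E 10 →L[ℝ] ℝ)) =
      (‖z‖ ^ (α - 1) * G θ * (Real.cos (S - θ) / rho z)) • dX z +
      (-(‖z‖ ^ (α - 1) * G θ * (Real.sin (S - θ) / sig z))) • dY z := by
    rw [dX, dY, Finset.smul_sum, Finset.smul_sum, ← Finset.sum_add_distrib]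
    refine Finset.sum_congr rfl fun k _ => ?_
    rw [smul_smul, smul_smul, ← add_smul]
    congr 1
    unfold Du ee
    by_cases hk : (k : ℕ) < 5
    · simp only [hk, if_true]
      ring
    · simp only [hk, if_false]
      ring
  rw [h5]
  have h6 : ‖z‖ ^ (α - 1) = ‖z‖ ^ (α - 2) * ‖z‖ := by
    rw [show α - 1 = (α - 2) + 1 by ring, Real.rpow_add hz, Real.rpow_one]
  have h7 : ‖z‖ ^ α = ‖z‖ ^ (α - 2) * ‖z‖ ^ 2 := by
    rw [show α = (α - 2) + 2 by ring, Real.rpow_add hz]
    norm_num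
  have h8 : Real.cos (S - θ) = (Real.cos S * rho z + Real.sin S * sig z) / ‖z‖ := by
    rw [Real.cos_sub, hcos, hsin]
    ring
  have h9 : Real.sin (S - θ) = (Real.sin S * rho z - Real.cos S * sig z) / ‖z‖ := by
    rw [Real.sin_sub, hcos, hsin]
    ring
  ext v
  simp only [ContinuousLinearMap.smul_apply, ContinuousLinearMap.add_apply,
    ContinuousLinearMap.sub_apply, smul_eq_mul]
  rw [h6, h7, h8, h9]
  simp only [← hθ, ← hS]
  field_simp
  ring

end Pool.Agent.R271.PJ
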