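import Pool.Agent.R271.PJ.Stm

set_option autoImplicit false

open MeasureTheory

namespace Pool.Agent.R271.PJ

namespace LowAux

theorem poly (A B q : ℝ) :
    (9 + 3 / 2 * q) * (A ^ 5 - B ^ 5) *
        ((A ^ 3 * B ^ 2 + A ^ 2 * B ^ 3) ^ 2 + (A ^ 5 - B ^ 5) ^ 2) -
      4 * (A ^ 4 - B ^ 4) * (A + B) *
        ((A ^ 3 * B ^ 2 + A ^ 2 * B ^ 3) ^ 2 + (A ^ 5 - B ^ 5) ^ 2) -
      (A ^ 5 - B ^ 5 + 3 / 2 * (A ^ 4 * B - A * B ^ 4)) *
        ((A ^ 5 - B ^ 5) ^ 2 + q * (A ^ 3 * B ^ 2 + A ^ 2 * B ^ 3) ^ 2) +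
      (q - 1) * (5 / 2) * (A ^ 3 * B ^ 2 + A ^ 2 * B ^ 3) ^ 2 * (A ^ 5 - B ^ 5) =
    (11 / 2 * (A ^ 6 + B ^ 6) * (A - B) + 3 / 2 * (q - 1) * (A ^ 7 - B ^ 7)) *
      (A ^ 4 + B ^ 4) ^ 2 := by
  ring

theorem posQ {A B q : ℝ} (hB : 0 ≤ B) (hAB : B ≤ A) (hq : 0 ≤ q) :
    0 ≤ 11 / 2 * (A ^ 6 + B ^ 6) * (A - B) + 3 / 2 * (q - 1) * (A ^ 7 - B ^ 7) := by
  have hA : 0 ≤ A := hB.trans hAB
  have h7 : B ^ 7 ≤ A ^ 7 := pow_le_pow_left₀ hB hAB 7
  have h5 : B ^ 5 ≤ A ^ 5 := pow_le_pow_left₀ hB hAB 5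
  have h4 : B ^ 4 ≤ A ^ 4 := pow_le_pow_left₀ hB hAB 4
  have h2 : B ^ 2 ≤ A ^ 2 := pow_le_pow_left₀ hB hAB 2
  have e1 : 11 / 2 * (A ^ 6 + B ^ 6) * (A - B) + 3 / 2 * (q - 1) * (A ^ 7 - B ^ 7) =
      (A - B) * (4 * (A ^ 6 + B ^ 6) -
        3 / 2 * ((A ^ 5 * B + A * B ^ 5) + (A ^ 4 * B ^ 2 + A ^ 2 * B ^ 4) + A ^ 3 * B ^ 3)) +
      3 / 2 * q * (A ^ 7 - B ^ 7) := by ring
  have s1 : A ^ 5 * B + A * B ^ 5 ≤ A ^ 6 + B ^ 6 := by
    nlinarith [mul_nonneg (sub_nonneg.2 h5) (sub_nonneg.2 hAB)]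
  have s2 : A ^ 4 * B ^ 2 + A ^ 2 * B ^ 4 ≤ A ^ 6 + B ^ 6 := by
    nlinarith [mul_nonneg (sub_nonneg.2 h4) (sub_nonneg.2 h2)]
  have s3 : A ^ 3 * B ^ 3 ≤ 1 / 2 * (A ^ 6 + B ^ 6) := by
    nlinarith [sq_nonneg (A ^ 3 - B ^ 3)]
  have s4 : 0 ≤ A ^ 6 + B ^ 6 := by positivity
  rw [e1]
  have t1 : 0 ≤ (A - B) * (4 * (A ^ 6 + B ^ 6) -
        3 / 2 * ((A ^ 5 * B + A * B ^ 5) + (A ^ 4 * B ^ 2 + A ^ 2 * B ^ 4) + A ^ 3 * B ^ 3)) :=
    mul_nonneg (sub_nonneg.2 hAB) (by linarith)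
  have t2 : 0 ≤ 3 / 2 * q * (A ^ 7 - B ^ 7) :=
    mul_nonneg (by positivity) (sub_nonneg.2 h7)
  linarith

theorem alg0 (f e e1 w q : ℝ) (he : e ≠ 0) :
    ((9 + 3 / 2 * q) * (f / e) ^ 2 - (w / e) * (f / e) + 5 / 2 * q) * (1 + (f / e) ^ 2) +
      ((-(5 / 2) * e * e - f * e1) / e ^ 2) * ((f / e) ^ 2 + q) =
    f * ((9 + 3 / 2 * q) * f * (e ^ 2 + f ^ 2) - w * (e ^ 2 + f ^ 2) - e1 * (f ^ 2 + q * e ^ 2) +
      (q - 1) * (5 / 2) * e ^ 2 * f) / e ^ 4 := by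
  field_simp
  ring

theorem alg {A B q : ℝ} (hB : 0 < B) (hAB : B ≤ A) (hq : 0 ≤ q) :
    0 ≤ ((9 + 3 / 2 * q) * ((A ^ 5 - B ^ 5) / (A ^ 3 * B ^ 2 + A ^ 2 * B ^ 3)) ^ 2 -
        (4 * (A ^ 4 - B ^ 4) / (A ^ 2 * B ^ 2)) *
          ((A ^ 5 - B ^ 5) / (A ^ 3 * B ^ 2 + A ^ 2 * B ^ 3)) + 5 / 2 * q) *
        (1 + ((A ^ 5 - B ^ 5) / (A ^ 3 * B ^ 2 + A ^ 2 * B ^ 3)) ^ 2) +
      ((-(5 / 2) * (A ^ 3 * B ^ 2 + A ^ 2 * B ^ 3) * (A ^ 3 * B ^ 2 + A ^ 2 * B ^ 3) -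
        (A ^ 5 - B ^ 5) * (A ^ 5 - B ^ 5 + 3 / 2 * (A ^ 4 * B - A * B ^ 4))) /
        (A ^ 3 * B ^ 2 + A ^ 2 * B ^ 3) ^ 2) *
        (((A ^ 5 - B ^ 5) / (A ^ 3 * B ^ 2 + A ^ 2 * B ^ 3)) ^ 2 + q) := by
  have hA : 0 < A := hB.trans_le hAB
  have he : 0 < A ^ 3 * B ^ 2 + A ^ 2 * B ^ 3 := by positivity
  have hW : 4 * (A ^ 4 - B ^ 4) / (A ^ 2 * B ^ 2) =
      (4 * (A ^ 4 - B ^ 4) * (A + B)) / (A ^ 3 * B ^ 2 + A ^ 2 * B ^ 3) := by
    rw [div_eq_div_iff (by positivity) he.ne']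
    ring
  rw [hW, alg0 _ _ _ _ _ he.ne', poly]
  have h5 : B ^ 5 ≤ A ^ 5 := pow_le_pow_left₀ hB.le hAB 5
  have h1 := posQ hB.le hAB hq
  have h2 : 0 ≤ A ^ 5 - B ^ 5 := sub_nonneg.2 h5
  positivity

/-! ### the functions -/

noncomputable def fA (x : ℝ) : ℝ := √(Real.cos x)
noncomputable def fB (x : ℝ) : ℝ := √(Real.sin x)
noncomputable def fv (x : ℝ) : ℝ := fA x ^ 5 - fB x ^ 5
noncomputable def ev (x : ℝ) : ℝ := fA x ^ 3 * fB x ^ 2 + fA x ^ 2 * fB x ^ 3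
noncomputable def ev1 (x : ℝ) : ℝ :=
  fA x ^ 5 - fB x ^ 5 + 3 / 2 * (fA x ^ 4 * fB x - fA x * fB x ^ 4)
noncomputable def ka (x : ℝ) : ℝ := fv x / ev x
noncomputable def sb2 (x : ℝ) : ℝ := Real.pi / 2 - Real.arctan (ka x)

theorem facts {x : ℝ} (h0 : 0 < x) (h1 : x < Real.pi / 2) :
    0 < Real.cos x ∧ 0 < Real.sin x ∧ 0 < fA x ∧ 0 < fB x ∧ fA x ^ 2 = Real.cos x ∧
      fB x ^ 2 = Real.sin x := by
  have hc : 0 < Real.cos x := Real.cos_pos_of_mem_Ioo ⟨by linarith [Real.pi_pos], h1⟩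
  have hs : 0 < Real.sin x := Real.sin_pos_of_pos_of_lt_pi h0 (by linarith [Real.pi_pos])
  exact ⟨hc, hs, Real.sqrt_pos.2 hc, Real.sqrt_pos.2 hs, Real.sq_sqrt hc.le, Real.sq_sqrt hs.le⟩

theorem dA {x : ℝ} (h0 : 0 < x) (h1 : x < Real.pi / 2) :
    HasDerivAt fA (-(fB x ^ 2) / (2 * fA x)) x := by
  obtain ⟨hc, hs, hA, hB, eA, eB⟩ := facts h0 h1
  have h := (Real.hasDerivAt_cos x).sqrt hc.ne'
  rw [eB]
  exact h

theorem dB {x : ℝ} (h0 : 0 < x) (h1 : x < Real.pi / 2) :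
    HasDerivAt fB (fA x ^ 2 / (2 * fB x)) x := by
  obtain ⟨hc, hs, hA, hB, eA, eB⟩ := facts h0 h1
  have h := (Real.hasDerivAt_sin x).sqrt hs.ne'
  rw [eA]
  exact h

theorem dfv {x : ℝ} (h0 : 0 < x) (h1 : x < Real.pi / 2) :
    HasDerivAt fv (-(5 / 2) * ev x) x := by
  obtain ⟨hc, hs, hA, hB, eA, eB⟩ := facts h0 h1
  have h := ((dA h0 h1).pow 5).sub ((dB h0 h1).pow 5)
  refine h.congr_deriv ?_
  unfold ev
  field_simp
  ring

theorem dev {x : ℝ} (h0 : 0 < x) (h1 : x < Real.pi / 2) :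
    HasDerivAt ev (ev1 x) x := by
  obtain ⟨hc, hs, hA, hB, eA, eB⟩ := facts h0 h1
  have h := (((dA h0 h1).pow 3).mul ((dB h0 h1).pow 2)).add
    (((dA h0 h1).pow 2).mul ((dB h0 h1).pow 3))
  refine h.congr_deriv ?_
  unfold ev1
  simp only [Pi.pow_apply]
  field_simp
  ring

theorem ev_pos {x : ℝ} (h0 : 0 < x) (h1 : x < Real.pi / 2) : 0 < ev x := by
  obtain ⟨hc, hs, hA, hB, eA, eB⟩ := facts h0 h1
  unfold ev
  positivity

theorem dka {x : ℝ} (h0 : 0 < x) (h1 : x < Real.pi / 2) :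
    HasDerivAt ka ((-(5 / 2) * ev x * ev x - fv x * ev1 x) / ev x ^ 2) x :=
  (dfv h0 h1).div (dev h0 h1) (ev_pos h0 h1).ne'

theorem dsb2 {x : ℝ} (h0 : 0 < x) (h1 : x < Real.pi / 2) :
    HasDerivAt sb2 (-(1 / (1 + ka x ^ 2) *
      ((-(5 / 2) * ev x * ev x - fv x * ev1 x) / ev x ^ 2))) x := by
  have h := ((dka h0 h1).arctan).const_sub (Real.pi / 2)
  exact h

theorem WW_eq {x : ℝ} (h0 : 0 < x) (h1 : x < Real.pi / 2) :
    WW x = 4 * (fA x ^ 4 - fB x ^ 4) / (fA x ^ 2 * fB x ^ 2) := by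
  obtain ⟨hc, hs, hA, hB, eA, eB⟩ := facts h0 h1
  have e4 : fA x ^ 4 = Real.cos x ^ 2 := by rw [← eA]; ring
  have e5 : fB x ^ 4 = Real.sin x ^ 2 := by rw [← eB]; ring
  unfold WW
  rw [e4, e5, eA, eB, Real.sin_two_mul, Real.cos_two_mul']
  field_simp
  ring

theorem RR_sb2 {q : ℝ} (hq : 0 < q) (x κ : ℝ) :
    RR q (5 / 2) x (Real.pi / 2 - Real.arctan κ) =
      ((9 + 3 / 2 * q) * κ ^ 2 - WW x * κ + 5 / 2 * q) / (κ ^ 2 + q) := by
  have h1 : (0 : ℝ) < 1 + κ ^ 2 := by positivity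
  have hs := Real.sin_sq_arctan κ
  have hc := Real.cos_sq_arctan κ
  have hm : Real.cos (Real.arctan κ) * Real.sin (Real.arctan κ) = κ / (1 + κ ^ 2) := by
    have hne : Real.cos (Real.arctan κ) ≠ 0 := (Real.cos_arctan_pos κ).ne'
    have ht := Real.tan_arctan κ
    rw [Real.tan_eq_sin_div_cos, div_eq_iff hne] at ht
    rw [ht]
    calc Real.cos (Real.arctan κ) * (κ * Real.cos (Real.arctan κ)) =
        κ * Real.cos (Real.arctan κ) ^ 2 := by ring
      _ = _ := by rw [hc]; ring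
  unfold RR DD NN
  rw [Real.sin_pi_div_two_sub, Real.cos_pi_div_two_sub, hs, hc, hm]
  rw [div_eq_div_iff (by positivity) (by positivity)]
  field_simp
  ring

theorem key {q : ℝ} (hq : 0 < q) {x : ℝ} (h0 : 0 < x) (h1 : x ≤ Real.pi / 4) :
    -(1 / (1 + ka x ^ 2) * ((-(5 / 2) * ev x * ev x - fv x * ev1 x) / ev x ^ 2)) ≤
      RR q (5 / 2) x (sb2 x) := by
  have h2 : x < Real.pi / 2 := by linarith [Real.pi_pos]
  obtain ⟨hc, hs, hA, hB, eA, eB⟩ := facts h0 h2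
  have hAB : fB x ≤ fA x := by
    apply Real.sqrt_le_sqrt
    rw [← Real.cos_pi_div_two_sub]
    apply Real.cos_le_cos_of_nonneg_of_le_pi h0.le
    · linarith [Real.pi_pos]
    · linarith
  have h3 := alg hB hAB hq.le
  unfold sb2
  rw [RR_sb2 hq, WW_eq h0 h2]
  have hk : (0 : ℝ) < 1 + ka x ^ 2 := by positivity
  rw [le_div_iff₀ (by positivity)]
  have h4 : -(1 / (1 + ka x ^ 2) * ((-(5 / 2) * ev x * ev x - fv x * ev1 x) / ev x ^ 2)) *
      (ka x ^ 2 + q) =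
      -(((-(5 / 2) * ev x * ev x - fv x * ev1 x) / ev x ^ 2) * (ka x ^ 2 + q)) /
        (1 + ka x ^ 2) := by ring
  rw [h4, div_le_iff₀ hk]
  have h5 : 0 ≤ ((9 + 3 / 2 * q) * ka x ^ 2 -
      (4 * (fA x ^ 4 - fB x ^ 4) / (fA x ^ 2 * fB x ^ 2)) * ka x + 5 / 2 * q) *
      (1 + ka x ^ 2) +
      ((-(5 / 2) * ev x * ev x - fv x * ev1 x) / ev x ^ 2) * (ka x ^ 2 + q) := h3
  linarith

/-! ### Lipschitz bound -/

theorem cos_lip (a b : ℝ) : |Real.cos a - Real.cos b| ≤ |a - b| := by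
  have h := Convex.norm_image_sub_le_of_norm_hasDerivWithin_le (f := Real.cos)
    (f' := fun x => -Real.sin x) (C := 1) (s := Set.univ) (x := b) (y := a)
    (fun x _ => (Real.hasDerivAt_cos x).hasDerivWithinAt)
    (fun x _ => by rw [norm_neg]; exact Real.abs_sin_le_one x) convex_univ (Set.mem_univ _)
    (Set.mem_univ _)
  rw [one_mul] at h
  exact h

theorem sin_lip (a b : ℝ) : |Real.sin a - Real.sin b| ≤ |a - b| := by
  have h := Convex.norm_image_sub_le_of_norm_hasDerivWithin_le (f := Real.sin)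
    (f' := fun x => Real.cos x) (C := 1) (s := Set.univ) (x := b) (y := a)
    (fun x _ => (Real.hasDerivAt_sin x).hasDerivWithinAt)
    (fun x _ => Real.abs_cos_le_one x) convex_univ (Set.mem_univ _)
    (Set.mem_univ _)
  rw [one_mul] at h
  exact h

theorem cos2_lip (a b : ℝ) : |Real.cos a ^ 2 - Real.cos b ^ 2| ≤ 2 * |a - b| := by
  have e : Real.cos a ^ 2 - Real.cos b ^ 2 =
      (Real.cos a - Real.cos b) * (Real.cos a + Real.cos b) := by ring
  rw [e, abs_mul, mul_comm]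
  refine mul_le_mul ?_ (cos_lip a b) (abs_nonneg _) (by norm_num)
  refine (abs_add_le _ _).trans ?_
  linarith [Real.abs_cos_le_one a, Real.abs_cos_le_one b]

theorem sin2_lip (a b : ℝ) : |Real.sin a ^ 2 - Real.sin b ^ 2| ≤ 2 * |a - b| := by
  have e : Real.sin a ^ 2 - Real.sin b ^ 2 =
      (Real.sin a - Real.sin b) * (Real.sin a + Real.sin b) := by ring
  rw [e, abs_mul, mul_comm]
  refine mul_le_mul ?_ (sin_lip a b) (abs_nonneg _) (by norm_num)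
  refine (abs_add_le _ _).trans ?_
  linarith [Real.abs_sin_le_one a, Real.abs_sin_le_one b]

theorem sc_lip (a b : ℝ) :
    |Real.sin a * Real.cos a - Real.sin b * Real.cos b| ≤ 2 * |a - b| := by
  have e : Real.sin a * Real.cos a - Real.sin b * Real.cos b =
      (Real.sin a - Real.sin b) * Real.cos a + Real.sin b * (Real.cos a - Real.cos b) := by ring
  rw [e]
  refine (abs_add_le _ _).trans ?_
  rw [abs_mul, abs_mul]
  have h1 : |Real.sin a - Real.sin b| * |Real.cos a| ≤ |a - b| * 1 :=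
    mul_le_mul (sin_lip a b) (Real.abs_cos_le_one a) (abs_nonneg _) (abs_nonneg _)
  have h2 : |Real.sin b| * |Real.cos a - Real.cos b| ≤ 1 * |a - b| :=
    mul_le_mul (Real.abs_sin_le_one b) (cos_lip a b) (abs_nonneg _) zero_le_one
  linarith

theorem RR_lip {q : ℝ} (hq : 0 < q) (hq1 : q ≤ 1) (W0 x a b : ℝ) (hW : |WW x| ≤ W0) :
    |RR q (5 / 2) x a - RR q (5 / 2) x b| ≤
      (6 * (9 + 3 / 2 * q + W0 + 5 / 2 * q) / q ^ 2) * |a - b| := by
  have hd : ∀ s : ℝ, q ≤ DD q s ∧ DD q s ≤ 1 := by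
    intro s
    have h := Real.sin_sq_add_cos_sq s
    have h1 := sq_nonneg (Real.sin s)
    have h2 := sq_nonneg (Real.cos s)
    unfold DD
    constructor <;> nlinarith
  set n : ℝ → ℝ := fun s => NN q (5 / 2) * Real.cos s ^ 2 -
    WW x * (Real.sin s * Real.cos s) + q * (5 / 2) * Real.sin s ^ 2 with hn
  have hN : NN q (5 / 2) = 9 + 3 / 2 * q := by
    unfold NN
    ring
  have hW0 : 0 ≤ W0 := (abs_nonneg _).trans hW
  set M : ℝ := 9 + 3 / 2 * q + W0 + 5 / 2 * q with hM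
  have hM0 : 0 ≤ M := by positivity
  set δ : ℝ := |a - b| with hδ
  have hδ0 : 0 ≤ δ := abs_nonneg _
  have hn1 : |n a - n b| ≤ 2 * M * δ := by
    have e : n a - n b = NN q (5 / 2) * (Real.cos a ^ 2 - Real.cos b ^ 2) -
        WW x * (Real.sin a * Real.cos a - Real.sin b * Real.cos b) +
        q * (5 / 2) * (Real.sin a ^ 2 - Real.sin b ^ 2) := by
      rw [hn]
      ring
    rw [e, hN]
    refine (abs_add_le _ _).trans ?_
    have t1 : |(9 + 3 / 2 * q) * (Real.cos a ^ 2 - Real.cos b ^ 2) -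
        WW x * (Real.sin a * Real.cos a - Real.sin b * Real.cos b)| ≤
        (9 + 3 / 2 * q) * (2 * δ) + W0 * (2 * δ) := by
      refine (abs_sub _ _).trans ?_
      rw [abs_mul, abs_mul, abs_of_nonneg (show (0 : ℝ) ≤ 9 + 3 / 2 * q by positivity)]
      exact add_le_add (mul_le_mul_of_nonneg_left (cos2_lip a b) (by positivity))
        (mul_le_mul hW (sc_lip a b) (abs_nonneg _) hW0)
    have t2 : |q * (5 / 2) * (Real.sin a ^ 2 - Real.sin b ^ 2)| ≤ q * (5 / 2) * (2 * δ) := by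
      rw [abs_mul, abs_of_nonneg (show (0 : ℝ) ≤ q * (5 / 2) by positivity)]
      exact mul_le_mul_of_nonneg_left (sin2_lip a b) (by positivity)
    refine (add_le_add t1 t2).trans (le_of_eq ?_)
    rw [hM]
    ring
  have hn2 : |n b| ≤ M := by
    rw [hn]
    simp only
    rw [hN]
    refine (abs_add_le _ _).trans ?_
    have t1 : |(9 + 3 / 2 * q) * Real.cos b ^ 2 - WW x * (Real.sin b * Real.cos b)| ≤
        (9 + 3 / 2 * q) * 1 + W0 * (1 * 1) := by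
      refine (abs_sub _ _).trans ?_
      rw [abs_mul, abs_mul, abs_mul (Real.sin b),
        abs_of_nonneg (show (0 : ℝ) ≤ 9 + 3 / 2 * q by positivity),
        abs_of_nonneg (sq_nonneg (Real.cos b))]
      refine add_le_add (mul_le_mul_of_nonneg_left ?_ (by positivity)) ?_
      · nlinarith [Real.sin_sq_add_cos_sq b, sq_nonneg (Real.sin b)]
      · exact mul_le_mul hW (mul_le_mul (Real.abs_sin_le_one b) (Real.abs_cos_le_one b)
          (abs_nonneg _) zero_le_one) (by positivity) hW0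
    have t2 : |q * (5 / 2) * Real.sin b ^ 2| ≤ q * (5 / 2) * 1 := by
      rw [abs_mul, abs_of_nonneg (show (0 : ℝ) ≤ q * (5 / 2) by positivity),
        abs_of_nonneg (sq_nonneg (Real.sin b))]
      refine mul_le_mul_of_nonneg_left ?_ (by positivity)
      nlinarith [Real.sin_sq_add_cos_sq b, sq_nonneg (Real.cos b)]
    refine (add_le_add t1 t2).trans (le_of_eq ?_)
    rw [hM]
    ring
  have hd1 : |DD q a - DD q b| ≤ 4 * δ := by
    have e : DD q a - DD q b = (Real.cos a ^ 2 - Real.cos b ^ 2) +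
        q * (Real.sin a ^ 2 - Real.sin b ^ 2) := by
      unfold DD
      ring
    rw [e]
    refine (abs_add_le _ _).trans ?_
    rw [abs_mul, abs_of_pos hq]
    have t1 := cos2_lip a b
    have t2 : q * |Real.sin a ^ 2 - Real.sin b ^ 2| ≤ 1 * (2 * δ) :=
      mul_le_mul hq1 (sin2_lip a b) (abs_nonneg _) zero_le_one
    linarith
  have hRa : RR q (5 / 2) x a = n a / DD q a := rfl
  have hRb : RR q (5 / 2) x b = n b / DD q b := rfl
  have da : 0 < DD q a := hq.trans_le (hd a).1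
  have db : 0 < DD q b := hq.trans_le (hd b).1
  have e : RR q (5 / 2) x a - RR q (5 / 2) x b =
      ((n a - n b) * DD q b - n b * (DD q a - DD q b)) / (DD q a * DD q b) := by
    rw [hRa, hRb]
    field_simp
    ring
  rw [e, abs_div, abs_of_pos (mul_pos da db), div_le_iff₀ (mul_pos da db)]
  have h1 : |(n a - n b) * DD q b - n b * (DD q a - DD q b)| ≤ 6 * M * δ := by
    refine (abs_sub _ _).trans ?_
    rw [abs_mul, abs_mul, abs_of_pos db]
    have t1 : |n a - n b| * DD q b ≤ 2 * M * δ * 1 :=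
      mul_le_mul hn1 (hd b).2 db.le (by positivity)
    have t2 : |n b| * |DD q a - DD q b| ≤ M * (4 * δ) :=
      mul_le_mul hn2 hd1 (abs_nonneg _) hM0
    linarith
  refine h1.trans ?_
  have h2 : q ^ 2 ≤ DD q a * DD q b := by
    rw [sq]
    exact mul_le_mul (hd a).1 (hd b).1 hq.le da.le
  have h3 : 6 * M * δ = 6 * M / q ^ 2 * δ * q ^ 2 := by
    field_simp
  rw [h3]
  exact mul_le_mul_of_nonneg_left h2 (by positivity)

end LowAux

open LowAux in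
theorem lowP : LowP := by
  intro q s hq hq2 hs θ hθ0 hθ1
  have hpi := Real.pi_pos
  -- `sb = sb2`
  have hsb : sb θ = sb2 θ := by
    have h2 : θ < Real.pi / 2 := by linarith
    obtain ⟨hc, hss, hA, hB, eA, eB⟩ := facts hθ0 h2
    have hAB : fB θ < fA θ := by
      apply Real.sqrt_lt_sqrt hss.le
      rw [← Real.cos_pi_div_two_sub]
      apply Real.cos_lt_cos_of_nonneg_of_le_pi hθ0.le
      · linarith
      · linarith
    have hf : 0 < fv θ := by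
      unfold fv
      have := pow_lt_pow_left₀ hAB hB.le (n := 5) (by norm_num)
      linarith
    have hk : 0 < ka θ := div_pos hf (ev_pos hθ0 h2)
    unfold sb sb2
    rw [← Real.arctan_inv_of_pos hk]
    congr 1
    unfold ka
    rw [inv_div]
    have ra : √(Real.cos θ) = fA θ := rfl
    have rb : √(Real.sin θ) = fB θ := rfl
    rw [ra, rb, ← eA, ← eB]
    congr 1
    · unfold ev
      ring
    · unfold fv
      ring
  rw [hsb]
  by_contra hcon
  push Not at hcon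
  -- bound of WW
  have hWc : ContinuousOn WW (Set.Icc θ (Real.pi / 4)) := by
    unfold WW
    refine continuousOn_const.mul (ContinuousOn.div ?_ ?_ ?_)
    · exact (Real.continuous_cos.comp (continuous_const.mul continuous_id)).continuousOn
    · exact (Real.continuous_sin.comp (continuous_const.mul continuous_id)).continuousOn
    · intro x hx
      have : 0 < Real.sin (2 * x) :=
        Real.sin_pos_of_pos_of_lt_pi (by linarith [hx.1]) (by linarith [hx.2])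
      exact this.ne'
  obtain ⟨W0, hW0⟩ := isCompact_Icc.exists_bound_of_continuousOn hWc
  set L : ℝ := 6 * (9 + 3 / 2 * q + W0 + 5 / 2 * q) / q ^ 2 with hL
  set c : ℝ := s θ - sb2 θ with hc
  have hc0 : 0 < c := by linarith
  have hds : ∀ x ∈ Set.Icc θ (Real.pi / 4), HasDerivAt s (RR q (5 / 2) x (s x)) x := fun x hx =>
    hs.ode x (by linarith [hx.1]) (by linarith [hx.2])
  have hdb : ∀ x ∈ Set.Icc θ (Real.pi / 4), HasDerivAt sb2 (-(1 / (1 + ka x ^ 2) *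
      ((-(5 / 2) * ev x * ev x - fv x * ev1 x) / ev x ^ 2))) x := fun x hx =>
    dsb2 (by linarith [hx.1]) (by linarith [hx.2])
  have hcmp := image_le_of_deriv_right_lt_deriv_boundary (f := fun x => sb2 x - s x)
    (f' := fun x => -(1 / (1 + ka x ^ 2) *
      ((-(5 / 2) * ev x * ev x - fv x * ev1 x) / ev x ^ 2)) - RR q (5 / 2) x (s x))
    (a := θ) (b := Real.pi / 4)
    (B := fun x => -(c * Real.exp (-(L + 1) * (x - θ))))
    (B' := fun x => -(c * (Real.exp (-(L + 1) * (x - θ)) * (-(L + 1) * 1))))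
    (fun x hx => ((hdb x hx).continuousAt.sub (hds x hx).continuousAt).continuousWithinAt)
    (fun x hx => ((hdb x ⟨hx.1, hx.2.le⟩).sub (hds x ⟨hx.1, hx.2.le⟩)).hasDerivWithinAt)
    (by
      simp only [sub_self, mul_zero, Real.exp_zero, mul_one]
      linarith)
    (fun x => by
      have h1 : HasDerivAt (fun x : ℝ => -(L + 1) * (x - θ)) (-(L + 1) * 1) x :=
        ((hasDerivAt_id x).sub_const θ).const_mul _
      exact ((h1.exp).const_mul c).neg)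
    (by
      intro x hx heq
      have hx0 : 0 < x := hθ0.trans_le hx.1
      have h1 := key hq hx0 hx.2.le
      have h2 := RR_lip hq (by linarith) W0 x (sb2 x) (s x) (hW0 x ⟨hx.1, hx.2.le⟩)
      have hγ : 0 < c * Real.exp (-(L + 1) * (x - θ)) := by positivity
      have h3 : |sb2 x - s x| = c * Real.exp (-(L + 1) * (x - θ)) := by
        rw [heq, abs_neg, abs_of_pos hγ]
      rw [h3] at h2
      have h4 := (le_abs_self _).trans h2
      have h5 : -(c * (Real.exp (-(L + 1) * (x - θ)) * (-(L + 1) * 1))) =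
          L * (c * Real.exp (-(L + 1) * (x - θ))) + c * Real.exp (-(L + 1) * (x - θ)) := by ring
      rw [h5]
      linarith)
  have h1 := hcmp (x := Real.pi / 4) ⟨hθ1.le, le_rfl⟩
  have hka : ka (Real.pi / 4) = 0 := by
    unfold ka fv fA fB
    rw [Real.cos_pi_div_four, Real.sin_pi_div_four, sub_self, zero_div]
  have h2 : sb2 (Real.pi / 4) = Real.pi / 2 := by
    unfold sb2
    rw [hka, Real.arctan_zero, sub_zero]
  rw [h2, hs.mid, sub_self] at h1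
  have h3 : 0 < c * Real.exp (-(L + 1) * (Real.pi / 4 - θ)) := by positivity
  linarith

end Pool.Agent.R271.PJ
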