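import Pool.Agent.R271.PJ.Stm

set_option autoImplicit false

open MeasureTheory Filter Topology

namespace Pool.Agent.R271.PJ.MainAux

open Pool.Agent.R271.PJ

theorem memLp_of_cont {F : Type} [NormedAddCommGroup F] {d : ℕ} (f : E d → F)
    (hf : Continuous f) (q : ENNReal) (K : Set (E d)) (hK : IsCompact K) :
    MemLp f q (volume.restrict K) := by
  have : IsFiniteMeasure (volume.restrict K) := ⟨by
    rw [Measure.restrict_apply_univ]
    exact hK.measure_lt_top⟩
  obtain ⟨C, hC⟩ := hK.exists_bound_of_continuousOn hf.continuousOn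
  refine MemLp.of_bound ?_ C ?_
  · exact hf.continuousOn.aestronglyMeasurable_of_isCompact hK hK.measurableSet
  · exact (ae_restrict_iff' hK.measurableSet).mpr (Filter.Eventually.of_forall hC)

theorem int_of_cont (φ : E 10 → ℝ) (hφ : ContDiff ℝ (⊤ : ℕ∞) φ) (hc : HasCompactSupport φ)
    (g : E 10 → ℝ) (hg : Continuous g) (k : Fin 10) :
    Integrable (fun x => g x * fderiv ℝ φ x (unit k)) := by
  have hcont : Continuous (fun x => fderiv ℝ φ x (unit k)) :=
    (hφ.continuous_fderiv (by simp)).clm_apply continuous_const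
  refine Continuous.integrable_of_hasCompactSupport (hg.mul hcont) ?_
  refine HasCompactSupport.mul_left ?_
  have := hc.fderiv (𝕜 := ℝ)
  exact this.comp_left (g := fun L : E 10 →L[ℝ] ℝ => L (unit k)) rfl

theorem int_of_cont' (φ : E 10 → ℝ) (hφ : ContDiff ℝ (⊤ : ℕ∞) φ) (hc : HasCompactSupport φ)
    (g : E 10 → ℝ) (hg : Continuous g) :
    Integrable (fun x => g x * φ x) :=
  Continuous.integrable_of_hasCompactSupport (hg.mul hφ.continuous) hc.mul_left

theorem sum_proj {d : ℕ} (c : Fin d → ℝ) (j : Fin d) :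
    (∑ k, c k • (EuclideanSpace.proj k : E d →L[ℝ] ℝ)) (unit j) = c j := by
  classical
  rw [ContinuousLinearMap.sum_apply, Finset.sum_eq_single j]
  · simp [unit]
  · intro b _ hb
    simp [unit, hb]
  · intro h
    exact absurd (Finset.mem_univ j) h

theorem th_mem (z : E 10) : th z ∈ Set.Icc 0 (Real.pi / 2) := by
  unfold th
  have h1 : 0 ≤ (⟨rho z, sig z⟩ : ℂ).re := Real.sqrt_nonneg _
  have h2 : 0 ≤ (⟨rho z, sig z⟩ : ℂ).im := Real.sqrt_nonneg _
  exact ⟨Complex.arg_nonneg_iff.mpr h2,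
    (abs_le.mp (Complex.abs_arg_le_pi_div_two_iff.mpr h1)).2⟩

theorem norm_sq_D (q α : ℝ) (s G : ℝ → ℝ) (hα : 1 < α)
    (hee : ∀ z : E 10, z ≠ 0 → ∑ k, (ee s k z) ^ 2 = 1)
    (hG : ∀ θ ∈ Set.Icc 0 (Real.pi / 2), 0 < G θ) (hq : 0 < q) (z : E 10) (k : Fin 10) :
    ‖(WithLp.toLp 2 (fun k => Du α s G k z) : E 10)‖ ^ (q + 1 - 2) * Du α s G k z
      = Au q α s G k z := by
  rcases eq_or_ne z 0 with hz | hz
  · subst hz
    have h1 : Du α s G k 0 = 0 := by
      unfold Du
      rw [norm_zero, Real.zero_rpow (by linarith)]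
      ring
    have h2 : Au q α s G k 0 = 0 := by
      unfold Au
      have : (α - 1) * q ≠ 0 := by
        have : 0 < (α - 1) * q := by
          have : 0 < α - 1 := by linarith
          positivity
        exact this.ne'
      rw [norm_zero, Real.zero_rpow this]
      ring
    rw [h1, h2, mul_zero]
  · have hz0 : 0 < ‖z‖ := norm_pos_iff.mpr hz
    have hGz := hG _ (th_mem z)
    have hm : 0 < ‖z‖ ^ (α - 1) * G (th z) := by positivity
    have hn : ‖(WithLp.toLp 2 (fun k => Du α s G k z) : E 10)‖ = ‖z‖ ^ (α - 1) * G (th z) := by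
      rw [EuclideanSpace.norm_eq]
      have : ∑ i : Fin 10, ‖(WithLp.toLp 2 (fun k => Du α s G k z) : E 10) i‖ ^ 2 =
          (‖z‖ ^ (α - 1) * G (th z)) ^ 2 := by
        have h3 : ∀ i : Fin 10, ‖(WithLp.toLp 2 (fun k => Du α s G k z) : E 10) i‖ ^ 2 =
            (‖z‖ ^ (α - 1) * G (th z)) ^ 2 * (ee s i z) ^ 2 := by
          intro i
          rw [Real.norm_eq_abs, sq_abs]
          change (Du α s G i z) ^ 2 = _
          unfold Du
          ring
        rw [Finset.sum_congr rfl (fun i _ => h3 i), ← Finset.mul_sum, hee z hz, mul_one]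
      rw [this, Real.sqrt_sq hm.le]
    rw [hn]
    unfold Du Au
    have h4 : (‖z‖ ^ (α - 1) * G (th z)) ^ (q + 1 - 2) * (‖z‖ ^ (α - 1) * G (th z)) =
        ‖z‖ ^ ((α - 1) * q) * (G (th z)) ^ q := by
      have h5 : (‖z‖ ^ (α - 1) * G (th z)) ^ (q + 1 - 2) * (‖z‖ ^ (α - 1) * G (th z)) =
          (‖z‖ ^ (α - 1) * G (th z)) ^ (q + 1 - 2) * (‖z‖ ^ (α - 1) * G (th z)) ^ (1 : ℝ) := by
        rw [Real.rpow_one]
      rw [h5, ← Real.rpow_add hm, Real.mul_rpow (by positivity) hGz.le, ← Real.rpow_mul hz0.le]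
      congr 2 <;> ring
    calc (‖z‖ ^ (α - 1) * G (th z)) ^ (q + 1 - 2) * (‖z‖ ^ (α - 1) * G (th z) * ee s k z)
        = ((‖z‖ ^ (α - 1) * G (th z)) ^ (q + 1 - 2) * (‖z‖ ^ (α - 1) * G (th z))) * ee s k z := by
          ring
      _ = _ := by rw [h4]

theorem isPHarm (hg : GradP) (hd : DivUP) (hco : ContP) (hcut : CutP) (q α : ℝ) (s G : ℝ → ℝ)
    (hq : 0 < q) (hq' : q ≤ 2 / 5) (hα : 21 / 10 ≤ α) (hα' : α ≤ 5 / 2) (hP : Prof q α s G) :
    IsPHarm (q + 1) Set.univ (uu α s G) := by
  classical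
  obtain ⟨hcu, hcD, hcA, hee⟩ := hco q α s G hq hq' hα hα' hP
  have hGc : Continuous (fun z : E 10 => (WithLp.toLp 2 (fun k => Du α s G k z) : E 10)) :=
    (PiLp.continuous_toLp 2 _).comp (continuous_pi hcD)
  refine ⟨fun z => WithLp.toLp 2 (fun k => Du α s G k z), ?_, ?_, ?_⟩
  · intro K _ hK
    exact ⟨memLp_of_cont _ hcu _ K hK, memLp_of_cont _ hGc _ K hK⟩
  · intro φ hφ hc _ j
    rw [Measure.restrict_univ]
    have h := hcut (fun k z => if k = j then uu α s G z else 0)
      (fun k z => if k = j then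
        (∑ k, Du α s G k z • (EuclideanSpace.proj k : E 10 →L[ℝ] ℝ)) else 0)
      (fun z => Du α s G j z) (fun k => by
        by_cases hk : k = j
        · simp only [hk, if_true]; exact hcu
        · simp only [hk, if_false]; exact continuous_const) (hcD j) ?_ φ hφ hc
    · have heq : ∀ x, ((∑ k, (if k = j then uu α s G x else 0) * fderiv ℝ φ x (unit k)) +
          Du α s G j x * φ x) = uu α s G x * fderiv ℝ φ x (unit j) + Du α s G j x * φ x := by
        intro x
        congr 1
        rw [Finset.sum_eq_single j]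
        · simp
        · intro b _ hb
          simp [hb]
        · intro h
          exact absurd (Finset.mem_univ j) h
      simp only [heq] at h
      rw [integral_add (int_of_cont φ hφ hc _ hcu j) (int_of_cont' φ hφ hc _ (hcD j))] at h
      change ∫ x, uu α s G x * fderiv ℝ φ x (unit j) = -∫ x, Du α s G j x * φ x
      linarith
    · intro z hX hY
      refine ⟨fun k => ?_, ?_⟩
      · by_cases hk : k = j
        · simp only [hk, if_true]
          exact hg q α s G hq hq' hα hα' hP z hX hY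
        · simp only [hk, if_false]
          exact hasFDerivAt_const _ _
      · rw [Finset.sum_eq_single j]
        · simp only [if_true]
          exact sum_proj _ j
        · intro b _ hb
          simp [hb]
        · intro h
          exact absurd (Finset.mem_univ j) h
  · intro φ hφ hc _
    rw [Measure.restrict_univ]
    obtain ⟨F', hF'⟩ := hd q α s G hq hq' hα hα' hP
    have h := hcut (fun k z => Au q α s G k z) F' (fun _ => 0) hcA continuous_const
      (fun z hX hY => hF' z hX hY) φ hφ hc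
    have heq : ∀ x, (∑ j : Fin 10,
        ‖(WithLp.toLp 2 (fun k => Du α s G k x) : E 10)‖ ^ (q + 1 - 2) *
          (WithLp.toLp 2 (fun k => Du α s G k x) : E 10) j * fderiv ℝ φ x (unit j)) =
        (∑ k, Au q α s G k x * fderiv ℝ φ x (unit k)) + 0 * φ x := by
      intro x
      rw [zero_mul, add_zero]
      refine Finset.sum_congr rfl (fun j _ => ?_)
      have := norm_sq_D q α s G (by linarith) hee hP.posG hq x j
      change ‖(WithLp.toLp 2 (fun k => Du α s G k x) : E 10)‖ ^ (q + 1 - 2) *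
          Du α s G j x * fderiv ℝ φ x (unit j) = _
      rw [this]
    simp only [heq]
    exact h

theorem on_line (q α : ℝ) (s G : ℝ → ℝ) (hP : Prof q α s G) (t : ℝ) :
    uu α s G (t • unit 0) = (G 0 / α) * |t| ^ α := by
  have hz : ∀ i : Fin 10, (t • (unit 0 : E 10)) i = if i = 0 then t else 0 := by
    intro i
    by_cases hi : i = 0
    · subst hi; simp [unit]
    · simp [unit, hi]
  have hX : XX (t • unit 0) = t ^ 2 := by
    unfold XX
    rw [Finset.sum_eq_single 0]
    · simp [hz]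
    · intro b _ hb
      simp [hz, hb]
    · intro h
      exact absurd (Finset.mem_univ _) h
  have hY : YY (t • unit 0) = 0 := by
    unfold YY
    refine Finset.sum_eq_zero (fun i _ => ?_)
    by_cases hi : (i : ℕ) < 5
    · simp [hi]
    · have : i ≠ 0 := by
        intro h
        subst h
        exact hi (by norm_num)
      simp [hz, this]
  have hr : rho (t • unit 0) = |t| := by
    unfold rho
    rw [hX, Real.sqrt_sq_eq_abs]
  have hs : sig (t • unit 0) = 0 := by
    unfold sig
    rw [hY, Real.sqrt_zero]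
  have hth : th (t • unit 0) = 0 := by
    unfold th
    rw [hr, hs]
    exact Complex.arg_ofReal_of_nonneg (abs_nonneg t)
  have hn : ‖t • (unit 0 : E 10)‖ = |t| := by
    rw [norm_smul, Real.norm_eq_abs]
    unfold unit
    rw [EuclideanSpace.norm_single]
    simp
  unfold uu
  rw [hth, hP.s0, Real.cos_zero, hn]
  ring

end Pool.Agent.R271.PJ.MainAux

namespace Pool.Agent.R271.PJ

open MainAux

theorem mainP (ho : OdeP) (hp : ProfP) (hg : GradP) (hd : DivUP) (hco : ContP) (hcut : CutP)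
    (hn : NonRegP) : MainP := by
  have h1 : ∀ p : ℝ, 1 < p → p ≤ 7 / 5 → degReg 10 p ≤ 5 / 2 := by
    intro p hp1 hp2
    obtain ⟨q, hq⟩ : ∃ q : ℝ, q = p - 1 := ⟨_, rfl⟩
    have hq0 : 0 < q := by linarith
    have hq1 : q ≤ 2 / 5 := by linarith
    have hpq : p = q + 1 := by linarith
    obtain ⟨α, s, hα, hα', hS, hs⟩ := ho q hq0 hq1
    obtain ⟨s', G, hP⟩ := hp q α s hq0 hq1 hα hα' hS hs
    have hph := isPHarm hg hd hco hcut q α s' G hq0 hq1 hα hα' hP
    have hcu := (hco q α s' G hq0 hq1 hα hα' hP).1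
    unfold degReg
    refine sSup_le ?_
    rintro t ⟨σ, hσ0, rfl, hall⟩
    have hσ : σ ≤ 5 / 2 := by
      by_contra hcon
      push Not at hcon
      have hG0 : 0 < G 0 := hP.posG 0 ⟨le_rfl, by positivity⟩
      have hc : G 0 / α ≠ 0 := (div_pos hG0 (by linarith)).ne'
      refine hn (uu α s' G) α (G 0 / α) hα hα' hc hcu (on_line q α s' G hP) σ hcon ?_
      rw [hpq] at hall
      exact hall Set.univ isOpen_univ _ hph
    calc ENNReal.ofReal σ ≤ ENNReal.ofReal (5 / 2) := ENNReal.ofReal_le_ofReal hσ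
      _ = 5 / 2 := by
        rw [ENNReal.ofReal_div_of_pos (by norm_num)]
        norm_num
  refine ⟨h1, fun h => ?_⟩
  have h10 := h 10 (by norm_num)
  have hlt : (5 / 2 : ENNReal) < ⊤ := by
    rw [lt_top_iff_ne_top]
    exact ENNReal.div_ne_top (by norm_num) (by norm_num)
  have hev : ∀ᶠ p : ℝ in nhdsWithin 1 (Set.Ioi 1), (5 / 2 : ENNReal) < degReg 10 p :=
    h10.eventually (lt_mem_nhds hlt)
  have hev2 : ∀ᶠ p : ℝ in nhdsWithin 1 (Set.Ioi 1), 1 < p ∧ p ≤ 7 / 5 := by
    have : Set.Ioc (1 : ℝ) (7 / 5) ∈ nhdsWithin (1 : ℝ) (Set.Ioi 1) :=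
      Ioc_mem_nhdsGT (by norm_num)
    exact this
  obtain ⟨p, hp1, hp2, hp3⟩ := (hev.and hev2).exists
  exact absurd (h1 p hp2 hp3) (not_le.mpr hp1)

end Pool.Agent.R271.PJ
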