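import Pool.Agent.R271.PJ.Stm

set_option autoImplicit false

open MeasureTheory Filter Topology Set

namespace Pool.Agent.R271.PJ

namespace NonRegAux

theorem core {g : ℝ → ℝ} {α c : ℝ} (h1 : 21 / 10 ≤ α) (h2 : α ≤ 5 / 2) (hc : c ≠ 0)
    (hg : ∀ t, g t = c * |t| ^ α) (hC : ContDiff ℝ 2 g) (C a : ℝ) (ha : 1 / 2 < a)
    (h : ∀ᶠ t in 𝓝[>] (0 : ℝ), |iteratedDeriv 2 g t - iteratedDeriv 2 g 0| ≤ C * t ^ a) :
    False := by
  have hd1 : ∀ t, 0 < t → deriv g t = c * (α * t ^ (α - 1)) := by
    intro t ht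
    have he : g =ᶠ[𝓝 t] fun s => c * s ^ α := by
      filter_upwards [lt_mem_nhds ht] with s hs
      rw [hg, abs_of_pos hs]
    rw [he.deriv_eq]
    exact ((Real.hasDerivAt_rpow_const (Or.inl ht.ne')).const_mul c).deriv
  have hd2 : ∀ t, 0 < t → iteratedDeriv 2 g t = c * (α * ((α - 1) * t ^ (α - 2))) := by
    intro t ht
    have he : deriv g =ᶠ[𝓝 t] fun s => c * (α * s ^ (α - 1)) := by
      filter_upwards [lt_mem_nhds ht] with s hs
      exact hd1 s hs
    rw [iteratedDeriv_succ, iteratedDeriv_one, he.deriv_eq]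
    have h3 := (((Real.hasDerivAt_rpow_const (p := α - 1) (Or.inl ht.ne')).const_mul α).const_mul
      c).deriv
    rw [h3]
    have e : α - 1 - 1 = α - 2 := by ring
    rw [e]
  have hcont : Continuous (iteratedDeriv 2 g) := hC.continuous_iteratedDeriv 2 le_rfl
  have hrp : Tendsto (fun t : ℝ => t ^ (α - 2)) (𝓝[>] 0) (𝓝 0) := by
    have h3 := (Real.continuousAt_rpow_const 0 (α - 2) (Or.inr (by linarith))).tendsto
    rw [Real.zero_rpow (by linarith)] at h3
    exact h3.mono_left nhdsWithin_le_nhds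
  have hz : iteratedDeriv 2 g 0 = 0 := by
    have t1 : Tendsto (iteratedDeriv 2 g) (𝓝[>] 0) (𝓝 (iteratedDeriv 2 g 0)) :=
      (hcont.tendsto 0).mono_left nhdsWithin_le_nhds
    have t2 : Tendsto (iteratedDeriv 2 g) (𝓝[>] 0) (𝓝 0) := by
      have t3 := ((hrp.const_mul (α - 1)).const_mul α).const_mul c
      simp only [mul_zero] at t3
      refine t3.congr' ?_
      filter_upwards [self_mem_nhdsWithin] with t ht
      exact (hd2 t ht).symm
    exact tendsto_nhds_unique t1 t2
  have hK : 0 < |c * (α * (α - 1))| := by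
    apply abs_pos.2
    have : 0 < α * (α - 1) := by nlinarith
    exact mul_ne_zero hc this.ne'
  have hev : ∀ᶠ t in 𝓝[>] (0 : ℝ), |c * (α * (α - 1))| ≤ C * t ^ (a - (α - 2)) := by
    filter_upwards [h, self_mem_nhdsWithin] with t h3 ht
    have ht : 0 < t := ht
    rw [hz, sub_zero, hd2 t ht] at h3
    have h4 : |c * (α * ((α - 1) * t ^ (α - 2)))| = |c * (α * (α - 1))| * t ^ (α - 2) := by
      have : c * (α * ((α - 1) * t ^ (α - 2))) = (c * (α * (α - 1))) * t ^ (α - 2) := by ring
      rw [this, abs_mul, abs_of_pos (Real.rpow_pos_of_pos ht (α - 2))]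
    rw [h4] at h3
    have h5 : 0 < t ^ (α - 2) := Real.rpow_pos_of_pos ht _
    have h6 : t ^ a = t ^ (a - (α - 2)) * t ^ (α - 2) := by
      rw [← Real.rpow_add ht]; ring_nf
    rw [h6, ← mul_assoc C] at h3
    exact le_of_mul_le_mul_right h3 h5
  have hlim : Tendsto (fun t : ℝ => C * t ^ (a - (α - 2))) (𝓝[>] 0) (𝓝 0) := by
    have h3 := (Real.continuousAt_rpow_const 0 (a - (α - 2)) (Or.inr (by linarith))).tendsto
    rw [Real.zero_rpow (by linarith)] at h3
    have h4 := (h3.mono_left (nhdsWithin_le_nhds (s := Ioi 0))).const_mul C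
    rw [mul_zero] at h4
    exact h4
  have := ge_of_tendsto hlim hev
  linarith

end NonRegAux

open NonRegAux

theorem nonRegP : NonRegP := by
  intro u α c h1 h2 hc hu hline σ hσ hin
  obtain ⟨k, a, ha0, ha1, hka, v, hvu, hv, hH⟩ := hin
  rw [contDiffOn_univ] at hv
  have hvc : Continuous v := hv.continuous
  have hveq : v = u := by
    rw [Measure.restrict_univ] at hvu
    exact (Continuous.ae_eq_iff_eq volume hvc hu).1 hvu
  obtain ⟨e, he⟩ : ∃ e : E 10, e = unit 0 := ⟨_, rfl⟩
  have hen : ‖e‖ = 1 := by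
    rw [he]
    unfold unit
    simp
  let L : ℝ →L[ℝ] E 10 := (ContinuousLinearMap.id ℝ ℝ).smulRight e
  have hL : ∀ t, L t = t • e := fun t => by simp [L]
  have hg : ∀ t, (v ∘ L) t = c * |t| ^ α := by
    intro t
    rw [Function.comp_apply, hveq, hL, he, hline]
  have hk2 : 2 ≤ k := by
    by_contra hk
    have : (k : ℝ) ≤ 1 := by
      have : k ≤ 1 := by omega
      exact_mod_cast this
    linarith
  have hv2 : ContDiff ℝ 2 v := hv.of_le (by exact_mod_cast hk2)
  have hg2 : ContDiff ℝ 2 (v ∘ L) := hv2.comp L.contDiff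
  rcases Nat.lt_or_ge 2 k with hk | hk
  · -- three derivatives
    have hv3 : ContDiff ℝ 3 v := hv.of_le (by exact_mod_cast hk)
    have hg3 : ContDiff ℝ 3 (v ∘ L) := hv3.comp L.contDiff
    have hdiff : Differentiable ℝ (iteratedDeriv 2 (v ∘ L)) :=
      hg3.differentiable_iteratedDeriv 2 (by norm_num)
    obtain ⟨C, hC⟩ := (hdiff 0).isBigO_sub.bound
    refine core h1 h2 hc hg hg2 C 1 (by norm_num) ?_
    filter_upwards [hC.filter_mono nhdsWithin_le_nhds, self_mem_nhdsWithin] with t h3 ht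
    have ht : 0 < t := ht
    rw [Real.norm_eq_abs, sub_zero, Real.norm_of_nonneg ht.le] at h3
    rw [Real.rpow_one]
    exact h3
  · have hk' : k = 2 := le_antisymm hk hk2
    subst hk'
    obtain ⟨C, hC⟩ := hH (Metric.closedBall 0 1) (subset_univ _) (isCompact_closedBall _ _)
    simp only [iteratedFDerivWithin_univ] at hC
    refine core h1 h2 hc hg hg2 C a (by push_cast at hka; linarith) ?_
    have hlt : ∀ᶠ t in 𝓝[>] (0 : ℝ), t < 1 := (eventually_lt_nhds one_pos).filter_mono
      nhdsWithin_le_nhds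
    filter_upwards [hlt, self_mem_nhdsWithin] with t ht1 ht
    have ht : 0 < t := ht
    have h3 : ∀ s, iteratedDeriv 2 (v ∘ L) s = iteratedFDeriv ℝ 2 v (L s) fun _ => e := by
      intro s
      rw [iteratedDeriv, L.iteratedFDeriv_comp_right hv2 s le_rfl]
      simp only [ContinuousMultilinearMap.compContinuousLinearMap_apply]
      congr 1
      funext i
      rw [hL, one_smul]
    rw [h3, h3, ← sub_apply, ← Real.norm_eq_abs]
    refine (ContinuousMultilinearMap.le_opNorm _ _).trans ?_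
    simp only [hen, Finset.prod_const_one, mul_one]
    have h4 := hC (L t) (by
      rw [mem_closedBall_zero_iff, hL, norm_smul, hen, Real.norm_of_nonneg ht.le]
      linarith) (L 0) (by rw [map_zero]; simp)
    refine h4.trans (le_of_eq ?_)
    rw [map_zero, sub_zero, hL, norm_smul, hen, Real.norm_of_nonneg ht.le, mul_one]

end Pool.Agent.R271.PJ
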