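import Pool.Agent.R271.PJ.Stm

set_option autoImplicit false

open Filter Topology

namespace Pool.Agent.R271.PJ

theorem odeP (h1 : CauchyP) (h2 : LowP) (h3 : UpP) (h4 : CmpP) (h5 : BdP) : OdeP := by
  intro q hq hq'
  obtain ⟨S, hS, hc⟩ := h1 q hq hq'
  have hpi := Real.pi_gt_three
  obtain ⟨δ, hδdef⟩ : ∃ δ : ℕ → ℝ, δ = fun k : ℕ => 1 / ((k : ℝ) + 2) := ⟨_, rfl⟩
  have hδ0 : ∀ k, 0 < δ k := by
    intro k
    rw [hδdef]
    positivity
  have hδ1 : ∀ k, δ k < Real.pi / 4 := by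
    intro k
    have : δ k ≤ 1 / 2 := by
      rw [hδdef]
      refine one_div_le_one_div_of_le (by norm_num) ?_
      have : (0 : ℝ) ≤ k := Nat.cast_nonneg k
      linarith
    linarith
  have hδlim : Tendsto δ atTop (𝓝 0) := by
    rw [hδdef]
    have := tendsto_one_div_add_atTop_nhds_zero_nat (𝕜 := ℝ)
    have h2 := this.comp (tendsto_add_atTop_nat 1)
    refine h2.congr (fun k => ?_)
    simp only [Function.comp]
    push_cast
    ring_nf
  have key : ∀ k, ∃ α ∈ Set.Icc (21 / 10 : ℝ) (5 / 2), S α (δ k) = sb (δ k) := by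
    intro k
    have hcont : ContinuousOn (fun α => S α (δ k)) (Set.Icc (21 / 10 : ℝ) (5 / 2)) :=
      (hc (δ k) (hδ0 k) (by linarith [hδ1 k])).mono (Set.Icc_subset_Icc (by norm_num) (by norm_num))
    have hlow : S (5 / 2) (δ k) ≤ sb (δ k) :=
      h2 q _ hq hq' (hS _ (by norm_num) (by norm_num)) _ (hδ0 k) (hδ1 k)
    have hup : sb (δ k) ≤ S (21 / 10) (δ k) :=
      (h4 _ (hδ0 k) (hδ1 k)).2.2.trans
        (h3 q _ hq hq' (hS _ (by norm_num) (by norm_num)) _ (hδ0 k) (hδ1 k))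
    have := intermediate_value_Icc' (by norm_num : (21 / 10 : ℝ) ≤ 5 / 2) hcont
    obtain ⟨α, hα, hα'⟩ := this ⟨hlow, hup⟩
    exact ⟨α, hα, hα'⟩
  choose α hα hval using key
  obtain ⟨a, ha, φ, hφ, hlim⟩ := isCompact_Icc.tendsto_subseq hα
  refine ⟨a, S a, ha.1, ha.2, hS a (by linarith [ha.1]) (by linarith [ha.2]), ?_⟩
  intro θ hθ hθ'
  have hθ2 : θ < Real.pi / 2 := by linarith
  have hb : ∀ᶠ k in atTop, 0 ≤ S (α (φ k)) θ ∧ S (α (φ k)) θ ≤ 10 * θ := by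
    have h0 : Tendsto (fun k => δ (φ k)) atTop (𝓝 0) := hδlim.comp hφ.tendsto_atTop
    filter_upwards [h0.eventually (gt_mem_nhds hθ)] with k hk
    have hak := hα (φ k)
    have hcmp := h4 _ (hδ0 (φ k)) (hδ1 (φ k))
    exact h5 q (α (φ k)) (S (α (φ k))) (δ (φ k)) hq hq' hak.1 hak.2
      (hS _ (by linarith [hak.1]) (by linarith [hak.2])) (hδ0 _) (hδ1 _)
      (by rw [hval]; exact hcmp.1) (by rw [hval]; exact hcmp.2.1) θ hk.le hθ'
  have hcw := hc θ hθ hθ2 a ⟨by linarith [ha.1], by linarith [ha.2]⟩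
  have htend : Tendsto (fun k => S (α (φ k)) θ) atTop (𝓝 (S a θ)) := by
    refine hcw.tendsto.comp ?_
    refine tendsto_nhdsWithin_iff.mpr ⟨hlim, Eventually.of_forall (fun k => ?_)⟩
    exact ⟨by linarith [(hα (φ k)).1], by linarith [(hα (φ k)).2]⟩
  exact ⟨ge_of_tendsto htend (hb.mono fun k hk => hk.1),
    le_of_tendsto htend (hb.mono fun k hk => hk.2)⟩

end Pool.Agent.R271.PJ
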