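import Pool.Agent.R271.PJ.Stm

/-! Q1: the profile on the closed interval. -/

set_option autoImplicit false

open MeasureTheory Set Filter Topology

namespace Pool.Agent.R271.PJ

namespace ProflAux

lemma dd_ge {q : ℝ} (hq : q ≤ 1) (s : ℝ) : q ≤ DD q s := by
  unfold DD
  have h1 := Real.sin_sq_add_cos_sq s
  have h2 : 0 ≤ (1 - q) * Real.cos s ^ 2 := mul_nonneg (by linarith) (sq_nonneg _)
  nlinarith

lemma sin_ge {θ : ℝ} (h0 : 0 < θ) (h1 : θ ≤ Real.pi / 4) : θ ≤ Real.sin (2 * θ) := by
  have h2 := Real.mul_le_sin (x := 2 * θ) (by linarith) (by linarith)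
  have h3 : θ ≤ 2 / Real.pi * (2 * θ) := by
    have hp := Real.pi_pos
    have hp4 := Real.pi_le_four
    rw [div_mul_eq_mul_div, le_div_iff₀ hp]
    nlinarith
  linarith

lemma ww_bd {θ : ℝ} (h0 : 0 < θ) (h1 : θ ≤ Real.pi / 4) : |WW θ| * θ ≤ 8 := by
  have h2 := sin_ge h0 h1
  have h3 : 0 < Real.sin (2 * θ) := lt_of_lt_of_le h0 h2
  unfold WW
  rw [abs_mul, abs_div, abs_of_pos h3, abs_of_pos (by norm_num : (0:ℝ) < 8)]
  have h4 := Real.abs_cos_le_one (2 * θ)
  have h5 : |Real.cos (2 * θ)| / Real.sin (2 * θ) * θ ≤ 1 := by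
    rw [div_mul_eq_mul_div, div_le_one h3]
    have := abs_nonneg (Real.cos (2 * θ))
    nlinarith
  nlinarith

lemma hh_bd {q α θ s : ℝ} (hq0 : 0 < q) (hq : q ≤ 1) (h0 : 0 < θ) (h1 : θ ≤ Real.pi / 4)
    (hs0 : 0 ≤ s) (hs1 : s ≤ 10 * θ) : |HH q α θ s| ≤ (|NN q α - α| + 80) / q := by
  have hD := dd_ge hq s
  have hDpos : 0 < DD q s := lt_of_lt_of_le hq0 hD
  unfold HH
  rw [abs_div, abs_of_pos hDpos]
  have hsin : |Real.sin s| ≤ 1 := Real.abs_sin_le_one s
  have hcos : |Real.cos s| ≤ 1 := Real.abs_cos_le_one s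
  have e1 : |(NN q α - α) * (Real.sin s * Real.cos s)| ≤ |NN q α - α| := by
    rw [abs_mul, abs_mul]
    have h2 : |Real.sin s| * |Real.cos s| ≤ 1 := by
      have := abs_nonneg (Real.sin s)
      have := abs_nonneg (Real.cos s)
      nlinarith
    have := abs_nonneg (NN q α - α)
    nlinarith
  have e2 : |WW θ * Real.sin s ^ 2| ≤ 80 := by
    have h3 : |Real.sin s| ≤ s := by
      rw [abs_le]
      constructor
      · rcases le_total s 1 with h | h
        · have := Real.sin_nonneg_of_nonneg_of_le_pi hs0 (by linarith [Real.pi_gt_three])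
          linarith
        · have := Real.neg_one_le_sin s
          linarith
      · exact Real.sin_le hs0
    have h4 : Real.sin s ^ 2 ≤ 10 * θ := by
      rw [← sq_abs]
      have := abs_nonneg (Real.sin s)
      nlinarith
    rw [abs_mul, abs_of_nonneg (sq_nonneg (Real.sin s))]
    have h5 := ww_bd h0 h1
    have h6 := abs_nonneg (WW θ)
    nlinarith [mul_le_mul_of_nonneg_left h4 h6]
  have e3 : |(NN q α - α) * (Real.sin s * Real.cos s) - WW θ * Real.sin s ^ 2|
      ≤ |NN q α - α| + 80 := (abs_sub _ _).trans (add_le_add e1 e2)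
  exact div_le_div₀ (by positivity) e3 hq0 hD

lemma hh_symm (q α θ s : ℝ) : HH q α (Real.pi / 2 - θ) (Real.pi - s) = - HH q α θ s := by
  unfold HH WW DD
  rw [show 2 * (Real.pi / 2 - θ) = Real.pi - 2 * θ by ring, Real.cos_pi_sub, Real.sin_pi_sub,
    Real.cos_pi_sub, Real.sin_pi_sub]
  ring

end ProflAux

open ProflAux in
/-- Q1. -/
theorem profP : ProfP := by
  intro q α s hq0 hq _ _ hsol hbd
  have hpi := Real.pi_pos
  have hq1 : q ≤ 1 := by linarith
  set C : ℝ := (|NN q α - α| + 80) / q with hC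
  -- the bound on the whole interval
  have hHH : ∀ θ ∈ Ioo (0:ℝ) (Real.pi / 2), |HH q α θ (s θ)| ≤ C := by
    intro θ hθ
    rcases le_total θ (Real.pi / 4) with h | h
    · obtain ⟨a, b⟩ := hbd θ hθ.1 h
      exact hh_bd hq0 hq1 hθ.1 h a b
    · have h1 : 0 < Real.pi / 2 - θ := by linarith [hθ.2]
      have h2 : Real.pi / 2 - θ ≤ Real.pi / 4 := by linarith
      obtain ⟨a, b⟩ := hbd _ h1 h2
      have h3 := hh_bd (α := α) hq0 hq1 h1 h2 a b
      have h4 := hsol.symm θ hθ.1 hθ.2
      rw [h4, hh_symm, abs_neg] at h3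
      exact h3
  -- continuity on the open interval
  have hsc : ContinuousOn s (Ioo (0:ℝ) (Real.pi / 2)) := fun θ hθ =>
    (hsol.ode θ hθ.1 hθ.2).continuousAt.continuousWithinAt
  have hcont : ContinuousOn (fun θ => HH q α θ (s θ)) (Ioo (0:ℝ) (Real.pi / 2)) := by
    unfold HH WW
    have hsin : ContinuousOn (fun θ => Real.sin (s θ)) (Ioo (0:ℝ) (Real.pi / 2)) :=
      Real.continuous_sin.comp_continuousOn hsc
    have hcos : ContinuousOn (fun θ => Real.cos (s θ)) (Ioo (0:ℝ) (Real.pi / 2)) :=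
      Real.continuous_cos.comp_continuousOn hsc
    apply ContinuousOn.div
    · apply ContinuousOn.sub
      · exact continuousOn_const.mul (hsin.mul hcos)
      · apply ContinuousOn.mul
        · apply ContinuousOn.mul continuousOn_const
          apply ContinuousOn.div
          · fun_prop
          · fun_prop
          · intro θ hθ
            exact (Real.sin_pos_of_pos_of_lt_pi (by linarith [hθ.1]) (by linarith [hθ.2])).ne'
        · exact hsin.pow 2
    · unfold DD
      exact (hcos.pow 2).add (continuousOn_const.mul (hsin.pow 2))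
    · intro θ _
      exact (lt_of_lt_of_le hq0 (dd_ge hq1 (s θ))).ne'
  set h : ℝ → ℝ := (Ioo (0:ℝ) (Real.pi / 2)).indicator (fun θ => HH q α θ (s θ)) with hh
  have hint : Integrable h volume := by
    rw [hh, integrable_indicator_iff measurableSet_Ioo]
    apply IntegrableOn.of_bound (by simp) (hcont.aestronglyMeasurable measurableSet_Ioo) C
    filter_upwards [ae_restrict_mem measurableSet_Ioo] with θ hθ
    exact hHH θ hθ
  have hII : ∀ a b : ℝ, IntervalIntegrable h volume a b := fun a b => hint.intervalIntegrable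
  set F : ℝ → ℝ := fun θ => ∫ x in (Real.pi / 4)..θ, h x with hF
  have hFc : Continuous F := intervalIntegral.continuous_primitive hII _
  -- the extension of `s`
  set s' : ℝ → ℝ := fun θ => if θ ≤ 0 then 0 else if θ < Real.pi / 2 then s θ else Real.pi
    with hs'
  have hs'in : ∀ θ ∈ Ioo (0:ℝ) (Real.pi / 2), s' θ = s θ := by
    intro θ hθ
    simp only [hs', not_le.mpr hθ.1, hθ.2, if_true, if_false]
  have hs'0 : s' 0 = 0 := by simp [hs']
  have hs'1 : s' (Real.pi / 2) = Real.pi := by
    have : ¬ (Real.pi / 2 ≤ 0) := by linarith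
    simp [hs', this]
  have hders : ∀ θ : ℝ, 0 < θ → θ < Real.pi / 2 → HasDerivAt s' (RR q α θ (s' θ)) θ := by
    intro θ h0 h1
    rw [hs'in θ ⟨h0, h1⟩]
    apply (hsol.ode θ h0 h1).congr_of_eventuallyEq
    filter_upwards [isOpen_Ioo.mem_nhds (⟨h0, h1⟩ : θ ∈ Ioo (0:ℝ) (Real.pi / 2))] with x hx
    exact hs'in x hx
  refine ⟨s', fun θ => Real.exp (F θ), ?_, hs'0, hs'1, ?_, ?_, hders, ?_⟩
  · intro θ hθ
    rcases eq_or_lt_of_le hθ.1 with h0 | h0
    · -- at 0
      subst h0
      rw [Metric.continuousWithinAt_iff]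
      intro ε hε
      refine ⟨min (Real.pi / 4) (ε / 10), by positivity, ?_⟩
      intro x hx hxd
      rw [Real.dist_eq, sub_zero] at hxd
      rw [Real.dist_eq, hs'0, sub_zero]
      rcases eq_or_lt_of_le hx.1 with hx0 | hx0
      · rw [← hx0, hs'0, abs_zero]; exact hε
      · rw [abs_of_pos hx0] at hxd
        have h1 : x < Real.pi / 4 := lt_of_lt_of_le hxd (min_le_left _ _)
        have h2 : x < ε / 10 := lt_of_lt_of_le hxd (min_le_right _ _)
        obtain ⟨a, b⟩ := hbd x hx0 h1.le
        rw [hs'in x ⟨hx0, by linarith⟩, abs_of_nonneg a]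
        linarith
    · rcases eq_or_lt_of_le hθ.2 with h1 | h1
      · subst h1
        rw [Metric.continuousWithinAt_iff]
        intro ε hε
        refine ⟨min (Real.pi / 4) (ε / 10), by positivity, ?_⟩
        intro x hx hxd
        rw [Real.dist_eq] at hxd
        rw [Real.dist_eq, hs'1]
        rcases eq_or_lt_of_le hx.2 with hx1 | hx1
        · rw [hx1, hs'1, sub_self, abs_zero]; exact hε
        · rw [abs_of_neg (by linarith)] at hxd
          have h1 : -(x - Real.pi / 2) < Real.pi / 4 := lt_of_lt_of_le hxd (min_le_left _ _)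
          have h2 : -(x - Real.pi / 2) < ε / 10 := lt_of_lt_of_le hxd (min_le_right _ _)
          have hx0 : 0 < x := by linarith
          obtain ⟨a, b⟩ := hbd (Real.pi / 2 - x) (by linarith) (by linarith)
          have h4 := hsol.symm x hx0 hx1
          rw [h4] at a b
          rw [hs'in x ⟨hx0, hx1⟩, abs_lt]
          constructor <;> linarith
      · exact (hders θ h0 h1).continuousAt.continuousWithinAt
  · exact (Real.continuous_exp.comp hFc).continuousOn
  · intro θ _
    exact Real.exp_pos _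
  · intro θ h0 h1
    have hmem : θ ∈ Ioo (0:ℝ) (Real.pi / 2) := ⟨h0, h1⟩
    rw [hs'in θ hmem]
    have hnh : Ioo (0:ℝ) (Real.pi / 2) ∈ 𝓝 θ := isOpen_Ioo.mem_nhds hmem
    have hhθ : h θ = HH q α θ (s θ) := by rw [hh, Set.indicator_of_mem hmem]
    have hca : ContinuousAt h θ := by
      have h2 : ContinuousAt (fun θ => HH q α θ (s θ)) θ := hcont.continuousAt hnh
      apply h2.congr_of_eventuallyEq
      filter_upwards [hnh] with x hx
      rw [hh, Set.indicator_of_mem hx]
    have hd : HasDerivAt F (h θ) θ := intervalIntegral.integral_hasDerivAt_right (hII _ _)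
      hint.aestronglyMeasurable.stronglyMeasurableAtFilter hca
    rw [hhθ] at hd
    exact hd.exp

end Pool.Agent.R271.PJ
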