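import Pool.Agent.R271.PJ.Defs

set_option autoImplicit false

open MeasureTheory

namespace Pool.Agent.R271.PJ

/-! Part 1: the ordinary differential equation. -/

/-- `N = 9 + (α-1) q` -/
noncomputable def NN (q α : ℝ) : ℝ := 9 + (α - 1) * q

/-- `W(θ) = 8 cot 2θ` -/
noncomputable def WW (θ : ℝ) : ℝ := 8 * (Real.cos (2 * θ) / Real.sin (2 * θ))

noncomputable def DD (q s : ℝ) : ℝ := Real.cos s ^ 2 + q * Real.sin s ^ 2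

/-- right side of the equation for `s` -/
noncomputable def RR (q α θ s : ℝ) : ℝ :=
  (NN q α * Real.cos s ^ 2 - WW θ * (Real.sin s * Real.cos s) + q * α * Real.sin s ^ 2) / DD q s

/-- logarithmic derivative of `G` -/
noncomputable def HH (q α θ s : ℝ) : ℝ :=
  ((NN q α - α) * (Real.sin s * Real.cos s) - WW θ * Real.sin s ^ 2) / DD q s

/-- `s` solves the equation on `(0, π/2)`, with `s(π/4) = π/2`, and is symmetric. -/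
structure Sol (q α : ℝ) (s : ℝ → ℝ) : Prop where
  ode : ∀ θ : ℝ, 0 < θ → θ < Real.pi / 2 → HasDerivAt s (RR q α θ (s θ)) θ
  mid : s (Real.pi / 4) = Real.pi / 2
  symm : ∀ θ : ℝ, 0 < θ → θ < Real.pi / 2 → s (Real.pi / 2 - θ) = Real.pi - s θ

/-- O1. Existence, and continuity in the parameter. -/
def CauchyP : Prop :=
  ∀ q : ℝ, 0 < q → q ≤ 2 / 5 → ∃ S : ℝ → ℝ → ℝ,
    (∀ α : ℝ, 2 ≤ α → α ≤ 3 → Sol q α (S α)) ∧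
    ∀ θ : ℝ, 0 < θ → θ < Real.pi / 2 → ContinuousOn (fun α => S α θ) (Set.Icc 2 3)

/-- the lower barrier angle -/
noncomputable def sb (θ : ℝ) : ℝ :=
  Real.arctan (Real.sin θ * Real.cos θ * (√(Real.cos θ) + √(Real.sin θ)) /
    (Real.cos θ ^ 2 * √(Real.cos θ) - Real.sin θ ^ 2 * √(Real.sin θ)))

/-- O2a. -/
def LowP : Prop :=
  ∀ (q : ℝ) (s : ℝ → ℝ), 0 < q → q ≤ 2 / 5 → Sol q (5 / 2) s →
    ∀ θ : ℝ, 0 < θ → θ < Real.pi / 4 → s θ ≤ sb θ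

/-- O2b. -/
def UpP : Prop :=
  ∀ (q : ℝ) (s : ℝ → ℝ), 0 < q → q ≤ 2 / 5 → Sol q (21 / 10) s →
    ∀ θ : ℝ, 0 < θ → θ < Real.pi / 4 → Real.arctan (20 / 21 * Real.tan (2 * θ)) ≤ s θ

/-- O2c. -/
def CmpP : Prop :=
  ∀ θ : ℝ, 0 < θ → θ < Real.pi / 4 →
    0 ≤ sb θ ∧ sb θ ≤ 2 * θ ∧ sb θ ≤ Real.arctan (20 / 21 * Real.tan (2 * θ))

/-- O3. -/
def BdP : Prop :=
  ∀ (q α : ℝ) (s : ℝ → ℝ) (δ : ℝ), 0 < q → q ≤ 2 / 5 → 21 / 10 ≤ α → α ≤ 5 / 2 → Sol q α s →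
    0 < δ → δ < Real.pi / 4 → 0 ≤ s δ → s δ ≤ 2 * δ →
    ∀ θ : ℝ, δ ≤ θ → θ ≤ Real.pi / 4 → 0 ≤ s θ ∧ s θ ≤ 10 * θ

/-- O4. -/
def OdeP : Prop :=
  ∀ q : ℝ, 0 < q → q ≤ 2 / 5 → ∃ (α : ℝ) (s : ℝ → ℝ), 21 / 10 ≤ α ∧ α ≤ 5 / 2 ∧ Sol q α s ∧
    ∀ θ : ℝ, 0 < θ → θ ≤ Real.pi / 4 → 0 ≤ s θ ∧ s θ ≤ 10 * θ

/-! Part 2: the function on `ℝ^10`. -/

/-- the profile -/
structure Prof (q α : ℝ) (s G : ℝ → ℝ) : Prop where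
  conts : ContinuousOn s (Set.Icc 0 (Real.pi / 2))
  s0 : s 0 = 0
  s1 : s (Real.pi / 2) = Real.pi
  contG : ContinuousOn G (Set.Icc 0 (Real.pi / 2))
  posG : ∀ θ ∈ Set.Icc 0 (Real.pi / 2), 0 < G θ
  ders : ∀ θ : ℝ, 0 < θ → θ < Real.pi / 2 → HasDerivAt s (RR q α θ (s θ)) θ
  derG : ∀ θ : ℝ, 0 < θ → θ < Real.pi / 2 → HasDerivAt G (G θ * HH q α θ (s θ)) θ

/-- Q1. -/
def ProfP : Prop :=
  ∀ (q α : ℝ) (s : ℝ → ℝ), 0 < q → q ≤ 2 / 5 → 21 / 10 ≤ α → α ≤ 5 / 2 → Sol q α s →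
    (∀ θ : ℝ, 0 < θ → θ ≤ Real.pi / 4 → 0 ≤ s θ ∧ s θ ≤ 10 * θ) →
    ∃ s' G : ℝ → ℝ, Prof q α s' G

noncomputable def XX (z : E 10) : ℝ := ∑ i : Fin 10, if (i : ℕ) < 5 then z i ^ 2 else 0
noncomputable def YY (z : E 10) : ℝ := ∑ i : Fin 10, if (i : ℕ) < 5 then 0 else z i ^ 2
noncomputable def rho (z : E 10) : ℝ := √(XX z)
noncomputable def sig (z : E 10) : ℝ := √(YY z)
/-- the angle in `[0, π/2]` -/
noncomputable def th (z : E 10) : ℝ := Complex.arg (⟨rho z, sig z⟩ : ℂ)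

/-- the function `u` -/
noncomputable def uu (α : ℝ) (s G : ℝ → ℝ) (z : E 10) : ℝ :=
  ‖z‖ ^ α * (G (th z) * Real.cos (s (th z)) / α)

noncomputable def ee (s : ℝ → ℝ) (k : Fin 10) (z : E 10) : ℝ :=
  if (k : ℕ) < 5 then Real.cos (s (th z) - th z) * (z k / rho z)
  else -Real.sin (s (th z) - th z) * (z k / sig z)

/-- the gradient of `u` -/
noncomputable def Du (α : ℝ) (s G : ℝ → ℝ) (k : Fin 10) (z : E 10) : ℝ :=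
  ‖z‖ ^ (α - 1) * G (th z) * ee s k z

/-- the field `|∇u|^(p-2) ∇u`, `p - 1 = q` -/
noncomputable def Au (q α : ℝ) (s G : ℝ → ℝ) (k : Fin 10) (z : E 10) : ℝ :=
  ‖z‖ ^ ((α - 1) * q) * (G (th z)) ^ q * ee s k z

/-- Q2. The gradient off the two coordinate subspaces. -/
def GradP : Prop :=
  ∀ (q α : ℝ) (s G : ℝ → ℝ), 0 < q → q ≤ 2 / 5 → 21 / 10 ≤ α → α ≤ 5 / 2 → Prof q α s G →
    ∀ z : E 10, 0 < XX z → 0 < YY z →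
      HasFDerivAt (uu α s G) (∑ k, Du α s G k z • (EuclideanSpace.proj k : E 10 →L[ℝ] ℝ)) z

/-- Q3. The field is divergence free off the two coordinate subspaces. -/
def DivUP : Prop :=
  ∀ (q α : ℝ) (s G : ℝ → ℝ), 0 < q → q ≤ 2 / 5 → 21 / 10 ≤ α → α ≤ 5 / 2 → Prof q α s G →
    ∃ F' : Fin 10 → E 10 → (E 10 →L[ℝ] ℝ), ∀ z : E 10, 0 < XX z → 0 < YY z →
      (∀ k, HasFDerivAt (Au q α s G k) (F' k z) z) ∧ ∑ k, F' k z (unit k) = 0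

/-- Q4. Continuity, and length of the direction field. -/
def ContP : Prop :=
  ∀ (q α : ℝ) (s G : ℝ → ℝ), 0 < q → q ≤ 2 / 5 → 21 / 10 ≤ α → α ≤ 5 / 2 → Prof q α s G →
    Continuous (uu α s G) ∧ (∀ k, Continuous (Du α s G k)) ∧ (∀ k, Continuous (Au q α s G k)) ∧
    ∀ z : E 10, z ≠ 0 → ∑ k, (ee s k z) ^ 2 = 1

/-- Q5. Integration by parts for fields which may be singular on the two subspaces. -/
def CutP : Prop :=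
  ∀ (F : Fin 10 → E 10 → ℝ) (F' : Fin 10 → E 10 → (E 10 →L[ℝ] ℝ)) (K : E 10 → ℝ),
    (∀ k, Continuous (F k)) → Continuous K →
    (∀ z : E 10, 0 < XX z → 0 < YY z →
      (∀ k, HasFDerivAt (F k) (F' k z) z) ∧ ∑ k, F' k z (unit k) = K z) →
    ∀ φ : E 10 → ℝ, ContDiff ℝ (⊤ : ℕ∞) φ → HasCompactSupport φ →
      ∫ x, ((∑ k, F k x * fderiv ℝ φ x (unit k)) + K x * φ x) = 0

/-- Q6. Non-regularity. -/
def NonRegP : Prop :=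
  ∀ (u : E 10 → ℝ) (α c : ℝ), 21 / 10 ≤ α → α ≤ 5 / 2 → c ≠ 0 → Continuous u →
    (∀ t : ℝ, u (t • unit 0) = c * |t| ^ α) →
    ∀ σ : ℝ, 5 / 2 < σ → ¬ InC σ Set.univ u

/-- Q7. The final statement. -/
def MainP : Prop :=
  (∀ p : ℝ, 1 < p → p ≤ 7 / 5 → degReg 10 p ≤ 5 / 2) ∧
  ¬ ∀ n : ℕ, 3 ≤ n → Filter.Tendsto (fun p : ℝ => degReg n p)
    (nhdsWithin 1 (Set.Ioi 1)) (nhds ⊤)

end Pool.Agent.R271.PJ
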