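import Pool.Agent.R271.PJ.Stm

/-!
Project PJ, piece O2b: the upper barrier for `α = 21/10`.
-/

set_option autoImplicit false

namespace Pool.Agent.R271.PJ

namespace UpAux

open Real Set

lemma cosq_lip (x y : ℝ) : |cos x ^ 2 - cos y ^ 2| ≤ 2 * |x - y| := by
  have h1 : cos x ^ 2 - cos y ^ 2 = (cos x - cos y) * (cos x + cos y) := by ring
  rw [h1, abs_mul]
  have h2 : |cos x + cos y| ≤ 2 := by
    rw [abs_le]
    constructor <;> linarith [neg_one_le_cos x, neg_one_le_cos y, cos_le_one x, cos_le_one y]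
  have h3 := abs_cos_sub_cos_le x y
  nlinarith [abs_nonneg (cos x - cos y), abs_nonneg (x - y), abs_nonneg (cos x + cos y)]

lemma sinq_lip (x y : ℝ) : |sin x ^ 2 - sin y ^ 2| ≤ 2 * |x - y| := by
  have h1 : sin x ^ 2 - sin y ^ 2 = -(cos x ^ 2 - cos y ^ 2) := by
    rw [sin_sq, sin_sq]; ring
  rw [h1, abs_neg]
  exact cosq_lip x y

lemma sc_lip (x y : ℝ) : |sin x * cos x - sin y * cos y| ≤ 2 * |x - y| := by
  have h1 : sin x * cos x - sin y * cos y = sin x * (cos x - cos y) + cos y * (sin x - sin y) := by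
    ring
  rw [h1]
  have h2 : |sin x * (cos x - cos y)| ≤ |x - y| := by
    rw [abs_mul]
    calc _ ≤ 1 * |x - y| := mul_le_mul (abs_sin_le_one x) (abs_cos_sub_cos_le x y) (abs_nonneg _)
          zero_le_one
      _ = _ := one_mul _
  have h3 : |cos y * (sin x - sin y)| ≤ |x - y| := by
    rw [abs_mul]
    calc _ ≤ 1 * |x - y| := mul_le_mul (abs_cos_le_one y) (abs_sin_sub_sin_le x y) (abs_nonneg _)
          zero_le_one
      _ = _ := one_mul _
  have := abs_add_le (sin x * (cos x - cos y)) (cos y * (sin x - sin y))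
  linarith

lemma sc_le (x : ℝ) : |sin x * cos x| ≤ 1 := by
  rw [abs_mul]
  calc _ ≤ 1 * 1 := mul_le_mul (abs_sin_le_one x) (abs_cos_le_one x) (abs_nonneg _) zero_le_one
    _ = _ := one_mul _

lemma DD_ge {q : ℝ} (hq1 : q ≤ 1) (s : ℝ) : q ≤ DD q s := by
  unfold DD
  nlinarith [sin_sq_add_cos_sq s, sq_nonneg (cos s)]

lemma DD_le {q : ℝ} (hq1 : q ≤ 1) (s : ℝ) : DD q s ≤ 1 := by
  unfold DD
  nlinarith [sin_sq_add_cos_sq s, sq_nonneg (sin s)]

lemma RR_lip {q α θ W0 : ℝ} (hq : 0 < q) (hq1 : q ≤ 1) (hα : 1 ≤ α) (hW : |WW θ| ≤ W0) (x y : ℝ) :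
    |RR q α θ x - RR q α θ y| ≤ (4 * (NN q α + W0 + q * α) / q ^ 2) * |x - y| := by
  have hN : 0 ≤ NN q α := by
    unfold NN
    nlinarith
  have hW0 : 0 ≤ W0 := (abs_nonneg _).trans hW
  have hqα : 0 ≤ q * α := by positivity
  set M := NN q α + W0 + q * α with hM
  have hM0 : 0 ≤ M := by positivity
  have hDx := DD_ge hq1 x
  have hDy := DD_ge hq1 y
  have hDx1 := DD_le hq1 x
  have hDy1 := DD_le hq1 y
  have hDx0 : 0 < DD q x := lt_of_lt_of_le hq hDx
  have hDy0 : 0 < DD q y := lt_of_lt_of_le hq hDy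
  set A := fun s : ℝ => NN q α * cos s ^ 2 - WW θ * (sin s * cos s) + q * α * sin s ^ 2 with hA
  have hAx : |A x| ≤ M := by
    have h1 : |NN q α * cos x ^ 2| ≤ NN q α := by
      rw [abs_of_nonneg (by positivity)]
      have : cos x ^ 2 ≤ 1 := by nlinarith [sin_sq_add_cos_sq x, sq_nonneg (sin x)]
      nlinarith
    have h2 : |WW θ * (sin x * cos x)| ≤ W0 := by
      rw [abs_mul]
      calc _ ≤ W0 * 1 := mul_le_mul hW (sc_le x) (abs_nonneg _) hW0
        _ = _ := mul_one _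
    have h3 : |q * α * sin x ^ 2| ≤ q * α := by
      rw [abs_of_nonneg (by positivity)]
      have : sin x ^ 2 ≤ 1 := by nlinarith [sin_sq_add_cos_sq x, sq_nonneg (cos x)]
      nlinarith
    have h4 := abs_add_le (NN q α * cos x ^ 2 - WW θ * (sin x * cos x)) (q * α * sin x ^ 2)
    have h5 := abs_sub (NN q α * cos x ^ 2) (WW θ * (sin x * cos x))
    show |NN q α * cos x ^ 2 - WW θ * (sin x * cos x) + q * α * sin x ^ 2| ≤ M
    linarith
  have hAxy : |A x - A y| ≤ 2 * M * |x - y| := by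
    have e : A x - A y = NN q α * (cos x ^ 2 - cos y ^ 2) - WW θ * (sin x * cos x - sin y * cos y) +
        q * α * (sin x ^ 2 - sin y ^ 2) := by
      simp only [hA]; ring
    rw [e]
    have h1 : |NN q α * (cos x ^ 2 - cos y ^ 2)| ≤ NN q α * (2 * |x - y|) := by
      rw [abs_mul, abs_of_nonneg hN]
      exact mul_le_mul_of_nonneg_left (cosq_lip x y) hN
    have h2 : |WW θ * (sin x * cos x - sin y * cos y)| ≤ W0 * (2 * |x - y|) := by
      rw [abs_mul]
      exact mul_le_mul hW (sc_lip x y) (abs_nonneg _) hW0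
    have h3 : |q * α * (sin x ^ 2 - sin y ^ 2)| ≤ q * α * (2 * |x - y|) := by
      rw [abs_mul, abs_of_nonneg hqα]
      exact mul_le_mul_of_nonneg_left (sinq_lip x y) hqα
    have h4 := abs_add_le (NN q α * (cos x ^ 2 - cos y ^ 2) - WW θ * (sin x * cos x - sin y * cos y))
      (q * α * (sin x ^ 2 - sin y ^ 2))
    have h5 := abs_sub (NN q α * (cos x ^ 2 - cos y ^ 2)) (WW θ * (sin x * cos x - sin y * cos y))
    rw [hM]
    linarith
  have hDxy : |DD q y - DD q x| ≤ 2 * |x - y| := by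
    have e : DD q y - DD q x = (1 - q) * (cos y ^ 2 - cos x ^ 2) := by
      unfold DD; rw [sin_sq, sin_sq]; ring
    rw [e, abs_mul, abs_of_nonneg (by linarith)]
    have := cosq_lip y x
    rw [abs_sub_comm y x] at this
    nlinarith [abs_nonneg (cos y ^ 2 - cos x ^ 2), abs_nonneg (x - y)]
  have e : RR q α θ x - RR q α θ y =
      (A x * (DD q y - DD q x) + DD q x * (A x - A y)) / (DD q x * DD q y) := by
    unfold RR
    simp only [hA]
    field_simp
    ring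
  rw [e, abs_div, abs_of_pos (mul_pos hDx0 hDy0), div_le_iff₀ (mul_pos hDx0 hDy0)]
  have h1 : |A x * (DD q y - DD q x)| ≤ M * (2 * |x - y|) := by
    rw [abs_mul]
    exact mul_le_mul hAx hDxy (abs_nonneg _) hM0
  have h2 : |DD q x * (A x - A y)| ≤ 1 * (2 * M * |x - y|) := by
    rw [abs_mul, abs_of_pos hDx0]
    exact mul_le_mul hDx1 hAxy (abs_nonneg _) zero_le_one
  have h3 := abs_add_le (A x * (DD q y - DD q x)) (DD q x * (A x - A y))
  have h4 : q ^ 2 ≤ DD q x * DD q y := by nlinarith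
  have h5 : 4 * M * |x - y| ≤ 4 * M / q ^ 2 * |x - y| * (DD q x * DD q y) := by
    have e2 : 4 * M / q ^ 2 * |x - y| * (DD q x * DD q y) =
        4 * M * |x - y| * ((DD q x * DD q y) / q ^ 2) := by
      field_simp
    rw [e2]
    have h6 : 1 ≤ (DD q x * DD q y) / q ^ 2 := by
      rw [le_div_iff₀ (by positivity)]; linarith
    have h7 : 0 ≤ 4 * M * |x - y| := by positivity
    nlinarith
  linarith

/-- the barrier, regular at `π/4` -/
noncomputable def P (θ : ℝ) : ℝ := π / 2 - arctan (21 / 20 * (cos (2 * θ) / sin (2 * θ)))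

lemma sin_pos2 {θ : ℝ} (h0 : 0 < θ) (h1 : θ < π / 2) : 0 < sin (2 * θ) :=
  sin_pos_of_pos_of_lt_pi (by linarith) (by linarith)

lemma P_eq {θ : ℝ} (h0 : 0 < θ) (h1 : θ < π / 4) : arctan (20 / 21 * tan (2 * θ)) = P θ := by
  have hs : 0 < sin (2 * θ) := sin_pos2 h0 (by linarith [pi_pos])
  have hc : 0 < cos (2 * θ) := cos_pos_of_mem_Ioo ⟨by linarith [pi_pos], by linarith⟩
  have h2 : 0 < 20 / 21 * tan (2 * θ) := by
    rw [tan_eq_sin_div_cos]; positivity
  have h3 := arctan_inv_of_pos h2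
  have h4 : (20 / 21 * tan (2 * θ))⁻¹ = 21 / 20 * (cos (2 * θ) / sin (2 * θ)) := by
    rw [tan_eq_sin_div_cos]; field_simp
  rw [h4] at h3
  unfold P
  linarith

lemma P_mid : P (π / 4) = π / 2 := by
  unfold P
  have : 2 * (π / 4) = π / 2 := by ring
  rw [this, cos_pi_div_two]; simp

lemma P_der {θ : ℝ} (h0 : 0 < θ) (h1 : θ < π / 2) :
    HasDerivAt P (21 / 10 / (sin (2 * θ) ^ 2 + (21 / 20) ^ 2 * cos (2 * θ) ^ 2)) θ := by
  have hs : 0 < sin (2 * θ) := sin_pos2 h0 h1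
  have hid : HasDerivAt (fun t : ℝ => 2 * t) 2 θ := by
    simpa using (hasDerivAt_id θ).const_mul 2
  have hS : HasDerivAt (fun t => sin (2 * t)) (cos (2 * θ) * 2) θ := (hasDerivAt_sin _).comp θ hid
  have hC : HasDerivAt (fun t => cos (2 * t)) (-sin (2 * θ) * 2) θ := (hasDerivAt_cos _).comp θ hid
  have hq := ((hC.div hS hs.ne').const_mul (21 / 20)).arctan.const_sub (π / 2)
  refine hq.congr_deriv ?_
  have hsc : sin (2 * θ) ^ 2 + cos (2 * θ) ^ 2 = 1 := sin_sq_add_cos_sq _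
  set S := sin (2 * θ)
  set C := cos (2 * θ)
  simp only [Pi.div_apply]
  have h5 : 1 + (21 / 20 * (C / S)) ^ 2 = (S ^ 2 + (21 / 20) ^ 2 * C ^ 2) / S ^ 2 := by
    field_simp
  have h6 : (-S * 2 * S - C * (C * 2)) / S ^ 2 = -2 / S ^ 2 := by
    congr 1; nlinarith
  have h7 : 0 < S ^ 2 + (21 / 20) ^ 2 * C ^ 2 := by positivity
  rw [h6, h5]
  field_simp
  try norm_num

lemma RR_P {q θ : ℝ} (hq : 0 < q) (hq1 : q ≤ 2 / 5) (h0 : 0 < θ) (h1 : θ < π / 2) :
    RR q (21 / 10) θ (P θ) ≤ 21 / 10 / (sin (2 * θ) ^ 2 + (21 / 20) ^ 2 * cos (2 * θ) ^ 2) := by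
  have hs : 0 < sin (2 * θ) := sin_pos2 h0 h1
  have hsc : sin (2 * θ) ^ 2 + cos (2 * θ) ^ 2 = 1 := sin_sq_add_cos_sq _
  unfold RR DD WW P NN
  rw [cos_pi_div_two_sub, sin_pi_div_two_sub]
  set S := sin (2 * θ)
  set C := cos (2 * θ)
  have h5 : 1 + (21 / 20 * (C / S)) ^ 2 = (S ^ 2 + (21 / 20) ^ 2 * C ^ 2) / S ^ 2 := by
    field_simp
  have h7 : 0 < S ^ 2 + (21 / 20) ^ 2 * C ^ 2 := by positivity
  have e1 : sin (arctan (21 / 20 * (C / S))) ^ 2 = (21 / 20) ^ 2 * C ^ 2 / (S ^ 2 + (21 / 20) ^ 2 * C ^ 2) := by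
    rw [sin_sq_arctan, h5]; field_simp
  have e2 : cos (arctan (21 / 20 * (C / S))) ^ 2 = S ^ 2 / (S ^ 2 + (21 / 20) ^ 2 * C ^ 2) := by
    rw [cos_sq_arctan, h5]; field_simp
  have e3 : cos (arctan (21 / 20 * (C / S))) * sin (arctan (21 / 20 * (C / S))) =
      21 / 20 * C * S / (S ^ 2 + (21 / 20) ^ 2 * C ^ 2) := by
    have h8 : sin (arctan (21 / 20 * (C / S))) = (21 / 20 * (C / S)) * cos (arctan (21 / 20 * (C / S))) := by
      rw [sin_arctan, cos_arctan]; ring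
    rw [h8]
    have h9 : cos (arctan (21 / 20 * (C / S))) * (21 / 20 * (C / S) * cos (arctan (21 / 20 * (C / S)))) =
        21 / 20 * (C / S) * cos (arctan (21 / 20 * (C / S))) ^ 2 := by ring
    rw [h9, e2]; field_simp
  rw [e1, e2, e3]
  have h10 : 0 < (21 / 20) ^ 2 * C ^ 2 + q * S ^ 2 := by positivity
  have e4 : ((9 + (21 / 10 - 1) * q) * ((21 / 20) ^ 2 * C ^ 2 / (S ^ 2 + (21 / 20) ^ 2 * C ^ 2)) -
      8 * (C / S) * (21 / 20 * C * S / (S ^ 2 + (21 / 20) ^ 2 * C ^ 2)) +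
      q * (21 / 10) * (S ^ 2 / (S ^ 2 + (21 / 20) ^ 2 * C ^ 2))) /
      ((21 / 20) ^ 2 * C ^ 2 / (S ^ 2 + (21 / 20) ^ 2 * C ^ 2) +
      q * (S ^ 2 / (S ^ 2 + (21 / 20) ^ 2 * C ^ 2))) =
      (((9 + (21 / 10 - 1) * q) * (21 / 20) ^ 2 - 8 * (21 / 20)) * C ^ 2 + q * (21 / 10) * S ^ 2) /
      ((21 / 20) ^ 2 * C ^ 2 + q * S ^ 2) := by
    field_simp
    try ring
  rw [e4, div_le_div_iff₀ h10 h7]
  have hX : 0 ≤ C ^ 2 := sq_nonneg _
  have hY : 0 ≤ S ^ 2 := sq_nonneg _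
  have key : 21 / 10 * ((21 / 20) ^ 2 * C ^ 2 + q * S ^ 2) * (S ^ 2 + C ^ 2) -
      (((9 + (21 / 10 - 1) * q) * (21 / 20) ^ 2 - 8 * (21 / 20)) * C ^ 2 + q * (21 / 10) * S ^ 2) *
      (S ^ 2 + (21 / 20) ^ 2 * C ^ 2) =
      (C ^ 2 * S ^ 2) * (2 * (21 / 20) ^ 3 - 9 * (21 / 20) ^ 2 + 8 * (21 / 20) -
        q * (32 / 10 * (21 / 20) ^ 2 - 21 / 10)) +
      (C ^ 2) ^ 2 * ((21 / 20) ^ 3 * (10 - (9 + 11 / 10 * q) * (21 / 20))) := by
    ring
  have k1 : 0 ≤ (C ^ 2 * S ^ 2) * (2 * (21 / 20) ^ 3 - 9 * (21 / 20) ^ 2 + 8 * (21 / 20) -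
        q * (32 / 10 * (21 / 20) ^ 2 - 21 / 10)) := by
    apply mul_nonneg (mul_nonneg hX hY)
    nlinarith
  have k2 : 0 ≤ (C ^ 2) ^ 2 * ((21 / 20) ^ 3 * (10 - (9 + 11 / 10 * q) * (21 / 20))) := by
    apply mul_nonneg (sq_nonneg _)
    nlinarith
  rw [hsc, mul_one] at key
  linarith

end UpAux

open UpAux Set in
/-- O2b -/
theorem upP : UpP := by
  intro q s hq hq1 hs θ₀ h0 h1
  rw [P_eq h0 h1]
  by_contra hcon
  push Not at hcon
  have hpi := Real.pi_pos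
  -- bound for the coefficient
  obtain ⟨W0, hW0⟩ : ∃ W0 : ℝ, ∀ θ ∈ Icc θ₀ (Real.pi / 4), |WW θ| ≤ W0 := by
    have hc : ContinuousOn WW (Icc θ₀ (Real.pi / 4)) := by
      unfold WW
      apply ContinuousOn.mul continuousOn_const
      apply ContinuousOn.div (by fun_prop) (by fun_prop)
      intro t ht
      exact (sin_pos2 (lt_of_lt_of_le h0 ht.1) (by linarith [ht.2])).ne'
    exact isCompact_Icc.exists_bound_of_continuousOn hc
  set L : ℝ := 4 * (NN q (21 / 10) + W0 + q * (21 / 10)) / q ^ 2 with hL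
  set g : ℝ → ℝ := fun θ => s θ - P θ with hg
  have hgd : ∀ θ, 0 < θ → θ < Real.pi / 2 → HasDerivAt g (RR q (21 / 10) θ (s θ) -
      21 / 10 / (Real.sin (2 * θ) ^ 2 + (21 / 20) ^ 2 * Real.cos (2 * θ) ^ 2)) θ :=
    fun θ a b => (hs.ode θ a b).sub (P_der a b)
  have hgc : ContinuousOn g (Icc θ₀ (Real.pi / 4)) := fun θ hθ =>
    (hgd θ (lt_of_lt_of_le h0 hθ.1) (by linarith [hθ.2])).continuousAt.continuousWithinAt
  have hg1 : g (Real.pi / 4) = 0 := by
    simp only [hg]; rw [hs.mid, P_mid]; ring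
  have hg0 : g θ₀ < 0 := by simp only [hg]; linarith
  -- first zero
  set Z : Set ℝ := {θ ∈ Icc θ₀ (Real.pi / 4) | 0 ≤ g θ} with hZ
  have hZc : IsClosed Z := by
    have : Z = Icc θ₀ (Real.pi / 4) ∩ g ⁻¹' (Ici 0) := by
      ext t; simp [hZ]
    rw [this]
    exact hgc.preimage_isClosed_of_isClosed isClosed_Icc isClosed_Ici
  have hZn : Z.Nonempty := ⟨Real.pi / 4, ⟨h1.le, le_rfl⟩, hg1.ge⟩
  have hZb : BddBelow Z := ⟨θ₀, fun t ht => ht.1.1⟩
  have hmem : sInf Z ∈ Z := hZc.csInf_mem hZn hZb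
  set θ₁ := sInf Z with hθ₁
  have hlt : θ₀ < θ₁ := by
    rcases lt_or_eq_of_le hmem.1.1 with h | h
    · exact h
    · exact absurd (h ▸ hmem.2 : 0 ≤ g θ₀) (not_le.2 hg0)
  have hneg : ∀ t, θ₀ ≤ t → t < θ₁ → g t < 0 := by
    intro t ht0 ht1
    by_contra h
    push Not at h
    have : t ∈ Z := ⟨⟨ht0, ht1.le.trans hmem.1.2⟩, h⟩
    exact absurd (csInf_le hZb this) (not_le.2 ht1)
  -- monotone quantity
  have hanti : AntitoneOn (fun t => g t * Real.exp (L * t)) (Icc θ₀ θ₁) := by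
    apply antitoneOn_of_deriv_nonpos (convex_Icc _ _)
    · apply ContinuousOn.mul (hgc.mono (Icc_subset_Icc le_rfl hmem.1.2)) (by fun_prop)
    · intro t ht
      rw [interior_Icc] at ht
      have hd := hgd t (h0.trans ht.1) (by linarith [ht.2, hmem.1.2])
      exact (hd.differentiableAt.mul (by fun_prop)).differentiableWithinAt
    · intro t ht
      rw [interior_Icc] at ht
      have ht0 : 0 < t := h0.trans ht.1
      have ht1 : t < Real.pi / 2 := by linarith [ht.2, hmem.1.2]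
      have hd := hgd t ht0 ht1
      have he : HasDerivAt (fun t => Real.exp (L * t)) (Real.exp (L * t) * L) t := by
        have h2 : HasDerivAt (fun t : ℝ => L * t) L t := by
          simpa using (hasDerivAt_id t).const_mul L
        exact h2.exp
      have hm := hd.mul he
      have hm' : deriv (fun t => g t * Real.exp (L * t)) t = _ := hm.deriv
      rw [hm']
      have hgn := hneg t ht.1.le ht.2
      have hlip := RR_lip (q := q) (α := 21 / 10) (θ := t) (W0 := W0) hq (by linarith) (by norm_num)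
        (hW0 t ⟨ht.1.le, ht.2.le.trans hmem.1.2⟩) (s t) (P t)
      have hRP := RR_P hq hq1 ht0 ht1
      have habs : |s t - P t| = -(g t) := abs_of_neg hgn
      rw [habs, ← hL] at hlip
      have h3 := (abs_le.1 hlip).2
      have hexp := Real.exp_pos (L * t)
      have h4 : (RR q (21 / 10) t (s t) -
          21 / 10 / (Real.sin (2 * t) ^ 2 + (21 / 20) ^ 2 * Real.cos (2 * t) ^ 2)) + L * g t ≤ 0 := by
        linarith
      nlinarith
  have hfin := hanti (left_mem_Icc.2 hlt.le) (right_mem_Icc.2 hlt.le) hlt.le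
  have h5 : 0 ≤ g θ₁ * Real.exp (L * θ₁) := mul_nonneg hmem.2 (Real.exp_pos _).le
  have h6 : g θ₀ * Real.exp (L * θ₀) < 0 := mul_neg_of_neg_of_pos hg0 (Real.exp_pos _)
  simp only at hfin
  linarith

end Pool.Agent.R271.PJ
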